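import Pool.Agent.V8H95.BK.Zd

/-!
All energies away from the interior critical ones.
-/

set_option autoImplicit false
set_option linter.unusedSectionVars false
set_option linter.unusedVariables false

open Complex MeasureTheory
open scoped BigOperators ComplexConjugate

namespace Pool.Agent.V8H95.BK

open Pool.Agent.H4R2.AE Pool.Agent.V8H99.AD Pool.Agent.V8H95.MF Pool.Agent.V8H95.BW
open Pool.Agent.V8H95.EF Pool.Agent.V8H95.NE

/-- the sign of a site -/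
noncomputable def sgz {d : ℕ} (x : Fin d → ℤ) : ℂ := (-1 : ℂ) ^ (∑ i, x i)

theorem sgz_add {d : ℕ} (x : Fin d → ℤ) (i : Fin d) : sgz (x + Pi.single i 1) = -sgz x := by
  unfold sgz
  have h : ∑ j, (x + Pi.single i 1 : Fin d → ℤ) j = ∑ j, x j + 1 := by
    simp only [Pi.add_apply, Finset.sum_add_distrib]
    congr 1
    rw [Finset.sum_pi_single']
    simp
  rw [h, zpow_add₀ (by norm_num), zpow_one]
  ring

theorem sgz_sub {d : ℕ} (x : Fin d → ℤ) (i : Fin d) : sgz (x - Pi.single i 1) = -sgz x := by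
  have h := sgz_add (x - Pi.single i 1) i
  rw [sub_add_cancel] at h
  rw [h, neg_neg]

theorem sgz_norm {d : ℕ} (x : Fin d → ℤ) : ‖sgz x‖ = 1 := by
  unfold sgz
  rw [norm_zpow, norm_neg, norm_one, one_zpow]

theorem HF_sgz {d : ℕ} (lam : ℝ) (ω : (Fin d → ℤ) → ℝ) (u : (Fin d → ℤ) → ℂ) (x : Fin d → ℤ) :
    HF lam (-ω) (fun y => sgz y * u y) x = sgz x * (4 * d * u x - HF lam ω u x) := by
  unfold HF
  have h : ∀ i : Fin d, 2 * (sgz x * u x) - sgz (x + Pi.single i 1) * u (x + Pi.single i 1) -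
      sgz (x - Pi.single i 1) * u (x - Pi.single i 1) =
      sgz x * (4 * u x - (2 * u x - u (x + Pi.single i 1) - u (x - Pi.single i 1))) := by
    intro i
    rw [sgz_add, sgz_sub]
    ring
  simp only [h]
  rw [← Finset.mul_sum, Finset.sum_sub_distrib, Finset.sum_const, Finset.card_univ,
    Fintype.card_fin, nsmul_eq_mul, Pi.neg_apply]
  push_cast
  ring

theorem bm_sgz {d : ℕ} (u : (Fin d → ℤ) → ℂ) (x₀ : Fin d → ℤ) (r : ℕ) :
    bm (fun y => sgz y * u y) x₀ r = bm u x₀ r := by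
  unfold bm
  refine Finset.sum_congr rfl fun x _ => ?_
  rw [norm_mul, sgz_norm, one_mul]

/-- the upper band edge -/
theorem local_u (d : ℕ) (hd : 3 ≤ d) (N P : ℕ) (a : ℝ) (ha : 0 < a) (ha1 : a ≤ 1) :
    ∃ k lam0 : ℝ, 0 < k ∧ 0 < lam0 ∧
    ∀ (μ : Measure ℝ) [IsProbabilityMeasure μ], μ (Set.Icc (-1) 1)ᶜ = 0 →
    ∀ lam : ℝ, 0 < lam → lam ≤ lam0 → ∀ W : ℕ,
    1 / lam ^ (d + 6) ≤ (W : ℝ) → (W : ℝ) ≤ 1 / lam ^ N →
    ∃ G : Set ((Fin d → ℤ) → ℝ), MeasurableSet G ∧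
      1 - lam ^ P ≤ (Measure.infinitePi fun _ : Fin d → ℤ => μ).real G ∧
      ∀ ω ∈ G, ∀ (x₀ : Fin d → ℤ), nz x₀ ≤ W → ∀ (ψ : (Fin d → ℤ) → ℂ) (E : ℝ),
        (E ≤ k ∨ 4 * d - k ≤ E) →
        (∀ x, nz (x - x₀) ≤ W → HF lam ω ψ x = (E : ℂ) * ψ x) →
        bm ψ x₀ ⌊lam ^ (a - 2)⌋₊ ≤ lam ^ (a / 64) * bm ψ x₀ (W + 1) := by
  obtain ⟨k, lam0, hk, hlam0, H⟩ := ND.local_d d hd N (P + 1) a ha ha1
  refine ⟨k, min lam0 (1 / 2), hk, by positivity, ?_⟩
  intro μ _ hμ lam hlam hlamm W hW1 hW2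
  have hl0 : lam ≤ lam0 := hlamm.trans (min_le_left _ _)
  have hl2 : lam ≤ 1 / 2 := hlamm.trans (min_le_right _ _)
  obtain ⟨G, hGm, hGP, hG⟩ := H μ hμ lam hlam hl0 W hW1 hW2
  have hprob : IsProbabilityMeasure (μ.map (fun t : ℝ => -t)) :=
    Measure.isProbabilityMeasure_map (by fun_prop)
  have hμ' : (μ.map (fun t : ℝ => -t)) (Set.Icc (-1) 1)ᶜ = 0 := by
    rw [Measure.map_apply (by fun_prop) measurableSet_Icc.compl]
    have e : (fun t : ℝ => -t) ⁻¹' (Set.Icc (-1 : ℝ) 1)ᶜ = (Set.Icc (-1 : ℝ) 1)ᶜ := by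
      ext t
      simp only [Set.mem_preimage, Set.mem_compl_iff, Set.mem_Icc, not_and_or]
      constructor
      · rintro (h | h)
        · right; intro h2; apply h; linarith
        · left; intro h2; apply h; linarith
      · rintro (h | h)
        · right; intro h2; apply h; linarith
        · left; intro h2; apply h; linarith
    rw [e]
    exact hμ
  obtain ⟨G', hG'm, hG'P, hG'⟩ := H (μ.map (fun t : ℝ => -t)) hμ' lam hlam hl0 W hW1 hW2
  have hmeas : Measurable (fun (ω : (Fin d → ℤ) → ℝ) (i : Fin d → ℤ) => -(ω i)) := by fun_prop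
  have hmap : (Measure.infinitePi fun _ : Fin d → ℤ => μ).map (fun ω i => -(ω i)) =
      Measure.infinitePi (fun _ : Fin d → ℤ => μ.map (fun t : ℝ => -t)) :=
    Measure.infinitePi_map_pi (μ := fun _ : Fin d → ℤ => μ)
      (f := fun (_ : Fin d → ℤ) (t : ℝ) => -t) (fun _ => by fun_prop)
  have hreal : (Measure.infinitePi fun _ : Fin d → ℤ => μ).real
      ((fun (ω : (Fin d → ℤ) → ℝ) (i : Fin d → ℤ) => -(ω i)) ⁻¹' G') =
      (Measure.infinitePi (fun _ : Fin d → ℤ => μ.map (fun t : ℝ => -t))).real G' := by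
    rw [← hmap, map_measureReal_apply hmeas hG'm]
  refine ⟨G ∩ ((fun (ω : (Fin d → ℤ) → ℝ) (i : Fin d → ℤ) => -(ω i)) ⁻¹' G'),
    hGm.inter (hmeas hG'm), ?_, ?_⟩
  · have h1 := probReal_add_probReal_compl (μ := Measure.infinitePi fun _ : Fin d → ℤ => μ) hGm
    have h2 := probReal_add_probReal_compl (μ := Measure.infinitePi fun _ : Fin d → ℤ => μ)
      (hmeas hG'm)
    have h3 := probReal_add_probReal_compl (μ := Measure.infinitePi fun _ : Fin d → ℤ => μ)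
      (hGm.inter (hmeas hG'm))
    rw [Set.compl_inter] at h3
    have h4 := measureReal_union_le (μ := Measure.infinitePi fun _ : Fin d → ℤ => μ) Gᶜ
      ((fun (ω : (Fin d → ℤ) → ℝ) (i : Fin d → ℤ) => -(ω i)) ⁻¹' G')ᶜ
    have h5 : 2 * lam ^ (P + 1) ≤ lam ^ P := by
      rw [pow_succ]
      have : 0 < lam ^ P := by positivity
      nlinarith
    rw [hreal] at h2
    linarith
  intro ω hω x₀ hx₀ ψ E hE hψ
  rcases hE with hE | hE
  · exact hG ω hω.1 x₀ hx₀ ψ E hE hψ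
  · have h1 := hG' _ hω.2 x₀ hx₀ (fun y => sgz y * ψ y) (4 * d - E) (by linarith) (by
      intro x hx
      refine (HF_sgz lam ω ψ x).trans ?_
      rw [hψ x hx]
      push_cast
      ring)
    rw [bm_sgz, bm_sgz] at h1
    exact h1

/-- **all energies away from the interior critical ones** -/
theorem local_all (d : ℕ) (hd : 3 ≤ d) (N P : ℕ) (a δ : ℝ) (ha : 0 < a) (ha1 : a ≤ 1)
    (hδ : 0 < δ) :
    ∃ lam0 : ℝ, 0 < lam0 ∧
    ∀ (μ : Measure ℝ) [IsProbabilityMeasure μ], μ (Set.Icc (-1) 1)ᶜ = 0 →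
    ∀ lam : ℝ, 0 < lam → lam ≤ lam0 → ∀ W : ℕ,
    1 / lam ^ (d + 6) ≤ (W : ℝ) → (W : ℝ) ≤ 1 / lam ^ N →
    ∃ G : Set ((Fin d → ℤ) → ℝ), MeasurableSet G ∧
      1 - lam ^ P ≤ (Measure.infinitePi fun _ : Fin d → ℤ => μ).real G ∧
      ∀ ω ∈ G, ∀ (x₀ : Fin d → ℤ), nz x₀ ≤ W → ∀ (ψ : (Fin d → ℤ) → ℂ) (E : ℝ),
        (∀ j : ℕ, 1 ≤ j → j < d → δ ≤ |E - 4 * j|) →
        (∀ x, nz (x - x₀) ≤ W → HF lam ω ψ x = (E : ℂ) * ψ x) →
        bm ψ x₀ ⌊lam ^ (a - 2)⌋₊ ≤ lam ^ (a / 64) * bm ψ x₀ (W + 1) := by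
  obtain ⟨k, lam1, hk, hlam1, H1⟩ := local_u d hd N (P + 1) a ha ha1
  obtain ⟨lam2, hlam2, H2⟩ := local_b d hd N (P + 1) a (min δ k) ha ha1 (by positivity)
  refine ⟨min (min lam1 lam2) (1 / 2), by positivity, ?_⟩
  intro μ _ hμ lam hlam hlamm W hW1 hW2
  have hl1 : lam ≤ lam1 := hlamm.trans ((min_le_left _ _).trans (min_le_left _ _))
  have hl2 : lam ≤ lam2 := hlamm.trans ((min_le_left _ _).trans (min_le_right _ _))
  have hl3 : lam ≤ 1 / 2 := hlamm.trans (min_le_right _ _)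
  obtain ⟨G, hGm, hGP, hG⟩ := H1 μ hμ lam hlam hl1 W hW1 hW2
  obtain ⟨G', hG'm, hG'P, hG'⟩ := H2 μ hμ lam hlam hl2 W hW1 hW2
  refine ⟨G ∩ G', hGm.inter hG'm, ?_, ?_⟩
  · have h1 := probReal_add_probReal_compl (μ := Measure.infinitePi fun _ : Fin d → ℤ => μ) hGm
    have h2 := probReal_add_probReal_compl (μ := Measure.infinitePi fun _ : Fin d → ℤ => μ) hG'm
    have h3 := probReal_add_probReal_compl (μ := Measure.infinitePi fun _ : Fin d → ℤ => μ)
      (hGm.inter hG'm)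
    rw [Set.compl_inter] at h3
    have h4 := measureReal_union_le (μ := Measure.infinitePi fun _ : Fin d → ℤ => μ) Gᶜ G'ᶜ
    have h5 : 2 * lam ^ (P + 1) ≤ lam ^ P := by
      rw [pow_succ]
      have : 0 < lam ^ P := by positivity
      nlinarith
    linarith
  intro ω hω x₀ hx₀ ψ E hE hψ
  by_cases hk1 : E ≤ k ∨ 4 * d - k ≤ E
  · exact hG ω hω.1 x₀ hx₀ ψ E hk1 hψ
  · push Not at hk1
    obtain ⟨hk1, hk2⟩ := hk1
    refine hG' ω hω.2 x₀ hx₀ ψ E (by linarith) (by linarith) ?_ hψ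
    intro j hj
    rcases Nat.eq_zero_or_pos j with rfl | hj0
    · refine (min_le_right _ _).trans ?_
      refine le_trans ?_ (le_abs_self _)
      push_cast
      linarith
    · rcases Nat.lt_or_ge j d with hjd | hjd
      · exact (min_le_left _ _).trans (hE j hj0 hjd)
      · have hjd' : j = d := le_antisymm hj hjd
        subst hjd'
        refine (min_le_right _ _).trans ?_
        refine le_trans ?_ (neg_le_abs _)
        linarith

end Pool.Agent.V8H95.BK
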