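import Pool.Agent.V8H95.ND.Spe

/-!
The resolvent kernel from the local density of states, at all energies.
-/

set_option autoImplicit false
set_option linter.unusedSectionVars false
set_option linter.unusedVariables false

open Complex MeasureTheory
open scoped BigOperators ComplexConjugate

namespace Pool.Agent.V8H95.BK

open Pool.Agent.H4R2.AE Pool.Agent.V8H99.AD Pool.Agent.V8H95.MF Pool.Agent.V8H95.BW
open Pool.Agent.V8H95.EF Pool.Agent.V8H95.NM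

/-- decomposition over scales -/
theorem scale_b (t ρ n : ℝ) (j : ℕ) (hρ : 0 < ρ) (hρ1 : ρ ≤ 1)
    (hn : 0 < n) (hn2 : n ^ 2 = t ^ 2 + (ρ ^ j) ^ 2) :
    1 / n ≤ 3 + 2 / ρ * ∑ i ∈ Finset.range (j + 1), ρ ^ i / (t ^ 2 + (ρ ^ i) ^ 2) := by
  have hs0 : 0 ≤ 2 / ρ * ∑ i ∈ Finset.range (j + 1), ρ ^ i / (t ^ 2 + (ρ ^ i) ^ 2) := by
    have : 0 ≤ ∑ i ∈ Finset.range (j + 1), ρ ^ i / (t ^ 2 + (ρ ^ i) ^ 2) :=
      Finset.sum_nonneg fun i _ => by positivity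
    positivity
  rcases le_total (-1) t with ht | ht
  · have h1 := scale (t + 1) 1 ρ n j (by linarith) one_pos hρ hρ1 hn (by
      rw [hn2, one_mul]
      ring)
    have e : ∀ i : ℕ, 1 * ρ ^ i / ((t + 1 - 1) ^ 2 + (1 * ρ ^ i) ^ 2) =
        ρ ^ i / (t ^ 2 + (ρ ^ i) ^ 2) := by
      intro i
      rw [one_mul, add_sub_cancel_right]
    simp only [e] at h1
    refine h1.trans ?_
    have h2 : 3 / (t + 1 + 1) ≤ 3 := by
      rw [div_le_iff₀ (by linarith)]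
      linarith
    linarith
  · have h2 : 1 ≤ n := by
      have h3 : 1 ≤ n ^ 2 := by
        rw [hn2]
        have : 0 ≤ (ρ ^ j) ^ 2 := sq_nonneg _
        nlinarith
      nlinarith
    have h3 : 1 / n ≤ 1 := by
      rw [div_le_one hn]
      exact h2
    linarith

/-- **the resolvent kernel** -/
theorem GG_b {d L : ℕ} [NeZero L] (lam E0 : ℝ) (V : T d L → ℝ) (ρ : ℝ) (hρ : 0 < ρ) (hρ1 : ρ ≤ 1)
    (j : ℕ) (B : ℝ) (hB : ∀ (i : ℕ), i ≤ j → ∀ x, XX lam (zz E0 0 (ρ ^ i)) x V ≤ B) (x y : T d L) :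
    ‖GG lam (zz E0 0 (ρ ^ j)) x y V‖ ≤ 3 + 2 / ρ * ((j + 1) * B) := by
  obtain ⟨b, E, hb⟩ := exists_basis lam V
  have hz : ∀ i : ℕ, (zz E0 0 (ρ ^ i)).im ≠ 0 := fun i => by
    rw [zz_im]
    positivity
  set Z := zz E0 0 (ρ ^ j) with hZ
  -- pointwise
  have hpt : ∀ α, 1 / ‖((E α : ℝ) : ℂ) - Z‖ ≤ 3 +
      2 / ρ * ∑ i ∈ Finset.range (j + 1), ρ ^ i /
        ‖((E α : ℝ) : ℂ) - zz E0 0 (ρ ^ i)‖ ^ 2 := by
    intro α
    have hnp : 0 < ‖((E α : ℝ) : ℂ) - Z‖ := by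
      rw [norm_pos_iff]
      exact Ez_ne b E hb (hz j) α
    have hn2 : ‖((E α : ℝ) : ℂ) - Z‖ ^ 2 = (E α - E0 - 0) ^ 2 + (ρ ^ j) ^ 2 :=
      zz_norm _ _ _ _
    have key := scale_b (E α - E0 - 0) ρ _ j hρ hρ1 hnp hn2
    simp only [zz_norm]
    exact key
  -- the diagonal sums
  have hS : ∀ x : T d L, ∑ α, ‖(inner ℂ (b α) (es x) : ℂ)‖ ^ 2 * (1 / ‖((E α : ℝ) : ℂ) - Z‖) ≤
      3 + 2 / ρ * ((j + 1) * B) := by
    intro x
    set w : T d L → ℝ := fun α => ‖(inner ℂ (b α) (es x) : ℂ)‖ ^ 2 with hw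
    have hw0 : ∀ α, 0 ≤ w α := fun α => by positivity
    have h1 : ∑ α, w α * (1 / ‖((E α : ℝ) : ℂ) - Z‖) ≤ ∑ α, (w α * 3 +
        2 / ρ * ∑ i ∈ Finset.range (j + 1), w α * (ρ ^ i /
        ‖((E α : ℝ) : ℂ) - zz E0 0 (ρ ^ i)‖ ^ 2)) := by
      refine Finset.sum_le_sum fun α _ => ?_
      calc w α * (1 / ‖((E α : ℝ) : ℂ) - Z‖) ≤ w α * (3 +
            2 / ρ * ∑ i ∈ Finset.range (j + 1), ρ ^ i /
              ‖((E α : ℝ) : ℂ) - zz E0 0 (ρ ^ i)‖ ^ 2) :=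
            mul_le_mul_of_nonneg_left (hpt α) (hw0 α)
        _ = _ := by
            rw [mul_add, ← Finset.mul_sum]
            ring
    refine h1.trans ?_
    rw [Finset.sum_add_distrib, ← Finset.mul_sum, Finset.sum_comm]
    have h2 : ∑ α, w α * 3 = 3 := by
      rw [← Finset.sum_mul, wsum b E hb x, one_mul]
    have h3 : 2 / ρ * ∑ i ∈ Finset.range (j + 1), ∑ α, w α * (ρ ^ i /
        ‖((E α : ℝ) : ℂ) - zz E0 0 (ρ ^ i)‖ ^ 2) ≤ 2 / ρ * ((j + 1) * B) := by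
      gcongr
      calc ∑ i ∈ Finset.range (j + 1), ∑ α, w α * (ρ ^ i /
            ‖((E α : ℝ) : ℂ) - zz E0 0 (ρ ^ i)‖ ^ 2) ≤
          ∑ i ∈ Finset.range (j + 1), B := by
            refine Finset.sum_le_sum fun i hi => ?_
            have h4 := XX_sum b E hb (hz i) x
            rw [zz_im] at h4
            rw [← h4]
            exact hB i (by have := Finset.mem_range.1 hi; omega) x
        _ = (j + 1) * B := by
            rw [Finset.sum_const, Finset.card_range, nsmul_eq_mul]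
            push_cast
            ring
    exact add_le_add h2.le h3
  refine (GG_sum b E hb (hz j) x y).trans ?_
  have h1 : ∑ α, ‖(inner ℂ (b α) (es x) : ℂ)‖ * ‖(inner ℂ (b α) (es y) : ℂ)‖ /
      ‖((E α : ℝ) : ℂ) - Z‖ ≤
      1 / 2 * ∑ α, ‖(inner ℂ (b α) (es x) : ℂ)‖ ^ 2 * (1 / ‖((E α : ℝ) : ℂ) - Z‖) +
      1 / 2 * ∑ α, ‖(inner ℂ (b α) (es y) : ℂ)‖ ^ 2 * (1 / ‖((E α : ℝ) : ℂ) - Z‖) := by
    rw [Finset.mul_sum, Finset.mul_sum, ← Finset.sum_add_distrib]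
    refine Finset.sum_le_sum fun α _ => ?_
    set p := ‖(inner ℂ (b α) (es x) : ℂ)‖
    set q := ‖(inner ℂ (b α) (es y) : ℂ)‖
    set n := 1 / ‖((E α : ℝ) : ℂ) - Z‖ with hn
    have hn0 : 0 ≤ n := by positivity
    have e1 : p * q / ‖((E α : ℝ) : ℂ) - Z‖ = p * q * n := by rw [hn]; ring
    rw [e1]
    nlinarith [mul_nonneg hn0 (sq_nonneg (p - q))]
  have h2 := hS x
  have h3 := hS y
  refine h1.trans ?_
  linarith

end Pool.Agent.V8H95.BK
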