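import Pool.Agent.V8H95.BK.Cnt
import Pool.Agent.V8H95.BK.Gb
import Pool.Agent.V8H95.ND.Ev

/-!
The descent in the imaginary part of the energy, inside the spectrum.
-/

set_option autoImplicit false
set_option linter.unusedSectionVars false
set_option linter.unusedVariables false

open Complex MeasureTheory
open scoped BigOperators ComplexConjugate

namespace Pool.Agent.V8H95.BK

open Pool.Agent.H4R2.AE Pool.Agent.V8H99.AD Pool.Agent.V8H95.MF Pool.Agent.V8H95.BW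
open Pool.Agent.V8H95.EF Pool.Agent.V8H95.NM Pool.Agent.V8H95.ND

/-- the energies of the descent -/
noncomputable def zb (E ρ : ℝ) (j : ℕ) : ℂ := zz E 0 (ρ ^ j)

theorem zb_im (E ρ : ℝ) (j : ℕ) : (zb E ρ j).im = ρ ^ j := zz_im _ _ _

theorem zb_re (E ρ : ℝ) (j : ℕ) : (zb E ρ j).re = E := by
  unfold zb
  rw [zz_re, add_zero]

theorem zb_pos (E : ℝ) {ρ : ℝ} (hρ : 0 < ρ) (j : ℕ) : 0 < (zb E ρ j).im := by
  rw [zb_im]
  positivity

theorem zb_eq (E ρ : ℝ) (j : ℕ) : ND.ze (E - 1) 1 ρ j = zb E ρ j := by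
  unfold ND.ze zb zz
  norm_num

/-- a constant -/
noncomputable def DB (d : ℕ) : ℝ := 2 * (8 * (d : ℝ) + 6) ^ 2

section
variable {d L : ℕ} [NeZero L]

/-- the bounded potentials -/
def G1 (d L : ℕ) : Set (T d L → ℝ) := {V | ∀ x, |V x| ≤ 1}

theorem G1_meas : MeasurableSet (G1 d L) := by
  have e : G1 d L = ⋂ x : T d L, {V : T d L → ℝ | |V x| ≤ 1} := by
    ext V
    simp only [Set.mem_iInter]
    exact Iff.rfl
  rw [e]
  refine MeasurableSet.iInter fun x => ?_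
  exact measurableSet_le (continuous_abs.measurable.comp (measurable_pi_apply x)) measurable_const

theorem G1_prob (μ : Measure ℝ) [IsProbabilityMeasure μ] (hμ : μ (Set.Icc (-1) 1)ᶜ = 0) :
    (Measure.pi fun _ : T d L => μ).real (G1 d L)ᶜ = 0 := by
  have h1 := ae_iff.1 (ae_V (d := d) (L := L) μ hμ)
  have h2 : (Measure.pi fun _ : T d L => μ) (G1 d L)ᶜ = 0 := h1
  rw [Measure.real, h2]
  rfl

/-- the good potentials at scale `j` -/
def Ob (lam E ρ B0 : ℝ) (j : ℕ) : Set (T d L → ℝ) := ND.Oj lam (E - 1) 1 ρ B0 (G1 d L) j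

theorem mem_Ob {lam E ρ B0 : ℝ} {j : ℕ} {V : T d L → ℝ} (h : V ∈ Ob (d := d) (L := L) lam E ρ B0 j) :
    (∀ x, |V x| ≤ 1) ∧ ∀ i ≤ j, ∀ x, XX lam (zb E ρ i) x V ≤ B0 := by
  refine ⟨h.1, fun i hi x => ?_⟩
  have := h.2 i (Finset.mem_range.2 (by omega)) x
  rwa [zb_eq] at this

theorem Ob_meas (lam E : ℝ) {ρ : ℝ} (hρ : 0 < ρ) (B0 : ℝ) (j : ℕ) :
    MeasurableSet (Ob (d := d) (L := L) lam E ρ B0 j) := ND.Oj_meas one_pos hρ B0 G1_meas j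

theorem Ob_prob (μ : Measure ℝ) [IsProbabilityMeasure μ] (hμ : μ (Set.Icc (-1) 1)ᶜ = 0)
    {lam E ρ A Λ : ℝ} {g0 bq J : ℕ} (hρ : 0 < ρ) (hA : 0 < A) (hΛ : 1 ≤ Λ) (j : ℕ) (hj : j ≤ J)
    (hI : ∀ i ≤ j, ∫ V, XX lam (zb E ρ i) (0 : T d L) V ^ (3 * 2 ^ (g0 - bq * i))
      ∂(Measure.pi fun _ : T d L => μ) ≤ K0 g0 * A ^ (3 * 2 ^ (g0 - bq * i))) :
    (Measure.pi fun _ : T d L => μ).real (Ob lam E ρ (Λ * A) j)ᶜ ≤
        (J + 1) * (L : ℝ) ^ d * K0 g0 / Λ ^ (3 * 2 ^ (g0 - bq * j)) := by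
  have h1 := ND.Oj_prob (μ := μ) (lam := lam) (c0 := E - 1) (κ := 1) (ρ := ρ) (A := A) (Λ := Λ)
    (g0 := g0) (bq := bq) (J := J) one_pos hρ hA hΛ (G1_meas (d := d) (L := L)) j hj (by
      intro i hi
      rw [zb_eq, mul_one]
      exact hI i hi)
  rw [G1_prob μ hμ, zero_add, mul_one] at h1
  exact h1

end

/-- the hypotheses of the descent -/
structure Bb (d L : ℕ) [NeZero L] (μ : Measure ℝ) (Cs A : ℝ) (g0 bq J : ℕ)
    (lam E δ0 s0 ρ Λ δ T' : ℝ) : Prop where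
  d1 : 1 ≤ d
  supp : μ (Set.Icc (-1) 1)ᶜ = 0
  lam0 : 0 ≤ lam
  lam1 : lam ≤ 1
  nr : NR d E δ0
  dd0 : 0 < δ0
  ll : 12 * lam ≤ δ0
  ss0 : 0 < s0
  ss1 : s0 ≤ 1
  ss2 : 4 * d * s0 ^ 2 ≤ δ0
  hA : 48 * d / s0 + 128 / δ0 ^ 2 ≤ A
  A1 : 1 ≤ A
  Eb : |E| ≤ 4 * d + 4
  r0 : 0 < ρ
  r1 : ρ ≤ 1
  L1 : 1 ≤ Λ
  hJ : bq * J ≤ g0
  hb : 1 ≤ bq
  yL : s0 ≤ ρ ^ J * L
  hδ : (J + 1) * (L : ℝ) ^ d * K0 g0 / Λ ^ (3 * 2 ^ bq) ≤ δ
  H1 : lam * (3 + 2 / ρ * ((J + 2) * (Λ * A / ρ))) ≤ 1 / 4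
  HT : 4 * lam ^ 2 / ρ ^ J * ((L : ℝ) ^ d / (ρ ^ J) ^ 2 *
    (Λ * A / ρ ^ 2 * K0 g0 / Λ ^ (3 * 2 ^ bq))) + 4 * (L : ℝ) ^ d / (ρ ^ J) ^ 2 * δ ≤ T'
  H2 : 8 * (4 * lam ^ 2 * (Λ * A / ρ ^ 2) / ρ ^ J + DB d * T') ≤ s0
  H3 : Cs * (2 * K0 g0) * (lam ^ 2 * A / (ρ ^ 3 * ρ ^ J)) ≤ 1 / 2
  H4b : (L : ℝ) ^ d / (ρ ^ J) ^ 2 ≤ A ^ 2 * Λ ^ (2 ^ bq)
  H4c : Cs * ((J + 1) * (L : ℝ) ^ d * K0 g0) ≤ 1 / 4 * Λ ^ (2 ^ (bq - 1))

section
variable {d L : ℕ} [NeZero L] {μ : Measure ℝ} [IsProbabilityMeasure μ] {Cs A : ℝ} {g0 bq J : ℕ}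
  {lam E δ0 s0 ρ Λ δ T' : ℝ}

/-- the first scale -/
theorem base_b (h : Bb d L μ Cs A g0 bq J lam E δ0 s0 ρ Λ δ T') :
    ∫ V, XX lam (zb E ρ 0) (0 : T d L) V ^ (3 * 2 ^ g0) ∂(Measure.pi fun _ : T d L => μ) ≤
      K0 g0 * A ^ (3 * 2 ^ g0) := by
  set P : Measure (T d L → ℝ) := Measure.pi fun _ : T d L => μ with hP
  set n : ℕ := 3 * 2 ^ g0 with hn
  have hz := zb_pos E h.r0 0
  have hpt : ∀ V : T d L → ℝ, XX lam (zb E ρ 0) 0 V ^ n ≤ 1 := by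
    intro V
    have hx := XX_nonneg lam hz 0 V
    have h1 := XX_le lam hz (0 : T d L) V
    rw [zb_im, pow_zero, div_one] at h1
    exact pow_le_one₀ hx h1
  have h1 := integral_mono (XX_pow_int μ lam hz 0 n) (integrable_const (1 : ℝ)) hpt
  refine h1.trans ?_
  have e2 : ∫ _V, (1 : ℝ) ∂P = 1 := by simp
  rw [e2]
  have h3 := K0_ge g0
  have h4 : 1 ≤ A ^ n := one_le_pow₀ h.A1
  nlinarith

theorem eta_le_b (h : Bb d L μ Cs A g0 bq J lam E δ0 s0 ρ Λ δ T') (j : ℕ) (hj : j ≤ J) :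
    ρ ^ J ≤ (zb E ρ j).im := by
  rw [zb_im]
  exact pow_le_pow_of_le_one h.r0.le h.r1 hj

/-- the good event works at the next scale -/
theorem om2_b (h : Bb d L μ Cs A g0 bq J lam E δ0 s0 ρ Λ δ T') (j : ℕ) (hj : j + 1 ≤ J)
    (V : T d L → ℝ) (hV : V ∈ Ob (d := d) (L := L) lam E ρ (Λ * A) j) : (∀ x, |V x| ≤ 1) ∧
    (∀ x y, lam * ‖GG lam (zb E ρ (j + 1)) x y V‖ ≤ 1 / 4) ∧
    ∀ y, XX lam (zb E ρ (j + 1)) y V ≤ Λ * A / ρ := by
  obtain ⟨hV1, hVO⟩ := mem_Ob hV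
  have hρ := h.r0
  have hΛ := h.L1
  have hA0 : 0 < A := by linarith [h.A1]
  have hB : Λ * A ≤ Λ * A / ρ := by
    rw [le_div_iff₀ hρ]
    have : 0 ≤ Λ * A := by positivity
    nlinarith [h.r1]
  have hall : ∀ (i : ℕ), i ≤ j + 1 → ∀ w, XX lam (zz E 0 (ρ ^ i)) w V ≤ Λ * A / ρ := by
    intro i hi w
    rcases Nat.lt_or_ge i (j + 1) with hlt | hge
    · exact (hVO i (by omega) w).trans hB
    · have hi' : i = j + 1 := le_antisymm hi hge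
      subst hi'
      have h2 := XX_mono lam E 0 w V (ρ ^ j) (ρ ^ (j + 1)) (by positivity)
        (pow_le_pow_of_le_one hρ.le h.r1 (by omega))
      refine h2.trans ?_
      have e1 : ρ ^ j / ρ ^ (j + 1) = 1 / ρ := by
        rw [pow_succ]
        field_simp
      rw [e1]
      have h3 := hVO j le_rfl w
      calc 1 / ρ * XX lam (zz E 0 (ρ ^ j)) w V ≤ 1 / ρ * (Λ * A) := by
            gcongr
            exact h3
        _ = _ := by ring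
  refine ⟨hV1, fun x y => ?_, fun y => hall (j + 1) le_rfl y⟩
  have h1 := GG_b lam E V ρ hρ h.r1 (j + 1) (Λ * A / ρ) hall x y
  refine le_trans ?_ h.H1
  have hlam := h.lam0
  apply mul_le_mul_of_nonneg_left _ hlam
  refine h1.trans ?_
  have h4 : ((j + 1 : ℕ) : ℝ) + 1 ≤ (J : ℝ) + 2 := by
    have : ((j + 1 : ℕ) : ℝ) ≤ J := by exact_mod_cast hj
    linarith
  gcongr

theorem om_next_b (h : Bb d L μ Cs A g0 bq J lam E δ0 s0 ρ Λ δ T') (j : ℕ) (hj : j + 1 ≤ J)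
    (V : T d L → ℝ) (hV : V ∈ Ob (d := d) (L := L) lam E ρ (Λ * A) j) :
    Om lam (zb E ρ (j + 1)) V := by
  obtain ⟨h1, h2, -⟩ := om2_b h j hj V hV
  exact ⟨h1, fun x y => (h2 x y).trans (by norm_num)⟩

/-- moments at the next scale -/
theorem next_mom_b (h : Bb d L μ Cs A g0 bq J lam E δ0 s0 ρ Λ δ T') (j n : ℕ) (K : ℝ)
    (hI : ∫ V, XX lam (zb E ρ j) (0 : T d L) V ^ n ∂(Measure.pi fun _ : T d L => μ) ≤ K * A ^ n) :
    ∫ V, XX lam (zb E ρ (j + 1)) (0 : T d L) V ^ n ∂(Measure.pi fun _ : T d L => μ) ≤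
      (1 / ρ) ^ n * (K * A ^ n) := by
  have hρ := h.r0
  have hz := zb_pos E hρ j
  have hz' := zb_pos E hρ (j + 1)
  calc ∫ V, XX lam (zb E ρ (j + 1)) (0 : T d L) V ^ n ∂(Measure.pi fun _ : T d L => μ) ≤
      ∫ V, (1 / ρ) ^ n * XX lam (zb E ρ j) (0 : T d L) V ^ n ∂(Measure.pi fun _ : T d L => μ) := by
        refine integral_mono (XX_pow_int μ lam hz' 0 n) ((XX_pow_int μ lam hz 0 n).const_mul _)
          fun V => ?_
        show XX lam (zb E ρ (j + 1)) 0 V ^ n ≤ (1 / ρ) ^ n * XX lam (zb E ρ j) 0 V ^ n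
        rw [← mul_pow]
        apply pow_le_pow_left₀ (XX_nonneg lam hz' 0 V)
        have h2 := XX_mono lam E 0 (0 : T d L) V (ρ ^ j) (ρ ^ (j + 1))
          (by positivity) (pow_le_pow_of_le_one hρ.le h.r1 (by omega))
        have e1 : ρ ^ j / ρ ^ (j + 1) = 1 / ρ := by
          rw [pow_succ]
          field_simp
        rw [e1] at h2
        exact h2
    _ = (1 / ρ) ^ n * ∫ V, XX lam (zb E ρ j) (0 : T d L) V ^ n ∂(Measure.pi fun _ : T d L => μ) :=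
        integral_const_mul _ _
    _ ≤ _ := by gcongr

/-- the variance at the next scale -/
theorem next_var_b (h : Bb d L μ Cs A g0 bq J lam E δ0 s0 ρ Λ δ T') (j : ℕ) (hj : j + 1 ≤ J)
    (hI : ∀ i ≤ j, ∫ V, XX lam (zb E ρ i) (0 : T d L) V ^ (3 * 2 ^ (g0 - bq * i))
      ∂(Measure.pi fun _ : T d L => μ) ≤ K0 g0 * A ^ (3 * 2 ^ (g0 - bq * i))) :
    VarAt d L μ lam (zb E ρ (j + 1)) (4 * lam ^ 2 * (Λ * A / ρ ^ 2) / ρ ^ J) T' := by
  intro u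
  set P : Measure (T d L → ℝ) := Measure.pi fun _ : T d L => μ with hP
  have hρ := h.r0
  have hΛ := h.L1
  have hΛ0 : 0 < Λ := by linarith
  have hA0 : 0 < A := by linarith [h.A1]
  have hK := K0_ge g0
  have hz' := zb_pos E hρ (j + 1)
  have hL := L_pos (L := L)
  set z := zb E ρ (j + 1) with hz
  set η := ρ ^ J with hη
  have hη0 : 0 < η := by positivity
  have hηz : η ≤ z.im := eta_le_b h (j + 1) hj
  set O := Ob (d := d) (L := L) lam E ρ (Λ * A) j with hO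
  have hOm : MeasurableSet O := Ob_meas lam E hρ _ j
  have hbj : bq * j + bq ≤ bq * J := by
    have := Nat.mul_le_mul_left bq hj
    rwa [Nat.mul_add, Nat.mul_one] at this
  have hJ0 := h.hJ
  have hbg : 2 ^ bq ≤ 2 ^ (g0 - bq * j) := Nat.pow_le_pow_right (by norm_num) (by omega)
  have hOp : P.real Oᶜ ≤ δ := by
    refine (Ob_prob (J := J) μ h.supp hρ hA0 hΛ j (by omega) hI).trans (le_trans ?_ h.hδ)
    have h3 : 0 < (J + 1) * (L : ℝ) ^ d * K0 g0 := by positivity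
    have h4 : Λ ^ (3 * 2 ^ bq) ≤ Λ ^ (3 * 2 ^ (g0 - bq * j)) := pow_le_pow_right₀ hΛ (by omega)
    gcongr
  set n : ℕ := 3 * 2 ^ (g0 - bq * j) with hn
  obtain ⟨p, hp⟩ : ∃ p : ℕ, n = p + 1 := ⟨n - 1, by
    have : 0 < n := by positivity
    omega⟩
  have hmom := next_mom_b h j n (K0 g0) (hI j le_rfl)
  set B := Λ * A / ρ ^ 2 with hB
  have hB0 : 0 < B := by positivity
  have key := var_u μ lam h.lam0 hz' O hOm (fun V hV => om_next_b h j hj V hV) u B hB0 p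
  rw [← hp, ← hP] at key
  refine key.trans ?_
  have hW : 1 / B ^ p * ∫ V, XX lam z 0 V ^ n ∂P ≤ B * K0 g0 / Λ ^ (3 * 2 ^ bq) := by
    have h1 : 1 / B ^ p * ∫ V, XX lam z 0 V ^ n ∂P ≤
        1 / B ^ p * ((1 / ρ) ^ n * (K0 g0 * A ^ n)) := by gcongr
    refine h1.trans ?_
    have h2 : 1 / B ^ p * ((1 / ρ) ^ n * (K0 g0 * A ^ n)) = B * K0 g0 * (ρ / Λ) ^ n := by
      have e1 : 1 / B ^ p = B * (1 / B ^ n) := by
        rw [hp, pow_succ]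
        field_simp
      rw [e1, hB, div_pow, div_pow, mul_pow, div_pow, one_pow]
      field_simp
      ring
    rw [h2]
    have h3 : (ρ / Λ) ^ n ≤ 1 / Λ ^ (3 * 2 ^ bq) := by
      rw [div_pow]
      have h5 : Λ ^ (3 * 2 ^ bq) ≤ Λ ^ n := pow_le_pow_right₀ hΛ (by omega)
      have h6 : ρ ^ n ≤ 1 := pow_le_one₀ hρ.le h.r1
      calc ρ ^ n / Λ ^ n ≤ 1 / Λ ^ n := by gcongr
        _ ≤ _ := by gcongr
    calc B * K0 g0 * (ρ / Λ) ^ n ≤ B * K0 g0 * (1 / Λ ^ (3 * 2 ^ bq)) := by gcongr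
      _ = _ := by ring
  set W := B * K0 g0 / Λ ^ (3 * 2 ^ bq) with hWd
  have hW0 : 0 ≤ W := by positivity
  set X := ∫ V, ‖GT lam V z u‖ ^ 2 ∂P with hX
  have hX0 : 0 ≤ X := integral_nonneg fun V => by positivity
  have hpO : 0 ≤ P.real Oᶜ := measureReal_nonneg
  have hHT := h.HT
  rw [← hη, ← hB, ← hWd] at hHT
  have a1 : 4 * lam ^ 2 / z.im * (B * X + (L : ℝ) ^ d * (‖u‖ / z.im) ^ 2 *
      (1 / B ^ p * ∫ V, XX lam z 0 V ^ n ∂P)) ≤
      4 * lam ^ 2 / η * (B * X + (L : ℝ) ^ d * (‖u‖ / η) ^ 2 * W) := by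
    have h0 : 0 ≤ 1 / B ^ p * ∫ V, XX lam z 0 V ^ n ∂P := by
      have : 0 ≤ ∫ V, XX lam z 0 V ^ n ∂P :=
        integral_nonneg fun V => pow_nonneg (XX_nonneg lam hz' 0 V) _
      positivity
    gcongr
  have a2 : (L : ℝ) ^ d * (2 * (‖u‖ / z.im)) ^ 2 * P.real Oᶜ ≤
      (L : ℝ) ^ d * (2 * (‖u‖ / η)) ^ 2 * δ := by
    gcongr
  calc _ ≤ 4 * lam ^ 2 / η * (B * X + (L : ℝ) ^ d * (‖u‖ / η) ^ 2 * W) +
        (L : ℝ) ^ d * (2 * (‖u‖ / η)) ^ 2 * δ := add_le_add a1 a2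
    _ = 4 * lam ^ 2 * B / η * X + (4 * lam ^ 2 / η * ((L : ℝ) ^ d / η ^ 2 * W) +
        4 * (L : ℝ) ^ d / η ^ 2 * δ) * ‖u‖ ^ 2 := by
        field_simp
        ring
    _ ≤ _ := by gcongr

/-- the assumptions for the mean at the next scale -/
theorem next_cb (h : Bb d L μ Cs A g0 bq J lam E δ0 s0 ρ Λ δ T') (j : ℕ)
    (hj : j ≤ J) (hvar : VarAt d L μ lam (zb E ρ j) (4 * lam ^ 2 * (Λ * A / ρ ^ 2) / ρ ^ J) T') :
    Cb μ d L lam (zb E ρ j) (ρ ^ j) (4 * lam ^ 2 * (Λ * A / ρ ^ 2) / ρ ^ J + DB d * T') := by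
  set P : Measure (T d L → ℝ) := Measure.pi fun _ : T d L => μ with hP
  have hρ := h.r0
  have hA0 : 0 < A := by linarith [h.A1]
  have hΛ := h.L1
  have hK := K0_ge g0
  have hz' := zb_pos E hρ j
  have hL3 : 0 < (L : ℝ) ^ d := L_pos'
  set z := zb E ρ j with hz
  have hη0 : 0 < ρ ^ J := by positivity
  have hGP : 1 / 2 ≤ P.real (G1 d L) := by
    have h1 : P.real (G1 d L)ᶜ = 1 - P.real (G1 d L) := probReal_compl_eq_one_sub G1_meas
    rw [G1_prob μ h.supp] at h1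
    linarith
  set s := 4 * lam ^ 2 * (Λ * A / ρ ^ 2) / ρ ^ J with hs
  have hs0 : 0 ≤ s := by positivity
  have hδ0 : 0 ≤ δ := by
    refine le_trans ?_ h.hδ
    positivity
  have hT0 : 0 ≤ T' := by
    refine le_trans ?_ h.HT
    positivity
  have hDD : 0 < DB d := by unfold DB; positivity
  have hDl : ∀ k : T d L, 1 / DB d ≤ Dk μ lam z k := by
    intro k
    have hd0 : (0 : ℝ) ≤ d := Nat.cast_nonneg d
    have hzn : ‖z‖ ≤ 4 * d + 5 := by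
      have h1 := Complex.norm_le_abs_re_add_abs_im z
      rw [hz, zb_re, zb_im, ← hz] at h1
      have h3 : ρ ^ j ≤ 1 := pow_le_one₀ hρ.le h.r1
      rw [abs_of_pos (by positivity : (0 : ℝ) < ρ ^ j)] at h1
      linarith [h.Eb]
    have h1 := Dk_lower μ lam h.lam0 h.lam1 hz'.ne' k (G1 d L) G1_meas (fun V hV x => hV x) hGP
      (8 * d + 6) (by linarith)
    exact h1
  have hs8 : 8 * (s + DB d * T') ≤ s0 := h.H2
  refine
    { supp := h.supp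
      lam0 := h.lam0
      y0 := by positivity
      im := by rw [zb_im, abs_of_pos (by positivity)]
      s0 := by positivity
      s1 := by linarith [h.ss1]
      hs := ?_
      pos := fun k => lt_of_lt_of_le (by positivity) (hDl k) }
  intro k
  have h1 := hvar (pw k)
  rw [mean_pw μ lam hz'.ne', sk_eq μ lam hz'.ne', D_eq μ lam hz'.ne', pw_norm] at h1
  have h2 : (L : ℝ) ^ d * sk μ lam z k ≤ (L : ℝ) ^ d * (s * Dk μ lam z k + T') := by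
    refine h1.trans (le_of_eq (by ring))
  have h3 := le_of_mul_le_mul_left h2 hL3
  have h4 := hDl k
  have h5 : T' ≤ DB d * T' * Dk μ lam z k := by
    calc T' = DB d * T' * (1 / DB d) := by field_simp
      _ ≤ _ := by gcongr
  calc sk μ lam z k ≤ s * Dk μ lam z k + T' := h3
    _ ≤ s * Dk μ lam z k + DB d * T' * Dk μ lam z k := by gcongr
    _ = _ := by ring

/-- the induction step for the moments -/
theorem next_I_b (h : Bb d L μ Cs A g0 bq J lam E δ0 s0 ρ Λ δ T')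
    (hCs : 1 ≤ Cs) (hRC : RCb d Cs g0) (j : ℕ) (hj : j + 1 ≤ J)
    (hI : ∀ i ≤ j, ∫ V, XX lam (zb E ρ i) (0 : T d L) V ^ (3 * 2 ^ (g0 - bq * i))
      ∂(Measure.pi fun _ : T d L => μ) ≤ K0 g0 * A ^ (3 * 2 ^ (g0 - bq * i))) :
    ∫ V, XX lam (zb E ρ (j + 1)) (0 : T d L) V ^ (3 * 2 ^ (g0 - bq * (j + 1)))
      ∂(Measure.pi fun _ : T d L => μ) ≤ K0 g0 * A ^ (3 * 2 ^ (g0 - bq * (j + 1))) := by
  set P : Measure (T d L → ℝ) := Measure.pi fun _ : T d L => μ with hP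
  have hρ := h.r0
  have hΛ := h.L1
  have hA1 := h.A1
  have hA0 : 0 < A := by linarith
  have hK := K0_ge g0
  have hz' := zb_pos E hρ (j + 1)
  have hL := L_pos (L := L)
  have hL1 : (1 : ℝ) ≤ L := L_one
  have hvar := next_var_b h j hj hI
  have hcx := next_cb h (j + 1) hj hvar
  -- the mean
  have hmean : ∫ V, XX lam (zb E ρ (j + 1)) (0 : T d L) V ∂P ≤ A := by
    refine (mean_XX_b hcx h.d1 E δ0 s0 (zb_re _ _ _) h.nr h.dd0 h.ll h.ss2 h.ss0 h.ss1 h.H2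
      (pow_le_one₀ hρ.le h.r1) ?_).trans h.hA
    refine h.yL.trans ?_
    have := eta_le_b h (j + 1) hj
    rw [zb_im] at this
    gcongr
  -- the centred moment
  set z := zb E ρ (j + 1) with hz
  set η := ρ ^ J with hη
  have hη0 : 0 < η := by positivity
  have hηz : η ≤ z.im := eta_le_b h (j + 1) hj
  set O := Ob (d := d) (L := L) lam E ρ (Λ * A) j with hO
  have hOm : MeasurableSet O := Ob_meas lam E hρ _ j
  have hbj : bq * j + bq ≤ bq * J := by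
    have := Nat.mul_le_mul_left bq hj
    rwa [Nat.mul_add, Nat.mul_one] at this
  have hbj1 : bq * (j + 1) = bq * j + bq := by ring
  have hJ0 := h.hJ
  have hb1 := h.hb
  have hOp := Ob_prob (J := J) μ h.supp hρ hA0 hΛ j (by omega) hI
  rw [← hP, ← hO] at hOp
  have hpO : 0 ≤ P.real Oᶜ := measureReal_nonneg
  obtain ⟨g', hg'⟩ : ∃ g', g' = g0 - bq * (j + 1) := ⟨_, rfl⟩
  obtain ⟨g, hg⟩ : ∃ g, g = g' + 1 := ⟨_, rfl⟩
  have hg0 : g ≤ g0 := by omega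
  have hgj : g ≤ g0 - bq * j := by omega
  have hgb : 2 ^ (g0 - bq * j) = 2 ^ g * 2 ^ (bq - 1) := by
    rw [← pow_add]
    congr 1
    omega
  have hrec := hRC g hg0 L μ lam h.lam0 z hz' O hOm (fun V hV => om_next_b h j hj V hV)
  rw [← hP] at hrec
  have hXm0 : Measurable (XX lam (zb E ρ j) (0 : T d L)) :=
    (XX_cont lam (zb_pos E hρ j).ne' 0).measurable
  have hlow := interp P (XX lam (zb E ρ j) 0)
    (fun V => XX_nonneg lam (zb_pos E hρ j) 0 V) hXm0 (1 / (zb E ρ j).im)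
    (fun V => XX_le lam (zb_pos E hρ j) 0 V) A (K0 g0) hA0 (3 * 2 ^ g) _
    (Nat.mul_le_mul_left 3 (Nat.pow_le_pow_right (by norm_num) hgj)) (hI j le_rfl)
  have hmom := next_mom_b h j (3 * 2 ^ g) (2 * K0 g0) (hlow.trans (by
    have : 0 ≤ A ^ (3 * 2 ^ g) := by positivity
    nlinarith))
  rw [← hP, ← hz] at hmom
  have hcent : ∫ V, (XX lam z 0 V - ∫ U, XX lam z 0 U ∂P) ^ (2 * 2 ^ g) ∂P ≤
      A ^ (2 * 2 ^ g) := by
    refine hrec.trans ?_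
    set m : ℕ := 2 ^ g with hm
    have hm1 : 1 ≤ m := Nat.one_le_two_pow
    have b1 : (lam ^ 2 / z.im) ^ m * ∫ V, XX lam z 0 V ^ (3 * m) ∂P ≤
        (2 * K0 g0) * A ^ (2 * m) * (lam ^ 2 * A / (ρ ^ 3 * η)) := by
      have hlam := h.lam0
      have c1 : lam ^ 2 * A / (ρ ^ 3 * η) ≤ 1 := by
        have h3 := h.H3
        rw [← hη] at h3
        have h4 : 0 ≤ lam ^ 2 * A / (ρ ^ 3 * η) := by positivity
        have h5 : 1 ≤ Cs * (2 * K0 g0) := by nlinarith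
        nlinarith
      have c0' : 0 ≤ lam ^ 2 * A / (ρ ^ 3 * η) := by positivity
      calc (lam ^ 2 / z.im) ^ m * ∫ V, XX lam z 0 V ^ (3 * m) ∂P ≤
          (lam ^ 2 / η) ^ m * ((1 / ρ) ^ (3 * m) * ((2 * K0 g0) * A ^ (3 * m))) := by
            have : 0 ≤ ∫ V, XX lam z 0 V ^ (3 * m) ∂P :=
              integral_nonneg fun V => pow_nonneg (XX_nonneg lam hz' 0 V) _
            gcongr
        _ = (2 * K0 g0) * A ^ (2 * m) * (lam ^ 2 * A / (ρ ^ 3 * η)) ^ m := by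
            rw [show 3 * m = 2 * m + m by ring, pow_add A, div_pow, div_pow, one_pow,
              div_pow, mul_pow, mul_pow (ρ ^ 3), ← pow_mul ρ 3, show 2 * m + m = 3 * m by ring]
            field_simp
        _ ≤ (2 * K0 g0) * A ^ (2 * m) * (lam ^ 2 * A / (ρ ^ 3 * η)) := by
            gcongr
            calc (lam ^ 2 * A / (ρ ^ 3 * η)) ^ m ≤ (lam ^ 2 * A / (ρ ^ 3 * η)) ^ 1 :=
                  pow_le_pow_of_le_one c0' c1 hm1
              _ = _ := pow_one _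
    have hx0 : 0 ≤ (L : ℝ) ^ d / η ^ 2 := by positivity
    have b2 : ((L : ℝ) ^ d * (1 / z.im) ^ 2) ^ m * P.real Oᶜ ≤
        A ^ (2 * m) * ((J + 1) * (L : ℝ) ^ d * K0 g0 / Λ ^ (2 ^ (bq - 1))) := by
      have c1 : (L : ℝ) ^ d * (1 / z.im) ^ 2 ≤ (L : ℝ) ^ d / η ^ 2 := by
        rw [one_div, inv_pow, ← div_eq_mul_inv]
        gcongr
      have c3 : ((L : ℝ) ^ d * (1 / z.im) ^ 2) ^ m ≤ ((L : ℝ) ^ d / η ^ 2) ^ m :=
        pow_le_pow_left₀ (by positivity) c1 m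
      have c5 : ((L : ℝ) ^ d / η ^ 2) ^ m ≤ A ^ (2 * m) * Λ ^ (2 ^ bq * m) := by
        have h4 := h.H4b
        rw [← hη] at h4
        have h5 := pow_le_pow_left₀ hx0 h4 m
        have e6 : (A ^ 2 * Λ ^ 2 ^ bq) ^ m = A ^ (2 * m) * Λ ^ (2 ^ bq * m) := by
          rw [mul_pow, ← pow_mul, ← pow_mul]
        exact h5.trans (le_of_eq e6)
      have e5 : Λ ^ (3 * 2 ^ (g0 - bq * j)) = Λ ^ (2 ^ bq * m) * Λ ^ (2 ^ (bq - 1) * m) := by
        rw [← pow_add, hgb]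
        congr 1
        have : 2 ^ bq = 2 * 2 ^ (bq - 1) := by
          rw [← pow_succ']
          congr 1
          omega
        rw [this]
        ring
      have c6 : Λ ^ (2 ^ (bq - 1)) ≤ Λ ^ (2 ^ (bq - 1) * m) :=
        pow_le_pow_right₀ hΛ (Nat.le_mul_of_pos_right _ (by omega))
      have hJL : 0 ≤ (J + 1) * (L : ℝ) ^ d * K0 g0 := by positivity
      have c7 : ((L : ℝ) ^ d / η ^ 2) ^ m *
          ((J + 1) * (L : ℝ) ^ d * K0 g0 / Λ ^ (3 * 2 ^ (g0 - bq * j))) ≤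
          A ^ (2 * m) * ((J + 1) * (L : ℝ) ^ d * K0 g0 / Λ ^ (2 ^ (bq - 1))) := by
        rw [e5]
        calc ((L : ℝ) ^ d / η ^ 2) ^ m * ((J + 1) * (L : ℝ) ^ d * K0 g0 /
              (Λ ^ (2 ^ bq * m) * Λ ^ (2 ^ (bq - 1) * m))) ≤
            (A ^ (2 * m) * Λ ^ (2 ^ bq * m)) * ((J + 1) * (L : ℝ) ^ d * K0 g0 /
              (Λ ^ (2 ^ bq * m) * Λ ^ (2 ^ (bq - 1) * m))) := by gcongr
          _ = A ^ (2 * m) * ((J + 1) * (L : ℝ) ^ d * K0 g0 / Λ ^ (2 ^ (bq - 1) * m)) := by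
              field_simp
          _ ≤ _ := by gcongr
      calc ((L : ℝ) ^ d * (1 / z.im) ^ 2) ^ m * P.real Oᶜ ≤
          ((L : ℝ) ^ d / η ^ 2) ^ m *
            ((J + 1) * (L : ℝ) ^ d * K0 g0 / Λ ^ (3 * 2 ^ (g0 - bq * j))) := by gcongr
        _ ≤ _ := c7
    have h3 := h.H3
    have h4c := h.H4c
    rw [← hη] at h3
    have hAp : 0 < A ^ (2 * m) := by positivity
    have hΛp : 0 < Λ ^ (2 ^ (bq - 1)) := by positivity
    have h6 : Cs * ((J + 1) * (L : ℝ) ^ d * K0 g0 / Λ ^ (2 ^ (bq - 1))) ≤ 1 / 4 := by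
      rw [← mul_div_assoc, div_le_iff₀ hΛp]
      exact h4c
    calc Cs * ((lam ^ 2 / z.im) ^ m * ∫ V, XX lam z 0 V ^ (3 * m) ∂P +
          ((L : ℝ) ^ d * (1 / z.im) ^ 2) ^ m * P.real Oᶜ) ≤
        Cs * ((2 * K0 g0) * A ^ (2 * m) * (lam ^ 2 * A / (ρ ^ 3 * η)) +
          A ^ (2 * m) * ((J + 1) * (L : ℝ) ^ d * K0 g0 / Λ ^ (2 ^ (bq - 1)))) := by gcongr
      _ = A ^ (2 * m) * (Cs * (2 * K0 g0) * (lam ^ 2 * A / (ρ ^ 3 * η))) +
          A ^ (2 * m) * (Cs * ((J + 1) * (L : ℝ) ^ d * K0 g0 / Λ ^ (2 ^ (bq - 1)))) := by ring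
      _ ≤ A ^ (2 * m) * (1 / 2) + A ^ (2 * m) * (1 / 4) := by gcongr
      _ ≤ _ := by linarith
  have hX0 : ∀ V : T d L → ℝ, 0 ≤ XX lam z 0 V := fun V => XX_nonneg lam hz' 0 V
  have hXm : Measurable (XX lam z (0 : T d L)) := (XX_cont lam hz'.ne' 0).measurable
  have hXM : ∀ V : T d L → ℝ, XX lam z 0 V ≤ 1 / z.im := fun V => XX_le lam hz' 0 V
  have h6 := center P (XX lam z 0) hX0 hXm (1 / z.im) hXM A hA0 (2 ^ g) Nat.one_le_two_pow
    hmean hcent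
  have h7 := interp P (XX lam z 0) hX0 hXm (1 / z.im) hXM A (2 ^ (2 * 2 ^ g + 1)) hA0
    (3 * 2 ^ g') (2 * 2 ^ g) (by rw [hg, pow_succ]; omega) h6
  rw [← hg']
  refine h7.trans ?_
  have h8 : (2 : ℝ) ^ (2 * 2 ^ g + 1) + 1 ≤ K0 g0 := by
    unfold K0
    have h9 : 2 ^ g ≤ 2 ^ g0 := Nat.pow_le_pow_right (by norm_num) hg0
    have : (2 : ℝ) ^ (2 * 2 ^ g + 1) ≤ 2 ^ (2 * 2 ^ g0 + 1) := by
      apply pow_le_pow_right₀ (by norm_num)
      omega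
    linarith
  gcongr

/-- **the descent, with the event** -/
theorem descent_b (h : Bb d L μ Cs A g0 bq J lam E δ0 s0 ρ Λ δ T')
    (hCs : 1 ≤ Cs) (hRC : RCb d Cs g0) (hJ1 : 1 ≤ J) :
    VarAt d L μ lam (zb E ρ J) (4 * lam ^ 2 * (Λ * A / ρ ^ 2) / ρ ^ J) T' ∧
    ∃ O : Set (T d L → ℝ), MeasurableSet O ∧ (Measure.pi fun _ : T d L => μ).real Oᶜ ≤ δ ∧
      ∀ V ∈ O, (∀ x, |V x| ≤ 1) ∧ (∀ y, lam * ‖GG lam (zb E ρ J) y y V‖ ≤ 1 / 4) ∧
        ∀ y, XX lam (zb E ρ J) y V ≤ Λ * A / ρ := by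
  have hall : ∀ j ≤ J, ∀ i ≤ j, ∫ V, XX lam (zb E ρ i) (0 : T d L) V ^ (3 * 2 ^ (g0 - bq * i))
      ∂(Measure.pi fun _ : T d L => μ) ≤ K0 g0 * A ^ (3 * 2 ^ (g0 - bq * i)) := by
    intro j
    induction j with
    | zero =>
      intro _ i hi
      have hi0 : i = 0 := by omega
      subst hi0
      rw [Nat.mul_zero, Nat.sub_zero]
      exact base_b h
    | succ j ih =>
      intro hj i hi
      rcases Nat.lt_or_ge i (j + 1) with hlt | hge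
      · exact ih (by omega) i (by omega)
      · have hi' : i = j + 1 := le_antisymm hi hge
        subst hi'
        exact next_I_b h hCs hRC j hj (ih (by omega))
  obtain ⟨j, hj⟩ : ∃ j, J = j + 1 := ⟨J - 1, by omega⟩
  have hI := hall j (by omega)
  have h1 := next_var_b h j (by omega) hI
  rw [← hj] at h1
  refine ⟨h1, Ob lam E ρ (Λ * A) j, Ob_meas lam E h.r0 _ j, ?_, ?_⟩
  · have hρ := h.r0
    have hΛ := h.L1
    have hΛ0 : 0 < Λ := by linarith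
    have hA0 : 0 < A := by linarith [h.A1]
    have hK := K0_ge g0
    have hL := L_pos (L := L)
    have hbj : bq * j + bq ≤ bq * J := by
      have := Nat.mul_le_mul_left bq (show j + 1 ≤ J by omega)
      rwa [Nat.mul_add, Nat.mul_one] at this
    have hJ0 := h.hJ
    have hbg : 2 ^ bq ≤ 2 ^ (g0 - bq * j) := Nat.pow_le_pow_right (by norm_num) (by omega)
    refine (Ob_prob (J := J) μ h.supp hρ hA0 hΛ j (by omega) hI).trans (le_trans ?_ h.hδ)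
    have h3 : 0 < (J + 1) * (L : ℝ) ^ d * K0 g0 := by positivity
    have h4 : Λ ^ (3 * 2 ^ bq) ≤ Λ ^ (3 * 2 ^ (g0 - bq * j)) := pow_le_pow_right₀ hΛ (by omega)
    gcongr
  · intro V hV
    obtain ⟨a1, a2, a3⟩ := om2_b h j (by omega) V hV
    rw [← hj] at a2 a3
    exact ⟨a1, fun y => a2 y y, a3⟩

end

end Pool.Agent.V8H95.BK
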