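import Pool.Agent.V8H95.BK.Sh

/-!
Momenta near the energy shell inside the spectrum, the mean local density of states.
-/

set_option autoImplicit false
set_option linter.unusedSectionVars false
set_option linter.unusedVariables false

open Complex MeasureTheory
open scoped BigOperators ComplexConjugate

namespace Pool.Agent.V8H95.BK

open Pool.Agent.H4R2.AE Pool.Agent.V8H99.AD Pool.Agent.V8H95.MF Pool.Agent.V8H95.BW
open Pool.Agent.V8H95.EF Pool.Agent.V8H95.NM

/-- the distance of `E` to the critical energies is at least `δ` -/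
def NR (d : ℕ) (E δ : ℝ) : Prop := ∀ j : ℕ, j ≤ d → δ ≤ |E - 4 * j|

/-- a point of the circle with small imaginary part -/
theorem near_crit (a b s : ℝ) (h1 : a ^ 2 + b ^ 2 = 1) (hs : |b| < s) :
    ∃ c : ℕ, c ≤ 1 ∧ |(2 - 2 * a) - 4 * c| ≤ 2 * s ^ 2 := by
  have hb : b ^ 2 < s ^ 2 := by
    rw [← sq_abs]
    have := abs_nonneg b
    nlinarith
  rcases le_total 0 a with ha | ha
  · refine ⟨0, by norm_num, ?_⟩
    have ha1 : a ≤ 1 := by nlinarith [sq_nonneg b]
    rw [abs_le]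
    push_cast
    constructor <;> nlinarith
  · refine ⟨1, le_rfl, ?_⟩
    have ha1 : -1 ≤ a := by nlinarith [sq_nonneg b]
    rw [abs_le]
    push_cast
    constructor <;> nlinarith

variable {d L : ℕ} [NeZero L]

section
variable {μ : Measure ℝ} [IsProbabilityMeasure μ] {lam : ℝ} {z : ℂ} {y σ : ℝ}

/-- momenta near the shell are away from the critical points -/
theorem shell_b (h : Cb μ d L lam z y σ) (E δ x s : ℝ) (hre : z.re = E) (hE : NR d E δ)
    (hδ : 0 < δ) (hx : x + 3 / 2 * lam ≤ δ / 4) (hs2 : 4 * d * s ^ 2 ≤ δ) (k : T d L)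
    (hF : ‖Fk μ lam z k‖ ≤ x) : ∃ i, s ≤ |(ch k (Pi.single i 1)).im| := by
  by_contra hcon
  push Not at hcon
  have h1 : ∀ i : Fin d, ∃ c : ℕ, c ≤ 1 ∧ |k1q k i - 4 * c| ≤ 2 * s ^ 2 := by
    intro i
    obtain ⟨u1, u2⟩ := ch_re_im k i
    rw [u2]
    exact near_crit _ _ s u1 (hcon i)
  choose c hc1 hc2 using h1
  have hj : ∑ i, c i ≤ d := by
    calc ∑ i, c i ≤ ∑ _i : Fin d, 1 := Finset.sum_le_sum fun i _ => hc1 i
      _ = d := by simp
  have h2 := hE _ hj
  have h3 : |kq k - 4 * ((∑ i, c i : ℕ) : ℝ)| ≤ 2 * d * s ^ 2 := by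
    have e : kq k - 4 * ((∑ i, c i : ℕ) : ℝ) = ∑ i, (k1q k i - 4 * (c i : ℝ)) := by
      unfold kq
      push_cast
      rw [Finset.sum_sub_distrib, ← Finset.mul_sum]
    rw [e]
    refine (Finset.abs_sum_le_sum_abs _ _).trans ?_
    calc ∑ i, |k1q k i - 4 * (c i : ℝ)| ≤ ∑ _i : Fin d, 2 * s ^ 2 :=
          Finset.sum_le_sum fun i _ => hc2 i
      _ = _ := by
          rw [Finset.sum_const, Finset.card_univ, Fintype.card_fin, nsmul_eq_mul]
          ring
  have h4 : |E - kq k| ≤ x + 3 / 2 * lam := by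
    have h5 : (z - ((kq k : ℝ) : ℂ)).re = E - kq k := by
      rw [Complex.sub_re, Complex.ofReal_re, hre]
    rw [← h5]
    refine (Complex.abs_re_le_norm _).trans ?_
    have e : z - ((kq k : ℝ) : ℂ) = Fk μ lam z k - (Fk μ lam z k - (z - ((kq k : ℝ) : ℂ))) := by
      ring
    rw [e]
    exact (norm_sub_le _ _).trans (add_le_add hF (F_close_b h k))
  have h5 : |E - 4 * ((∑ i, c i : ℕ) : ℝ)| ≤ |E - kq k| + |kq k - 4 * ((∑ i, c i : ℕ) : ℝ)| :=
    abs_sub_le _ _ _
  linarith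

/-- two momenta on a line -/
theorem line_b (h : Cb μ d L lam z y σ) (x : ℝ) (k : T d L) (i : Fin d) (n : ZMod L) (sg : ℝ)
    (hsg : sg ^ 2 = 1) (s : ℝ) (hs : 0 < s) (hs1 : s ≤ 1) (hσ : 8 * σ ≤ s)
    (hk : ‖Fk μ lam z k‖ ≤ x) (hp : ‖Fk μ lam z (k + Pi.single i n)‖ ≤ x)
    (hks : s ≤ sg * (ch k (Pi.single i 1)).im)
    (hps : s ≤ sg * (ch (k + Pi.single i n) (Pi.single i 1)).im) :
    s * ‖ch (Pi.single i n : T d L) (Pi.single i 1) - 1‖ ≤ 4 * x := by
  set p : T d L := k + Pi.single i n with hpd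
  have key := dif_b h k i n
  rw [← hpd] at key
  set c := ‖ch (Pi.single i n : T d L) (Pi.single i 1) - 1‖ with hc
  have hc0 : 0 ≤ c := norm_nonneg _
  set Q := kq p - kq k with hQ
  -- lower bound of Q
  have hQc : s * c ≤ |Q| := by
    obtain ⟨u1, u2⟩ := ch_re_im k i
    obtain ⟨v1, v2⟩ := ch_re_im p i
    set a1 := (ch k (Pi.single i 1)).re with ha1
    set b1 := (ch k (Pi.single i 1)).im with hb1
    set a2 := (ch p (Pi.single i 1)).re with ha2
    set b2 := (ch p (Pi.single i 1)).im with hb2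
    have h1 := circ a1 (sg * b1) a2 (sg * b2) s (by rw [mul_pow, hsg, one_mul]; exact u1)
      (by rw [mul_pow, hsg, one_mul]; exact v1) hs hs1 hks hps
    have h2 : (sg * b1 - sg * b2) ^ 2 = (b1 - b2) ^ 2 := by
      rw [← mul_sub, mul_pow, hsg, one_mul]
    rw [h2] at h1
    have h3 : c ^ 2 = (a1 - a2) ^ 2 + (b1 - b2) ^ 2 := by
      have e1 : ch k (Pi.single i 1) * (ch (Pi.single i n : T d L) (Pi.single i 1) - 1) =
          ch p (Pi.single i 1) - ch k (Pi.single i 1) := by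
        rw [hpd, ch_addl]
        ring
      have e2 : c = ‖ch p (Pi.single i 1) - ch k (Pi.single i 1)‖ := by
        rw [← e1, norm_mul, ch_norm, one_mul]
      rw [e2, Complex.sq_norm, Complex.normSq_apply, Complex.sub_re, Complex.sub_im, ← ha1,
        ← ha2, ← hb1, ← hb2]
      ring
    have h4 : Q = 2 * a1 - 2 * a2 := by
      have h5 : Q = k1q p i - k1q k i := by
        rw [hQ]
        unfold kq
        rw [← Finset.sum_sub_distrib]
        refine Finset.sum_eq_single_of_mem i (Finset.mem_univ i) fun j _ hj => ?_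
        unfold k1q
        rw [hpd, ch_addl, ch_ne i j hj n, mul_one, sub_self]
      rw [h5, u2, v2]
      ring
    rw [← h3, ← h4, ← mul_pow] at h1
    have := sq_le_sq.1 h1
    rwa [abs_of_nonneg (by positivity : 0 ≤ s * c)] at this
  have h3 : |Q| ≤ ‖Fk μ lam z p - Fk μ lam z k + ((Q : ℝ) : ℂ)‖ +
      ‖Fk μ lam z p - Fk μ lam z k‖ := by
    have e1 : ((Q : ℝ) : ℂ) = (Fk μ lam z p - Fk μ lam z k + ((Q : ℝ) : ℂ)) -
        (Fk μ lam z p - Fk μ lam z k) := by ring
    have e2 : |Q| = ‖((Q : ℝ) : ℂ)‖ := by rw [Complex.norm_real, Real.norm_eq_abs]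
    rw [e2]
    nth_rewrite 1 [e1]
    exact norm_sub_le _ _
  have h4 : ‖Fk μ lam z p - Fk μ lam z k‖ ≤ 2 * x := by
    refine (norm_sub_le _ _).trans ?_
    linarith
  have h5 : 4 * σ * c ≤ s * c / 2 := by nlinarith
  linarith

/-- one direction, one sign -/
theorem cnt_line_b (h : Cb μ d L lam z y σ) (x : ℝ) (hx0 : 0 ≤ x) (i : Fin d)
    (sg : ℝ) (hsg : sg ^ 2 = 1) (s : ℝ) (hs : 0 < s) (hs1 : s ≤ 1) (hσ : 8 * σ ≤ s) :
    (((Finset.univ : Finset (T d L)).filter fun k => ‖Fk μ lam z k‖ ≤ x ∧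
      s ≤ sg * (ch k (Pi.single i 1)).im).card : ℝ) ≤
      (2 * (x * L / s) + 1) * (L : ℝ) ^ (d - 1) := by
  classical
  have hL := L_pos (L := L)
  set ρ1 : ℕ := ⌊x * L / s⌋₊ with hρ1
  set S := (Finset.univ : Finset (T d L)).filter fun k => ‖Fk μ lam z k‖ ≤ x ∧
      s ≤ sg * (ch k (Pi.single i 1)).im with hS
  set A := (Finset.univ : Finset (ZMod L)) with hA
  have hAc : A.card = L := by rw [hA, Finset.card_univ, ZMod.card]
  set f : T d L → T d L := fun k => Function.update k i 0 with hf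
  have hfib : ∀ a ∈ S.image f, (S.filter fun k => f k = a).card ≤ 2 * ρ1 + 1 := by
    intro a ha
    obtain ⟨k0, hk0, rfl⟩ := Finset.mem_image.1 ha
    rw [hS, Finset.mem_filter] at hk0
    have h1 : ∀ k ∈ S.filter (fun k => f k = f k0), k i - k0 i ∈
        (Finset.univ : Finset (ZMod L)).filter fun a => na a ≤ ρ1 := by
      intro k hk
      rw [Finset.mem_filter, hS, Finset.mem_filter] at hk
      rw [Finset.mem_filter]
      refine ⟨Finset.mem_univ _, ?_⟩
      have h2 : k = k0 + Pi.single i (k i - k0 i) := by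
        funext j
        by_cases hj : j = i
        · subst hj
          simp
        · have := congrFun hk.2 j
          simp only [hf, Function.update_of_ne hj] at this
          rw [Pi.add_apply, Pi.single_eq_of_ne hj, add_zero]
          exact this
      have h3 := line_b h x k0 i (k i - k0 i) sg hsg s hs hs1 hσ hk0.2.1
        (by rw [← h2]; exact hk.1.2.1) hk0.2.2 (by rw [← h2]; exact hk.1.2.2)
      have h4 : (na ((Pi.single i (k i - k0 i) : T d L) i) : ℝ) ≤ x * L / s := by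
        apply na_bound _ _ _ (by positivity)
        unfold k1q
        apply pow_le_pow_left₀ (norm_nonneg _)
        rw [← mul_div_assoc, div_div, le_div_iff₀ (by positivity)]
        nlinarith
      rw [Pi.single_eq_same] at h4
      exact Nat.le_floor h4
    have h5 := Finset.card_le_card_of_injOn (s := S.filter fun k => f k = f k0)
      (t := (Finset.univ : Finset (ZMod L)).filter fun a => na a ≤ ρ1) (fun k => k i - k0 i) h1
      (by
        intro k hk k' hk' hkk
        simp only [Finset.coe_filter, Set.mem_ofPred_eq] at hk hk'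
        funext j
        by_cases hj : j = i
        · subst hj
          simpa using hkk
        · have := congrFun (hk.2.trans hk'.2.symm) j
          simpa only [hf, Function.update_of_ne hj] using this)
    exact h5.trans (cnt1_le ρ1)
  have himg : S.image f ⊆ Fintype.piFinset (Function.update (fun _ : Fin d => A) i {0}) := by
    intro a ha
    obtain ⟨k, hk, rfl⟩ := Finset.mem_image.1 ha
    rw [Fintype.mem_piFinset]
    intro j
    by_cases hj : j = i
    · subst hj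
      simp [hf]
    · rw [Function.update_of_ne hj]
      exact Finset.mem_univ _
  have hcard : (S.image f).card ≤ L ^ (d - 1) := by
    refine (Finset.card_le_card himg).trans ?_
    rw [Fintype.card_piFinset]
    have e1 : ∀ j : Fin d, (Function.update (fun _ : Fin d => A) i {0} j).card =
        Function.update (fun _ : Fin d => A.card) i 1 j := by
      intro j
      by_cases hj : j = i
      · subst hj
        simp
      · rw [Function.update_of_ne hj, Function.update_of_ne hj]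
    rw [Finset.prod_congr rfl fun j _ => e1 j, Finset.prod_update_of_mem (Finset.mem_univ i),
      one_mul, Finset.prod_const]
    have e2 : (Finset.univ \ {i} : Finset (Fin d)).card = d - 1 := by
      rw [Finset.card_sdiff_of_subset (Finset.subset_univ _)]
      simp
    rw [e2, hAc]
  have h1 := Finset.card_le_mul_card_image S (2 * ρ1 + 1) hfib
  have h2 : (S.card : ℝ) ≤ (2 * ρ1 + 1) * (L : ℝ) ^ (d - 1) := by
    have h3 : S.card ≤ (2 * ρ1 + 1) * L ^ (d - 1) := h1.trans (by gcongr)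
    exact_mod_cast h3
  refine h2.trans ?_
  have h3 : (ρ1 : ℝ) ≤ x * L / s := Nat.floor_le (by positivity)
  have h6 : 2 * (ρ1 : ℝ) + 1 ≤ 2 * (x * L / s) + 1 := by linarith
  gcongr

/-- momenta near the energy shell -/
theorem cnt_shell_b (h : Cb μ d L lam z y σ) (hd : 1 ≤ d) (E δ x s : ℝ) (hre : z.re = E)
    (hE : NR d E δ) (hδ : 0 < δ) (hx : x + 3 / 2 * lam ≤ δ / 4) (hs2 : 4 * d * s ^ 2 ≤ δ)
    (hs : 0 < s) (hs1 : s ≤ 1) (hσ : 8 * σ ≤ s) (hxy : y ≤ x) (hyL : s ≤ y * L) :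
    (((Finset.univ : Finset (T d L)).filter fun k => ‖Fk μ lam z k‖ ≤ x).card : ℝ) ≤
      (6 * d / s * (L : ℝ) ^ d) * x := by
  classical
  have hL := L_pos (L := L)
  have hy := h.y0
  have hx0 : 0 ≤ x := hy.le.trans hxy
  have hsub : ((Finset.univ : Finset (T d L)).filter fun k => ‖Fk μ lam z k‖ ≤ x) ⊆
      (Finset.univ : Finset (Fin d)).biUnion fun i =>
        ((Finset.univ : Finset (T d L)).filter fun k => ‖Fk μ lam z k‖ ≤ x ∧
          s ≤ 1 * (ch k (Pi.single i 1)).im) ∪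
        ((Finset.univ : Finset (T d L)).filter fun k => ‖Fk μ lam z k‖ ≤ x ∧
          s ≤ (-1) * (ch k (Pi.single i 1)).im) := by
    intro k hk
    rw [Finset.mem_filter] at hk
    obtain ⟨i, hi⟩ := shell_b h E δ x s hre hE hδ hx hs2 k hk.2
    rw [Finset.mem_biUnion]
    refine ⟨i, Finset.mem_univ i, ?_⟩
    rw [Finset.mem_union, Finset.mem_filter, Finset.mem_filter]
    rcases le_abs.1 hi with h8 | h8
    · exact Or.inl ⟨Finset.mem_univ _, hk.2, by linarith⟩
    · exact Or.inr ⟨Finset.mem_univ _, hk.2, by linarith⟩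
  have hB : ∀ (i : Fin d) (sg : ℝ), sg ^ 2 = 1 →
      (((Finset.univ : Finset (T d L)).filter fun k => ‖Fk μ lam z k‖ ≤ x ∧
        s ≤ sg * (ch k (Pi.single i 1)).im).card : ℝ) ≤ 3 / s * (L : ℝ) ^ d * x := by
    intro i sg hsg
    refine (cnt_line_b h x hx0 i sg hsg s hs hs1 hσ).trans ?_
    have h2 : (1 : ℝ) ≤ x * L / s := by
      rw [le_div_iff₀ hs, one_mul]
      refine hyL.trans ?_
      gcongr
    obtain ⟨n, hn⟩ : ∃ n, d = n + 1 := ⟨d - 1, by omega⟩
    have hn1 : d - 1 = n := by omega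
    rw [hn1, hn, pow_succ]
    calc (2 * (x * L / s) + 1) * (L : ℝ) ^ n ≤ (3 * (x * L / s)) * (L : ℝ) ^ n := by
          gcongr
          linarith
      _ = _ := by ring
  have h1 : (((Finset.univ : Finset (T d L)).filter fun k => ‖Fk μ lam z k‖ ≤ x).card : ℝ) ≤
      ∑ i : Fin d, ((((Finset.univ : Finset (T d L)).filter fun k => ‖Fk μ lam z k‖ ≤ x ∧
          s ≤ 1 * (ch k (Pi.single i 1)).im).card : ℝ) +
        (((Finset.univ : Finset (T d L)).filter fun k => ‖Fk μ lam z k‖ ≤ x ∧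
          s ≤ (-1) * (ch k (Pi.single i 1)).im).card : ℝ)) := by
    have h2 := (Finset.card_le_card hsub).trans Finset.card_biUnion_le
    have h3 : (((Finset.univ : Finset (T d L)).filter fun k => ‖Fk μ lam z k‖ ≤ x).card : ℝ) ≤
      ∑ i : Fin d, ((((Finset.univ : Finset (T d L)).filter fun k => ‖Fk μ lam z k‖ ≤ x ∧
          s ≤ 1 * (ch k (Pi.single i 1)).im) ∪
        ((Finset.univ : Finset (T d L)).filter fun k => ‖Fk μ lam z k‖ ≤ x ∧
          s ≤ (-1) * (ch k (Pi.single i 1)).im)).card : ℝ) := by exact_mod_cast h2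
    refine h3.trans (Finset.sum_le_sum fun i _ => ?_)
    exact_mod_cast Finset.card_union_le _ _
  refine h1.trans ?_
  calc _ ≤ ∑ i : Fin d, (3 / s * (L : ℝ) ^ d * x + 3 / s * (L : ℝ) ^ d * x) :=
        Finset.sum_le_sum fun i _ => add_le_add (hB i 1 (by norm_num)) (hB i (-1) (by norm_num))
    _ = _ := by
        rw [Finset.sum_const, Finset.card_univ, Fintype.card_fin, nsmul_eq_mul]
        ring

/-- **the mean local density of states** -/
theorem mean_XX_b (h : Cb μ d L lam z y σ) (hd : 1 ≤ d) (E δ s : ℝ) (hre : z.re = E)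
    (hE : NR d E δ) (hδ : 0 < δ) (hl : 12 * lam ≤ δ) (hs2 : 4 * d * s ^ 2 ≤ δ)
    (hs : 0 < s) (hs1 : s ≤ 1) (hσ : 8 * σ ≤ s) (hy1 : y ≤ 1) (hyL : s ≤ y * L) :
    ∫ V, XX lam z (0 : T d L) V ∂(Measure.pi fun _ : T d L => μ) ≤
      48 * d / s + 128 / δ ^ 2 := by
  classical
  have hne := h.ne
  have hy := h.y0
  have hL := L_pos (L := L)
  have hL3 : 0 < (L : ℝ) ^ d := by positivity
  have cnt : ∀ x : ℝ, x ≤ δ / 8 → y ≤ x →
      (((Finset.univ : Finset (T d L)).filter fun k => ‖Fk μ lam z k‖ ≤ x).card : ℝ) ≤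
      (6 * d / s * (L : ℝ) ^ d) * x := by
    intro x hx hxy
    exact cnt_shell_b h hd E δ x s hre hE hδ (by linarith) hs2 hs hs1 hσ hxy hyL
  have hFl : ∀ k : T d L, y ≤ ‖Fk μ lam z k‖ := F_lower_b h
  -- near the shell
  set Ne := (Finset.univ : Finset (T d L)).filter fun k => ‖Fk μ lam z k‖ ≤ δ / 8 with hNe
  set Fa := (Finset.univ : Finset (T d L)).filter fun k => ¬ ‖Fk μ lam z k‖ ≤ δ / 8 with hFa
  have h1 : ∑ k ∈ Ne, (1 : ℝ) / ‖Fk μ lam z k‖ ^ (1 + 1) ≤
      2 ^ (1 + 1) * (6 * d / s * (L : ℝ) ^ d) / y := by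
    refine dyadic Ne (fun _ => (1 : ℝ)) (fun k => ‖Fk μ lam z k‖) (fun _ _ => zero_le_one) y
      (6 * d / s * (L : ℝ) ^ d) 1 hy (fun k _ => hFl k) fun x hx => ?_
    rw [pow_one]
    rcases le_or_gt x (δ / 8) with hc | hc
    · refine le_trans ?_ (cnt x hc hx)
      rw [← Finset.sum_filter, Finset.sum_const, nsmul_eq_mul, mul_one]
      have h9 : (Ne.filter fun k => ‖Fk μ lam z k‖ ≤ x) ⊆
          (Finset.univ : Finset (T d L)).filter fun k => ‖Fk μ lam z k‖ ≤ x := by
        intro k hk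
        rw [Finset.mem_filter] at hk ⊢
        exact ⟨Finset.mem_univ _, hk.2⟩
      exact_mod_cast Finset.card_le_card h9
    · rcases le_or_gt y (δ / 8) with hc2 | hc2
      · have h2 := cnt (δ / 8) le_rfl hc2
        have h3 : (∑ i ∈ Ne, if ‖Fk μ lam z i‖ ≤ x then (1 : ℝ) else 0) ≤ (Ne.card : ℝ) := by
          calc _ ≤ ∑ i ∈ Ne, (1 : ℝ) := Finset.sum_le_sum fun i _ => by split_ifs <;> norm_num
            _ = _ := by simp
        refine h3.trans (h2.trans ?_)
        gcongr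
      · have h3 : Ne = ∅ := by
          rw [hNe, Finset.filter_eq_empty_iff]
          intro k _ hk
          have := hFl k
          linarith
        rw [h3, Finset.sum_empty]
        have : 0 < x := lt_of_lt_of_le hy hx
        positivity
  -- away from the shell
  have h3 : ∑ k ∈ Fa, (1 : ℝ) / ‖Fk μ lam z k‖ ^ 2 ≤ 64 / δ ^ 2 * (L : ℝ) ^ d := by
    calc ∑ k ∈ Fa, (1 : ℝ) / ‖Fk μ lam z k‖ ^ 2 ≤ ∑ k ∈ Fa, 64 / δ ^ 2 := by
          refine Finset.sum_le_sum fun k hk => ?_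
          rw [hFa, Finset.mem_filter, not_le] at hk
          have h6 : (δ / 8) ^ 2 ≤ ‖Fk μ lam z k‖ ^ 2 :=
            pow_le_pow_left₀ (by positivity) hk.2.le 2
          calc 1 / ‖Fk μ lam z k‖ ^ 2 ≤ 1 / (δ / 8) ^ 2 :=
                one_div_le_one_div_of_le (by positivity) h6
            _ = _ := by field_simp; norm_num
      _ ≤ ∑ _k : T d L, 64 / δ ^ 2 :=
          Finset.sum_le_univ_sum_of_nonneg fun k => by positivity
      _ = _ := by
          rw [Finset.sum_const, Finset.card_univ, nsmul_eq_mul, card_TdL]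
          ring
  have h4 : ∑ k : T d L, (mk μ lam z k).im ≤
      2 * y * (∑ k ∈ Ne, (1 : ℝ) / ‖Fk μ lam z k‖ ^ (1 + 1) +
        ∑ k ∈ Fa, (1 : ℝ) / ‖Fk μ lam z k‖ ^ 2) := by
    have e1 : ∑ k ∈ Ne, (1 : ℝ) / ‖Fk μ lam z k‖ ^ (1 + 1) +
        ∑ k ∈ Fa, (1 : ℝ) / ‖Fk μ lam z k‖ ^ 2 = ∑ k : T d L, (1 : ℝ) / ‖Fk μ lam z k‖ ^ 2 :=
      Finset.sum_filter_add_sum_filter_not _ _ _
    rw [e1, Finset.mul_sum]
    refine Finset.sum_le_sum fun k _ => ?_
    refine (le_abs_self _).trans ((m_up_b h k).trans (le_of_eq (by ring)))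
  rw [XX_mean μ lam hne]
  have h5 : ∑ k : T d L, (mk μ lam z k).im ≤ (48 * d / s + 128 / δ ^ 2) * (L : ℝ) ^ d := by
    refine h4.trans ?_
    calc 2 * y * (∑ k ∈ Ne, (1 : ℝ) / ‖Fk μ lam z k‖ ^ (1 + 1) +
        ∑ k ∈ Fa, (1 : ℝ) / ‖Fk μ lam z k‖ ^ 2) ≤
        2 * y * (2 ^ (1 + 1) * (6 * d / s * (L : ℝ) ^ d) / y + 64 / δ ^ 2 * (L : ℝ) ^ d) := by
          gcongr
      _ = 48 * d / s * (L : ℝ) ^ d + 128 / δ ^ 2 * (L : ℝ) ^ d * y := by
          field_simp
          ring
      _ ≤ 48 * d / s * (L : ℝ) ^ d + 128 / δ ^ 2 * (L : ℝ) ^ d * 1 := by gcongr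
      _ = _ := by ring
  rw [one_div, inv_mul_le_iff₀ hL3]
  linarith

end

end Pool.Agent.V8H95.BK
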