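import Pool.Agent.V8H95.BK.One
import Pool.Agent.V8H95.ND.Grid
import Pool.Agent.V8H95.NM.Fin3

/-!
Every approximate eigenfunction with an energy inside the spectrum, away from the critical energies.
-/

set_option autoImplicit false
set_option linter.unusedSectionVars false
set_option linter.unusedVariables false

open Complex MeasureTheory
open scoped BigOperators ComplexConjugate

namespace Pool.Agent.V8H95.BK

open Pool.Agent.H4R2.AE Pool.Agent.V8H99.AD Pool.Agent.V8H95.MF Pool.Agent.V8H95.BW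
open Pool.Agent.V8H95.EF Pool.Agent.V8H95.NM Pool.Agent.V8H95.NE

theorem prob_bd_b {d L : ℕ} {Cs A : ℝ} {g0 bq J Q N2 : ℕ} {lam E δ0 s0 x : ℝ}
    (h : Sb d L Cs A g0 bq J Q N2 lam E δ0 s0 x) (N P1 : ℕ) (hN : 1 ≤ N)
    (hxN : x ^ N ≤ lam ^ (P1 + N2)) (hQ : 3 * N2 + N + P1 + 1 ≤ 6 * Q)
    (z12 : 32 * (N : ℝ) ^ 3 * (2 ^ N) ^ 2 * ((J + 1) * K0 g0) * x ≤ 1) :
    ((L : ℝ) ^ d * (x ^ 4) ^ N + N * (32 * (N : ℝ) ^ 2 * ((L : ℝ) ^ d) ^ 2 * (2 ^ N) ^ 2 *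
        ((J + 1) * (L : ℝ) ^ d * K0 g0 / (1 / x) ^ (3 * 2 ^ bq)))) / x ^ N ≤
      2 * lam ^ P1 := by
  have hx := h.x0
  have hx1 := h.x1
  have hl := h.lam0
  have hl1 := h.lam1
  have hlx := h.lx1
  obtain ⟨w1, w2⟩ := h.W
  obtain ⟨x1, x2⟩ := h.xbq
  have hK := K0_ge g0
  have hxN0 : 0 < x ^ N := by positivity
  have hxN1 : x ^ N ≤ 1 := pow_le_one₀ hx.le hx1
  have t1 : (L : ℝ) ^ d * (x ^ 4) ^ N / x ^ N ≤ lam ^ P1 := by
    have e1 : (x ^ 4) ^ N = x ^ N * (x ^ N) ^ 2 * x ^ N := by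
      rw [← pow_mul, ← pow_mul, ← pow_add, ← pow_add]
      congr 1
      ring
    have e2 : (L : ℝ) ^ d * (x ^ 4) ^ N / x ^ N = (L : ℝ) ^ d * (x ^ N * (x ^ N) ^ 2) := by
      rw [e1]
      field_simp
    rw [e2]
    have e3 : (x ^ N) ^ 2 ≤ 1 := pow_le_one₀ hxN0.le hxN1
    calc (L : ℝ) ^ d * (x ^ N * (x ^ N) ^ 2) ≤
        1 / lam ^ (N2) * (lam ^ (P1 + N2) * 1) := by gcongr
      _ = lam ^ P1 := by
          rw [pow_add]
          field_simp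
  have hx3 : x ^ (3 * 2 ^ bq) ≤ lam ^ (N2 + (2 * N2 + N + P1 + 1)) :=
    x1.trans (pow_le_pow_of_le_one hl.le hl1 (by omega))
  have e0 : ∀ y : ℝ, y / (1 / x) ^ (3 * 2 ^ bq) = y * x ^ (3 * 2 ^ bq) := by
    intro y
    rw [one_div, inv_pow, div_inv_eq_mul]
  have hpO : (J + 1) * (L : ℝ) ^ d * K0 g0 / (1 / x) ^ (3 * 2 ^ bq) ≤
      ((J + 1) * K0 g0) * lam ^ (2 * N2 + N + P1 + 1) := by
    rw [e0]
    calc (J + 1) * (L : ℝ) ^ d * K0 g0 * x ^ (3 * 2 ^ bq) ≤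
        (J + 1) * (1 / lam ^ (N2)) * K0 g0 * lam ^ (N2 + (2 * N2 + N + P1 + 1)) := by gcongr
      _ = _ := by
          rw [pow_add lam (N2)]
          field_simp
  have hpO0 : 0 ≤ (J + 1) * (L : ℝ) ^ d * K0 g0 / (1 / x) ^ (3 * 2 ^ bq) := by positivity
  have hL6 : ((L : ℝ) ^ d) ^ 2 ≤ 1 / lam ^ (2 * N2) := by
    calc ((L : ℝ) ^ d) ^ 2 ≤ (1 / lam ^ (N2)) ^ 2 := by gcongr
      _ = _ := by
          rw [div_pow, one_pow, ← pow_mul]
          congr 2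
          ring
  have hxl : lam ^ N ≤ x ^ N := by gcongr
  have t2 : N * (32 * (N : ℝ) ^ 2 * ((L : ℝ) ^ d) ^ 2 * (2 ^ N) ^ 2 *
        ((J + 1) * (L : ℝ) ^ d * K0 g0 / (1 / x) ^ (3 * 2 ^ bq))) / x ^ N ≤ lam ^ P1 := by
    calc N * (32 * (N : ℝ) ^ 2 * ((L : ℝ) ^ d) ^ 2 * (2 ^ N) ^ 2 *
        ((J + 1) * (L : ℝ) ^ d * K0 g0 / (1 / x) ^ (3 * 2 ^ bq))) / x ^ N ≤
        N * (32 * (N : ℝ) ^ 2 * (1 / lam ^ (2 * N2)) * (2 ^ N) ^ 2 *
        (((J + 1) * K0 g0) * lam ^ (2 * N2 + N + P1 + 1))) / lam ^ N := by gcongr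
      _ = (32 * (N : ℝ) ^ 3 * (2 ^ N) ^ 2 * ((J + 1) * K0 g0) * lam) * lam ^ P1 := by
          rw [show 2 * N2 + N + P1 + 1 = 2 * N2 + (N + (P1 + 1)) by ring, pow_add lam (2 * N2),
            pow_add lam N, pow_succ]
          field_simp
          ring
      _ ≤ (32 * (N : ℝ) ^ 3 * (2 ^ N) ^ 2 * ((J + 1) * K0 g0) * x) * lam ^ P1 := by gcongr
      _ ≤ 1 * lam ^ P1 := by gcongr
      _ = lam ^ P1 := one_mul _
  rw [add_div]
  linarith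

/-- **every approximate eigenfunction inside the spectrum** -/
theorem every_b (d : ℕ) (hd : 3 ≤ d) (N P : ℕ) (a δ : ℝ) (ha : 0 < a) (ha1 : a ≤ 1) (hδ : 0 < δ) :
    ∃ lam0 : ℝ, 0 < lam0 ∧
    ∀ (μ : Measure ℝ) [IsProbabilityMeasure μ], μ (Set.Icc (-1) 1)ᶜ = 0 →
    ∀ lam : ℝ, 0 < lam → lam ≤ lam0 → ∀ (L : ℕ) [NeZero L],
    1 / lam ^ 3 ≤ (L : ℝ) → (L : ℝ) ≤ 1 / lam ^ N →
    ∃ G : Set (T d L → ℝ), MeasurableSet G ∧
      (Measure.pi fun _ : T d L => μ).real Gᶜ ≤ lam ^ P ∧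
      ∀ V ∈ G, ∀ (ψ : XT d L) (E : ℝ), ‖ψ‖ = 1 →
        ‖HC lam V ψ - ((E : ℝ) : ℂ) • ψ‖ ≤ lam ^ (d + 5) → 0 ≤ E → E ≤ 4 * d → NR d E δ →
        ∀ x0 : T d L, ‖rs (fun x => (nn (x - x0) : ℝ) ≤ lam ^ (a - 2)) ψ‖ ^ 2 ≤
          50 * lam ^ (a / 32) := by
  have hdr : (3 : ℝ) ≤ d := by exact_mod_cast hd
  have hd0 : (0 : ℝ) < d := by linarith
  obtain ⟨δ0, hδ0⟩ : ∃ δ0 : ℝ, δ0 = δ / 2 := ⟨_, rfl⟩
  have hδ00 : 0 < δ0 := by rw [hδ0]; positivity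
  obtain ⟨s0, hs0⟩ : ∃ s0 : ℝ, s0 = min 1 (δ0 / (4 * d)) := ⟨_, rfl⟩
  have hs00 : 0 < s0 := by rw [hs0]; positivity
  have hs01 : s0 ≤ 1 := by rw [hs0]; exact min_le_left _ _
  have hs02 : 4 * d * s0 ^ 2 ≤ δ0 := by
    have h1 : s0 ≤ δ0 / (4 * d) := by rw [hs0]; exact min_le_right _ _
    rw [le_div_iff₀ (by positivity)] at h1
    calc 4 * d * s0 ^ 2 = s0 * (s0 * (4 * d)) := by ring
      _ ≤ 1 * (s0 * (4 * d)) := by gcongr
      _ ≤ δ0 := by linarith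
  obtain ⟨A, hA⟩ : ∃ A : ℝ, A = max 1 (48 * d / s0 + 128 / δ0 ^ 2) := ⟨_, rfl⟩
  have hA1 : 1 ≤ A := by rw [hA]; exact le_max_left _ _
  have hA2 : 48 * d / s0 + 128 / δ0 ^ 2 ≤ A := by rw [hA]; exact le_max_right _ _
  have hAp : 0 < A := by linarith
  obtain ⟨N2, hN2⟩ : ∃ N2 : ℕ, N2 = N * d := ⟨_, rfl⟩
  obtain ⟨Jb', bq', hJb', hbq', hexp'⟩ := expo (a / 2) (by positivity) (by linarith) (P + 5 + N2)
  obtain ⟨M, hM⟩ : ∃ M : ℕ, M = 2 ^ (bq' - 1) := ⟨_, rfl⟩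
  have hM1 : 1 ≤ M := by rw [hM]; exact Nat.one_le_two_pow
  obtain ⟨Q, hQ⟩ : ∃ Q : ℕ, Q = 3 * N2 + M + P + 26 := ⟨_, rfl⟩
  obtain ⟨Jb, bq, hJb, hbq, hexp⟩ := expo (a / 2) (by positivity) (by linarith) Q
  obtain ⟨g0, hg0⟩ : ∃ g0 : ℕ, g0 = bq * Jb := ⟨_, rfl⟩
  obtain ⟨-, Cs, -, -, hCs, -, -, -, -, hRC⟩ := ND.consts_exist d hd g0
  have hK0 := K0_ge g0
  obtain ⟨x0, hx0, hsm⟩ := smallx [100 / δ0, 5000, 16 * (Jb + 2) * A,
    4 * K0 g0 + 4 * (Jb + 1) * K0 g0, 8 * (4 * A + DB d) / s0,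
    4 * Cs * K0 g0 * A, 4 * Cs * (Jb + 1) * K0 g0,
    4 * A + 1 + 32 * (M : ℝ) ^ 2 * A,
    32 * (M : ℝ) ^ 3 * (2 ^ M) ^ 2 * ((Jb + 1) * K0 g0),
    24 * (d : ℝ) ^ 2 * (4 / s0 + 1) + 48, 20 * (d : ℝ)]
  have ha32 : 0 < a / 32 := by positivity
  refine ⟨min 1 (x0 ^ (1 / (a / 32))), by positivity, ?_⟩
  intro μ _ hμ lam hlam hlam0 L _ hL1 hL2
  have hl1 : lam ≤ 1 := hlam0.trans (min_le_left _ _)
  obtain ⟨x, hx⟩ : ∃ x : ℝ, x = lam ^ (a / 32) := ⟨_, rfl⟩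
  have hxp : 0 < x := by rw [hx]; positivity
  have hxx0 : x ≤ x0 := by
    rw [hx]
    have h1 : lam ^ (a / 32) ≤ (x0 ^ (1 / (a / 32))) ^ (a / 32) :=
      Real.rpow_le_rpow hlam.le (hlam0.trans (min_le_right _ _)) ha32.le
    rwa [← Real.rpow_mul hx0.le, one_div_mul_cancel ha32.ne', Real.rpow_one] at h1
  have hS := hsm x hxp hxx0
  have s01 : 100 / δ0 * x ≤ 1 := hS _ (by simp)
  have s12 : 5000 * x ≤ 1 := hS _ (by simp)
  have s04 : 16 * (Jb + 2) * A * x ≤ 1 := hS _ (by simp)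
  have s06 : (4 * K0 g0 + 4 * (Jb + 1) * K0 g0) * x ≤ 1 := hS _ (by simp)
  have s07 : 8 * (4 * A + DB d) / s0 * x ≤ 1 := hS _ (by simp)
  have s08 : 4 * Cs * K0 g0 * A * x ≤ 1 := hS _ (by simp)
  have s09 : 4 * Cs * (Jb + 1) * K0 g0 * x ≤ 1 := hS _ (by simp)
  have s30 : (4 * A + 1 + 32 * (M : ℝ) ^ 2 * A) * x ≤ 1 := hS _ (by simp)
  have s31 : 32 * (M : ℝ) ^ 3 * (2 ^ M) ^ 2 * ((Jb + 1) * K0 g0) * x ≤ 1 := hS _ (by simp)
  have s41 : (24 * (d : ℝ) ^ 2 * (4 / s0 + 1) + 48) * x ≤ 1 := hS _ (by simp)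
  have s42 : 20 * (d : ℝ) * x ≤ 1 := hS _ (by simp)
  clear hS hsm
  have t01 : 100 * x ≤ δ0 := by
    rw [div_mul_eq_mul_div, div_le_one hδ00] at s01
    exact s01
  have t07 : 8 * (4 * A + DB d) * x ≤ s0 := by
    rw [div_mul_eq_mul_div, div_le_one hs00] at s07
    exact s07
  have hx1 : x ≤ 1 := by rw [hx]; exact Real.rpow_le_one hlam.le hl1 ha32.le
  have hx32 : x ^ 32 = lam ^ a := by
    rw [hx, ← Real.rpow_natCast, ← Real.rpow_mul hlam.le]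
    congr 1
    push_cast
    ring
  have hpw : ∀ n m : ℕ, m ≤ n → x ^ n ≤ x ^ m := fun n m hnm =>
    pow_le_pow_of_le_one hxp.le hx1 hnm
  have hlx32 : lam ≤ x ^ 32 := by
    rw [hx32]
    calc lam = lam ^ (1 : ℝ) := (Real.rpow_one lam).symm
      _ ≤ lam ^ a := Real.rpow_le_rpow_of_exponent_ge hlam hl1 ha1
  have hlx16 : lam ≤ x ^ 16 := hlx32.trans (hpw 32 16 (by norm_num))
  have hlx2 : lam ≤ x ^ 2 := hlx32.trans (hpw 32 2 (by norm_num))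
  obtain ⟨hxJ, hxb⟩ := hexp lam hlam hl1
  obtain ⟨hxJ', hxb'⟩ := hexp' lam hlam hl1
  have e32 : a / 2 / 16 = a / 32 := by ring
  rw [e32, ← hx] at hxJ hxb
  rw [e32, ← hx, ← hM] at hxb'
  have hlx : lam ≤ x := by
    have := hlx16.trans (hpw 16 1 (by norm_num))
    rwa [pow_one] at this
  have hrp2 : lam ^ (a - 2) = x ^ 32 / lam ^ 2 := by
    rw [hx32, Real.rpow_sub hlam, Real.rpow_ofNat]
  have hLhi : (L : ℝ) ^ d * lam ^ N2 ≤ 1 := by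
    have h1 : (L : ℝ) * lam ^ N ≤ 1 := by
      rw [le_div_iff₀ (by positivity)] at hL2
      exact hL2
    calc (L : ℝ) ^ d * lam ^ N2 = ((L : ℝ) * lam ^ N) ^ d := by
          rw [hN2, mul_pow, pow_mul]
      _ ≤ 1 := pow_le_one₀ (by positivity) h1
  have hlamL : 1 / lam ≤ lam ^ 2 * L := by
    calc 1 / lam = lam ^ 2 * (1 / lam ^ 3) := by field_simp
      _ ≤ _ := by gcongr
  have hlamL1 : 1 ≤ lam ^ 2 * L := by
    refine le_trans ?_ hlamL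
    rw [le_div_iff₀ hlam]
    linarith
  -- the parameters
  have hSb : ∀ e : ℝ, 0 ≤ e → e ≤ 4 * d → NR d e δ0 →
      Sb d L Cs A g0 bq Jb Q N2 lam e δ0 s0 x := by
    intro e he0 he1 hnr
    exact
    { d1 := by omega
      nr := hnr
      dd0 := hδ00
      ss0 := hs00
      ss1 := hs01
      ss2 := hs02
      hA := hA2
      A1 := hA1
      Eb := by
        rw [abs_of_nonneg he0]
        linarith
      lam0 := hlam
      x0 := hxp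
      x1 := hx1
      lx := hlx16
      xJ := hxJ
      xb := hxb
      hQ := by omega
      J1 := hJb
      hg := hg0.ge
      hb := hbq
      Lhi := hLhi
      Llo := hlamL1
      Cs1 := hCs
      z1 := by linarith
      z3 := by linarith
      z4 := s04
      z6 := s06
      z7 := t07
      z8 := s08
      z9 := s09 }
  obtain ⟨R, hR⟩ : ∃ R : ℕ, R = ⌊x ^ 32 / lam ^ 2⌋₊ := ⟨_, rfl⟩
  have hRr : (R : ℝ) ≤ x ^ 32 / lam ^ 2 := by
    rw [hR]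
    exact Nat.floor_le (by positivity)
  have hr1 : 1 ≤ x ^ 32 / lam ^ 2 := by
    rw [le_div_iff₀ (by positivity)]
    calc 1 * lam ^ 2 = lam * lam := by ring
      _ ≤ x ^ 32 * 1 := by gcongr
      _ = x ^ 32 := mul_one _
  have hRr' : 2 * (R : ℝ) + 1 ≤ 3 * (x ^ 32 / lam ^ 2) := by linarith
  obtain ⟨n, hn⟩ : ∃ n : ℕ, n = ⌈8 * d / lam ^ 4⌉₊ + 1 := ⟨_, rfl⟩
  have hn1 : 8 * d / lam ^ 4 < (n : ℝ) := by
    rw [hn]
    push_cast
    have := Nat.le_ceil (8 * d / lam ^ 4)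
    linarith
  have hn2 : (n : ℝ) ≤ 10 * d / lam ^ 4 := by
    have h1 : (⌈8 * d / lam ^ 4⌉₊ : ℝ) < 8 * d / lam ^ 4 + 1 :=
      Nat.ceil_lt_add_one (by positivity)
    have h2 : (2 : ℝ) ≤ 2 * d / lam ^ 4 := by
      rw [le_div_iff₀ (by positivity)]
      have : lam ^ 4 ≤ 1 := pow_le_one₀ hlam.le hl1
      nlinarith
    have h3 : 10 * d / lam ^ 4 = 8 * d / lam ^ 4 + 2 * d / lam ^ 4 := by ring
    rw [hn]
    push_cast
    linarith
  have hl4 : lam ^ 4 ≤ lam := by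
    calc lam ^ 4 ≤ lam ^ 1 := pow_le_pow_of_le_one hlam.le hl1 (by norm_num)
      _ = lam := pow_one lam
  obtain ⟨S, hSm', hSP', hS⟩ := ND.grid μ 0 (4 * d) (lam ^ 4 / 2) (by positivity) n (by
      refine lt_of_le_of_lt (le_of_eq ?_) hn1
      field_simp
      ring) (2 * lam ^ (P + 5)) (by positivity)
    (fun V t => NR d t δ → ∀ ψ : XT d L, ‖HC lam V ψ - ((t : ℝ) : ℂ) • ψ‖ ≤ lam ^ (d + 5) →
      ‖ψ‖ = 1 → ∀ y0 : T d L, ‖rs (fun y => nn (y - y0) ≤ R) ψ‖ ^ 2 ≤ 50 * x) (by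
      intro e he0 he1
      by_cases hnr : NR d e δ0
      · have hsb := hSb e he0 he1 hnr
        obtain ⟨S, h1, h2, h3⟩ := one_e_b μ hμ hsb hRC M hM1 s30 t01 (by linarith)
        refine ⟨S, h1, h2.trans (prob_bd_b hsb M (P + 5) hM1 hxb' (by omega) s31), ?_⟩
        intro V hV t ht hnt ψ hψ hψ1 y0
        have hge := hsb.eb_ge
        have hr : ‖HC lam V ψ - ((t : ℝ) : ℂ) • ψ‖ ≤ lam * eb lam x := by
          refine hψ.trans ?_
          calc lam ^ (d + 5) ≤ lam ^ 3 := pow_le_pow_of_le_one hlam.le hl1 (by omega)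
            _ = lam * lam ^ 2 := by ring
            _ ≤ _ := by gcongr
        have h4 := h3 V hV ψ t lam hlam.le hr hψ1 (by
          refine ht.trans ?_
          have : lam ^ 4 ≤ lam ^ 2 := pow_le_pow_of_le_one hlam.le hl1 (by norm_num)
          linarith) R y0
        refine h4.trans ?_
        have h6 : 1 / (L : ℝ) ≤ lam ^ 2 / x ^ 8 := by
          have hL := L_pos (L := L)
          rw [div_le_div_iff₀ (by positivity) (by positivity)]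
          have h7 : x ^ 8 ≤ 1 := pow_le_one₀ hxp.le hx1
          calc 1 * x ^ 8 ≤ 1 := by linarith
            _ ≤ lam ^ 2 * L := hlamL1
        unfold eb
        calc 8 * (d : ℝ) ^ 2 * ((2 * R + 1) * (4 * (lam ^ 2 / x ^ 8) / s0 + 1 / L)) +
              48 * (x + lam ^ 2) ≤
            8 * (d : ℝ) ^ 2 * ((3 * (x ^ 32 / lam ^ 2)) * (4 * (lam ^ 2 / x ^ 8) / s0 +
              lam ^ 2 / x ^ 8)) + 48 * (x + (x ^ 2) ^ 2) := by gcongr
          _ = 24 * (d : ℝ) ^ 2 * (4 / s0 + 1) * x ^ 24 + 48 * (x + x ^ 4) := by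
              field_simp
              ring
          _ ≤ 24 * (d : ℝ) ^ 2 * (4 / s0 + 1) * x ^ 2 + 48 * (x + x ^ 2) := by
              have := hpw 24 2 (by norm_num)
              have := hpw 4 2 (by norm_num)
              gcongr
          _ = ((24 * (d : ℝ) ^ 2 * (4 / s0 + 1) + 48) * x) * x + 48 * x := by ring
          _ ≤ 1 * x + 48 * x := by gcongr
          _ ≤ 50 * x := by linarith
      · refine ⟨Set.univ, MeasurableSet.univ, by simp; positivity, ?_⟩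
        intro V hV t ht hnt
        exfalso
        apply hnr
        intro j hj
        have h1 := hnt j hj
        have h2 : |t - 4 * j| ≤ |t - e| + |e - 4 * j| := abs_sub_le _ _ _
        rw [hδ0]
        linarith)
  refine ⟨S, hSm', ?_, ?_⟩
  · refine hSP'.trans ?_
    calc (n : ℝ) * (2 * lam ^ (P + 5)) ≤ 10 * d / lam ^ 4 * (2 * lam ^ (P + 5)) := by gcongr
      _ = (20 * d * lam) * lam ^ P := by
          rw [show P + 5 = P + 1 + 4 by ring, pow_add lam (P + 1) 4, pow_succ]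
          field_simp
          ring
      _ ≤ (20 * d * x) * lam ^ P := by gcongr
      _ ≤ 1 * lam ^ P := by gcongr
      _ = _ := one_mul _
  · intro V hV ψ E hψ1 hψ hE0 hE1 hnr y0
    have hmain := hS V hV E hE0 hE1 hnr ψ hψ hψ1 y0
    rw [← hx]
    refine le_trans ?_ hmain
    classical
    rw [rs_norm, rs_norm]
    refine Finset.sum_le_sum fun y _ => ?_
    by_cases h1 : (nn (y - y0) : ℝ) ≤ lam ^ (a - 2)
    · rw [if_pos h1, if_pos (by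
        rw [hR]
        exact Nat.le_floor (by rw [← hrp2]; exact h1))]
    · rw [if_neg h1]
      split_ifs <;> positivity

end Pool.Agent.V8H95.BK
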