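import Pool.Agent.V8H95.BK.Fin

/-!
Every approximate eigenfunction with an energy inside the spectrum, outside small neighbourhoods of
the critical energies.
-/

set_option autoImplicit false
set_option linter.unusedSectionVars false
set_option linter.unusedVariables false

open Complex MeasureTheory
open scoped BigOperators ComplexConjugate

namespace Pool.Agent.V8H95.BK

open Pool.Agent.H4R2.AE Pool.Agent.V8H99.AD Pool.Agent.V8H95.MF Pool.Agent.V8H95.BW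
open Pool.Agent.V8H95.EF Pool.Agent.V8H95.NM Pool.Agent.V8H95.NE

/-- **every approximate eigenfunction inside the spectrum**, shrinking neighbourhoods -/
theorem every_c (d : ℕ) (hd : 3 ≤ d) (N P : ℕ) (a : ℝ) (ha : 0 < a) (ha1 : a ≤ 1) :
    ∃ lam0 : ℝ, 0 < lam0 ∧
    ∀ (μ : Measure ℝ) [IsProbabilityMeasure μ], μ (Set.Icc (-1) 1)ᶜ = 0 →
    ∀ lam : ℝ, 0 < lam → lam ≤ lam0 → ∀ (L : ℕ) [NeZero L],
    1 / lam ^ 3 ≤ (L : ℝ) → (L : ℝ) ≤ 1 / lam ^ N →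
    ∃ G : Set (T d L → ℝ), MeasurableSet G ∧
      (Measure.pi fun _ : T d L => μ).real Gᶜ ≤ lam ^ P ∧
      ∀ V ∈ G, ∀ (ψ : XT d L) (E : ℝ), ‖ψ‖ = 1 →
        ‖HC lam V ψ - ((E : ℝ) : ℂ) • ψ‖ ≤ lam ^ (d + 5) → 0 ≤ E → E ≤ 4 * d →
        NR d E (lam ^ (a / 128)) →
        ∀ x0 : T d L, ‖rs (fun x => (nn (x - x0) : ℝ) ≤ lam ^ (a - 2)) ψ‖ ^ 2 ≤
          50 * lam ^ (a / 32) := by
  have hdr : (3 : ℝ) ≤ d := by exact_mod_cast hd
  have hd0 : (0 : ℝ) < d := by linarith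
  obtain ⟨CA, hCA⟩ : ∃ CA : ℝ, CA = 384 * (d : ℝ) ^ 2 + 512 := ⟨_, rfl⟩
  have hCA1 : 1 ≤ CA := by
    rw [hCA]
    nlinarith
  have hCA0 : 0 < CA := by linarith
  obtain ⟨N2, hN2⟩ : ∃ N2 : ℕ, N2 = N * d := ⟨_, rfl⟩
  obtain ⟨Jb', bq', hJb', hbq', hexp'⟩ := expo (a / 2) (by positivity) (by linarith) (P + 5 + N2)
  obtain ⟨M, hM⟩ : ∃ M : ℕ, M = 2 ^ (bq' - 1) := ⟨_, rfl⟩
  have hM1 : 1 ≤ M := by rw [hM]; exact Nat.one_le_two_pow
  obtain ⟨Q, hQ⟩ : ∃ Q : ℕ, Q = 3 * N2 + M + P + 26 := ⟨_, rfl⟩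
  obtain ⟨Jb, bq, hJb, hbq, hexp⟩ := expo (a / 2) (by positivity) (by linarith) Q
  obtain ⟨g0, hg0⟩ : ∃ g0 : ℕ, g0 = bq * Jb := ⟨_, rfl⟩
  obtain ⟨-, Cs, -, -, hCs, -, -, -, -, hRC⟩ := ND.consts_exist d hd g0
  have hK0 := K0_ge g0
  obtain ⟨u0, hu0, hsm⟩ := smallx [200, 5000, 16 * (Jb + 2) * CA,
    4 * K0 g0 + 4 * (Jb + 1) * K0 g0, 64 * d * (4 * CA + DB d),
    4 * Cs * K0 g0 * CA, 4 * Cs * (Jb + 1) * K0 g0,
    4 * CA + 1 + 32 * (M : ℝ) ^ 2 * CA,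
    32 * (M : ℝ) ^ 3 * (2 ^ M) ^ 2 * ((Jb + 1) * K0 g0),
    24 * (d : ℝ) ^ 2 * (32 * d + 1) + 48, 20 * (d : ℝ)]
  have ha128 : 0 < a / 128 := by positivity
  have ha32 : 0 < a / 32 := by positivity
  refine ⟨min 1 (u0 ^ (1 / (a / 128))), by positivity, ?_⟩
  intro μ _ hμ lam hlam hlam0 L _ hL1 hL2
  have hl1 : lam ≤ 1 := hlam0.trans (min_le_left _ _)
  obtain ⟨u, hu⟩ : ∃ u : ℝ, u = lam ^ (a / 128) := ⟨_, rfl⟩
  have hup : 0 < u := by rw [hu]; positivity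
  have huu0 : u ≤ u0 := by
    rw [hu]
    have h1 : lam ^ (a / 128) ≤ (u0 ^ (1 / (a / 128))) ^ (a / 128) :=
      Real.rpow_le_rpow hlam.le (hlam0.trans (min_le_right _ _)) ha128.le
    rwa [← Real.rpow_mul hu0.le, one_div_mul_cancel ha128.ne', Real.rpow_one] at h1
  have hu1 : u ≤ 1 := by rw [hu]; exact Real.rpow_le_one hlam.le hl1 ha128.le
  have hupw : ∀ n m : ℕ, m ≤ n → u ^ n ≤ u ^ m := fun n m hnm =>
    pow_le_pow_of_le_one hup.le hu1 hnm
  have hu2 : u ^ 2 ≤ u := by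
    have := hupw 2 1 (by norm_num)
    rwa [pow_one] at this
  have hu3 : u ^ 3 ≤ u := by
    have := hupw 3 1 (by norm_num)
    rwa [pow_one] at this
  have hu4 : u ^ 4 ≤ u := by
    have := hupw 4 1 (by norm_num)
    rwa [pow_one] at this
  obtain ⟨x, hx⟩ : ∃ x : ℝ, x = lam ^ (a / 32) := ⟨_, rfl⟩
  have hxp : 0 < x := by rw [hx]; positivity
  have hxu : x = u ^ 4 := by
    rw [hx, hu, ← Real.rpow_natCast, ← Real.rpow_mul hlam.le]
    congr 1
    push_cast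
    ring
  have hS := hsm u hup huu0
  have r01 : 200 * u ≤ 1 := hS _ (by simp)
  have r12 : 5000 * u ≤ 1 := hS _ (by simp)
  have r04 : 16 * (Jb + 2) * CA * u ≤ 1 := hS _ (by simp)
  have r06 : (4 * K0 g0 + 4 * (Jb + 1) * K0 g0) * u ≤ 1 := hS _ (by simp)
  have r07 : 64 * d * (4 * CA + DB d) * u ≤ 1 := hS _ (by simp)
  have r08 : 4 * Cs * K0 g0 * CA * u ≤ 1 := hS _ (by simp)
  have r09 : 4 * Cs * (Jb + 1) * K0 g0 * u ≤ 1 := hS _ (by simp)
  have r30 : (4 * CA + 1 + 32 * (M : ℝ) ^ 2 * CA) * u ≤ 1 := hS _ (by simp)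
  have r31 : 32 * (M : ℝ) ^ 3 * (2 ^ M) ^ 2 * ((Jb + 1) * K0 g0) * u ≤ 1 := hS _ (by simp)
  have r41 : (24 * (d : ℝ) ^ 2 * (32 * d + 1) + 48) * u ≤ 1 := hS _ (by simp)
  have r42 : 20 * (d : ℝ) * u ≤ 1 := hS _ (by simp)
  clear hS hsm
  have hDB : 0 < DB d := by unfold DB; positivity
  obtain ⟨δ0, hδ0⟩ : ∃ δ0 : ℝ, δ0 = u / 2 := ⟨_, rfl⟩
  have hδ00 : 0 < δ0 := by rw [hδ0]; positivity
  obtain ⟨s0, hs0⟩ : ∃ s0 : ℝ, s0 = u / (8 * d) := ⟨_, rfl⟩
  have hs00 : 0 < s0 := by rw [hs0]; positivity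
  have hs01 : s0 ≤ 1 := by
    rw [hs0, div_le_one (by positivity)]
    linarith
  have hs02 : 4 * d * s0 ^ 2 ≤ δ0 := by
    rw [hs0, hδ0]
    have e : 4 * (d : ℝ) * (u / (8 * d)) ^ 2 = u ^ 2 * (1 / (16 * d)) := by
      field_simp
      norm_num
    have e2 : 1 / (16 * (d : ℝ)) ≤ 1 / 2 :=
      one_div_le_one_div_of_le (by norm_num) (by linarith)
    rw [e]
    calc u ^ 2 * (1 / (16 * d)) ≤ u * (1 / 2) := by gcongr
      _ = u / 2 := by ring
  obtain ⟨A, hA⟩ : ∃ A : ℝ, A = CA / u ^ 2 := ⟨_, rfl⟩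
  have hAu : A * u ^ 2 = CA := by
    rw [hA]
    field_simp
  have hA1 : 1 ≤ A := by
    rw [hA, le_div_iff₀ (by positivity)]
    linarith
  have hA2 : 48 * d / s0 + 128 / δ0 ^ 2 ≤ A := by
    rw [hA, hs0, hδ0, hCA]
    have e : 48 * (d : ℝ) / (u / (8 * d)) + 128 / (u / 2) ^ 2 =
        (384 * (d : ℝ) ^ 2 * u + 512) / u ^ 2 := by
      field_simp
      ring
    rw [e]
    have h1 : 384 * (d : ℝ) ^ 2 * u ≤ 384 * (d : ℝ) ^ 2 * 1 := by gcongr
    apply div_le_div_of_nonneg_right _ (by positivity)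
    linarith
  have hAp : 0 < A := by linarith
  have hAx : A * x ≤ CA * u := by
    calc A * x = (A * u ^ 2) * u ^ 2 := by rw [hxu]; ring
      _ = CA * u ^ 2 := by rw [hAu]
      _ ≤ CA * u := by gcongr
  have hxu1 : x ≤ u := by rw [hxu]; exact hu4
  have s12 : 5000 * x ≤ 1 := by linarith
  have s04 : 16 * (Jb + 2) * A * x ≤ 1 := by
    calc 16 * (Jb + 2) * A * x = 16 * (Jb + 2) * (A * x) := by ring
      _ ≤ 16 * (Jb + 2) * (CA * u) := by gcongr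
      _ = 16 * (Jb + 2) * CA * u := by ring
      _ ≤ 1 := r04
  have s06 : (4 * K0 g0 + 4 * (Jb + 1) * K0 g0) * x ≤ 1 := by
    refine le_trans ?_ r06
    gcongr
  have t07 : 8 * (4 * A + DB d) * x ≤ s0 := by
    calc 8 * (4 * A + DB d) * x = 8 * (4 * (A * u ^ 2) * u ^ 2 + DB d * u ^ 4) := by
          rw [hxu]
          ring
      _ ≤ 8 * (4 * CA * u ^ 2 + DB d * u ^ 2) := by
          have := hupw 4 2 (by norm_num)
          rw [hAu]
          gcongr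
      _ = (64 * d * (4 * CA + DB d) * u) * (u / (8 * d)) := by
          field_simp
          ring
      _ ≤ 1 * (u / (8 * d)) := by gcongr
      _ = s0 := by rw [hs0, one_mul]
  have s08 : 4 * Cs * K0 g0 * A * x ≤ 1 := by
    calc 4 * Cs * K0 g0 * A * x = 4 * Cs * K0 g0 * (A * x) := by ring
      _ ≤ 4 * Cs * K0 g0 * (CA * u) := by
          have hC1 : 0 ≤ 4 * Cs * K0 g0 := by positivity
          gcongr
      _ = 4 * Cs * K0 g0 * CA * u := by ring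
      _ ≤ 1 := r08
  have s09 : 4 * Cs * (Jb + 1) * K0 g0 * x ≤ 1 := by
    refine le_trans ?_ r09
    have hC1 : 0 ≤ 4 * Cs * (Jb + 1) * K0 g0 := by positivity
    gcongr
  have s30 : (4 * A + 1 + 32 * (M : ℝ) ^ 2 * A) * x ≤ 1 := by
    calc (4 * A + 1 + 32 * (M : ℝ) ^ 2 * A) * x = 4 * (A * x) + x + 32 * (M : ℝ) ^ 2 * (A * x) := by
          ring
      _ ≤ 4 * (CA * u) + u + 32 * (M : ℝ) ^ 2 * (CA * u) := by gcongr
      _ = (4 * CA + 1 + 32 * (M : ℝ) ^ 2 * CA) * u := by ring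
      _ ≤ 1 := r30
  have s31 : 32 * (M : ℝ) ^ 3 * (2 ^ M) ^ 2 * ((Jb + 1) * K0 g0) * x ≤ 1 := by
    refine le_trans ?_ r31
    gcongr
  have s41 : (24 * (d : ℝ) ^ 2 * (4 / s0 + 1) + 48) * x ≤ 1 := by
    have e : 4 / s0 = 32 * d / u := by
      rw [hs0]
      field_simp
      norm_num
    rw [e, hxu]
    calc (24 * (d : ℝ) ^ 2 * (32 * d / u + 1) + 48) * u ^ 4 =
        24 * (d : ℝ) ^ 2 * (32 * d * u ^ 3 + u ^ 4) + 48 * u ^ 4 := by
          field_simp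
      _ ≤ 24 * (d : ℝ) ^ 2 * (32 * d * u + u) + 48 * u := by gcongr
      _ = (24 * (d : ℝ) ^ 2 * (32 * d + 1) + 48) * u := by ring
      _ ≤ 1 := r41
  have s42 : 20 * (d : ℝ) * x ≤ 1 := by
    refine le_trans ?_ r42
    gcongr
  have t01 : 100 * x ≤ δ0 := by
    rw [hxu, hδ0]
    calc 100 * u ^ 4 = (200 * u) * u ^ 3 / 2 := by ring
      _ ≤ 1 * u / 2 := by gcongr
      _ = u / 2 := by ring
  have hx1 : x ≤ 1 := by rw [hx]; exact Real.rpow_le_one hlam.le hl1 ha32.le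
  have hx32 : x ^ 32 = lam ^ a := by
    rw [hx, ← Real.rpow_natCast, ← Real.rpow_mul hlam.le]
    congr 1
    push_cast
    ring
  have hpw : ∀ n m : ℕ, m ≤ n → x ^ n ≤ x ^ m := fun n m hnm =>
    pow_le_pow_of_le_one hxp.le hx1 hnm
  have hlx32 : lam ≤ x ^ 32 := by
    rw [hx32]
    calc lam = lam ^ (1 : ℝ) := (Real.rpow_one lam).symm
      _ ≤ lam ^ a := Real.rpow_le_rpow_of_exponent_ge hlam hl1 ha1
  have hlx16 : lam ≤ x ^ 16 := hlx32.trans (hpw 32 16 (by norm_num))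
  have hlx2 : lam ≤ x ^ 2 := hlx32.trans (hpw 32 2 (by norm_num))
  obtain ⟨hxJ, hxb⟩ := hexp lam hlam hl1
  obtain ⟨hxJ', hxb'⟩ := hexp' lam hlam hl1
  have e32 : a / 2 / 16 = a / 32 := by ring
  rw [e32, ← hx] at hxJ hxb
  rw [e32, ← hx, ← hM] at hxb'
  have hlx : lam ≤ x := by
    have := hlx16.trans (hpw 16 1 (by norm_num))
    rwa [pow_one] at this
  have hrp2 : lam ^ (a - 2) = x ^ 32 / lam ^ 2 := by
    rw [hx32, Real.rpow_sub hlam, Real.rpow_ofNat]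
  have hLhi : (L : ℝ) ^ d * lam ^ N2 ≤ 1 := by
    have h1 : (L : ℝ) * lam ^ N ≤ 1 := by
      rw [le_div_iff₀ (by positivity)] at hL2
      exact hL2
    calc (L : ℝ) ^ d * lam ^ N2 = ((L : ℝ) * lam ^ N) ^ d := by
          rw [hN2, mul_pow, pow_mul]
      _ ≤ 1 := pow_le_one₀ (by positivity) h1
  have hlamL : 1 / lam ≤ lam ^ 2 * L := by
    calc 1 / lam = lam ^ 2 * (1 / lam ^ 3) := by field_simp
      _ ≤ _ := by gcongr
  have hlamL1 : 1 ≤ lam ^ 2 * L := by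
    refine le_trans ?_ hlamL
    rw [le_div_iff₀ hlam]
    linarith
  -- the parameters
  have hSb : ∀ e : ℝ, 0 ≤ e → e ≤ 4 * d → NR d e δ0 →
      Sb d L Cs A g0 bq Jb Q N2 lam e δ0 s0 x := by
    intro e he0 he1 hnr
    exact
    { d1 := by omega
      nr := hnr
      dd0 := hδ00
      ss0 := hs00
      ss1 := hs01
      ss2 := hs02
      hA := hA2
      A1 := hA1
      Eb := by
        rw [abs_of_nonneg he0]
        linarith
      lam0 := hlam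
      x0 := hxp
      x1 := hx1
      lx := hlx16
      xJ := hxJ
      xb := hxb
      hQ := by omega
      J1 := hJb
      hg := hg0.ge
      hb := hbq
      Lhi := hLhi
      Llo := hlamL1
      Cs1 := hCs
      z1 := by linarith
      z3 := by linarith
      z4 := s04
      z6 := s06
      z7 := t07
      z8 := s08
      z9 := s09 }
  obtain ⟨R, hR⟩ : ∃ R : ℕ, R = ⌊x ^ 32 / lam ^ 2⌋₊ := ⟨_, rfl⟩
  have hRr : (R : ℝ) ≤ x ^ 32 / lam ^ 2 := by
    rw [hR]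
    exact Nat.floor_le (by positivity)
  have hr1 : 1 ≤ x ^ 32 / lam ^ 2 := by
    rw [le_div_iff₀ (by positivity)]
    calc 1 * lam ^ 2 = lam * lam := by ring
      _ ≤ x ^ 32 * 1 := by gcongr
      _ = x ^ 32 := mul_one _
  have hRr' : 2 * (R : ℝ) + 1 ≤ 3 * (x ^ 32 / lam ^ 2) := by linarith
  obtain ⟨n, hn⟩ : ∃ n : ℕ, n = ⌈8 * d / lam ^ 4⌉₊ + 1 := ⟨_, rfl⟩
  have hn1 : 8 * d / lam ^ 4 < (n : ℝ) := by
    rw [hn]
    push_cast
    have := Nat.le_ceil (8 * d / lam ^ 4)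
    linarith
  have hn2 : (n : ℝ) ≤ 10 * d / lam ^ 4 := by
    have h1 : (⌈8 * d / lam ^ 4⌉₊ : ℝ) < 8 * d / lam ^ 4 + 1 :=
      Nat.ceil_lt_add_one (by positivity)
    have h2 : (2 : ℝ) ≤ 2 * d / lam ^ 4 := by
      rw [le_div_iff₀ (by positivity)]
      have : lam ^ 4 ≤ 1 := pow_le_one₀ hlam.le hl1
      nlinarith
    have h3 : 10 * d / lam ^ 4 = 8 * d / lam ^ 4 + 2 * d / lam ^ 4 := by ring
    rw [hn]
    push_cast
    linarith
  have hl4 : lam ^ 4 ≤ lam := by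
    calc lam ^ 4 ≤ lam ^ 1 := pow_le_pow_of_le_one hlam.le hl1 (by norm_num)
      _ = lam := pow_one lam
  obtain ⟨S, hSm', hSP', hS⟩ := ND.grid μ 0 (4 * d) (lam ^ 4 / 2) (by positivity) n (by
      refine lt_of_le_of_lt (le_of_eq ?_) hn1
      field_simp
      ring) (2 * lam ^ (P + 5)) (by positivity)
    (fun V t => NR d t u → ∀ ψ : XT d L, ‖HC lam V ψ - ((t : ℝ) : ℂ) • ψ‖ ≤ lam ^ (d + 5) →
      ‖ψ‖ = 1 → ∀ y0 : T d L, ‖rs (fun y => nn (y - y0) ≤ R) ψ‖ ^ 2 ≤ 50 * x) (by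
      intro e he0 he1
      by_cases hnr : NR d e δ0
      · have hsb := hSb e he0 he1 hnr
        obtain ⟨S, h1, h2, h3⟩ := one_e_b μ hμ hsb hRC M hM1 s30 t01 (by linarith)
        refine ⟨S, h1, h2.trans (prob_bd_b hsb M (P + 5) hM1 hxb' (by omega) s31), ?_⟩
        intro V hV t ht hnt ψ hψ hψ1 y0
        have hge := hsb.eb_ge
        have hr : ‖HC lam V ψ - ((t : ℝ) : ℂ) • ψ‖ ≤ lam * eb lam x := by
          refine hψ.trans ?_
          calc lam ^ (d + 5) ≤ lam ^ 3 := pow_le_pow_of_le_one hlam.le hl1 (by omega)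
            _ = lam * lam ^ 2 := by ring
            _ ≤ _ := by gcongr
        have h4 := h3 V hV ψ t lam hlam.le hr hψ1 (by
          refine ht.trans ?_
          have : lam ^ 4 ≤ lam ^ 2 := pow_le_pow_of_le_one hlam.le hl1 (by norm_num)
          linarith) R y0
        refine h4.trans ?_
        have h6 : 1 / (L : ℝ) ≤ lam ^ 2 / x ^ 8 := by
          have hL := L_pos (L := L)
          rw [div_le_div_iff₀ (by positivity) (by positivity)]
          have h7 : x ^ 8 ≤ 1 := pow_le_one₀ hxp.le hx1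
          calc 1 * x ^ 8 ≤ 1 := by linarith
            _ ≤ lam ^ 2 * L := hlamL1
        unfold eb
        calc 8 * (d : ℝ) ^ 2 * ((2 * R + 1) * (4 * (lam ^ 2 / x ^ 8) / s0 + 1 / L)) +
              48 * (x + lam ^ 2) ≤
            8 * (d : ℝ) ^ 2 * ((3 * (x ^ 32 / lam ^ 2)) * (4 * (lam ^ 2 / x ^ 8) / s0 +
              lam ^ 2 / x ^ 8)) + 48 * (x + (x ^ 2) ^ 2) := by gcongr
          _ = 24 * (d : ℝ) ^ 2 * (4 / s0 + 1) * x ^ 24 + 48 * (x + x ^ 4) := by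
              field_simp
              ring
          _ ≤ 24 * (d : ℝ) ^ 2 * (4 / s0 + 1) * x ^ 2 + 48 * (x + x ^ 2) := by
              have := hpw 24 2 (by norm_num)
              have := hpw 4 2 (by norm_num)
              gcongr
          _ = ((24 * (d : ℝ) ^ 2 * (4 / s0 + 1) + 48) * x) * x + 48 * x := by ring
          _ ≤ 1 * x + 48 * x := by gcongr
          _ ≤ 50 * x := by linarith
      · refine ⟨Set.univ, MeasurableSet.univ, by simp; positivity, ?_⟩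
        intro V hV t ht hnt
        exfalso
        apply hnr
        intro j hj
        have h1 := hnt j hj
        have h2 : |t - 4 * j| ≤ |t - e| + |e - 4 * j| := abs_sub_le _ _ _
        rw [hδ0]
        linarith)
  refine ⟨S, hSm', ?_, ?_⟩
  · refine hSP'.trans ?_
    calc (n : ℝ) * (2 * lam ^ (P + 5)) ≤ 10 * d / lam ^ 4 * (2 * lam ^ (P + 5)) := by gcongr
      _ = (20 * d * lam) * lam ^ P := by
          rw [show P + 5 = P + 1 + 4 by ring, pow_add lam (P + 1) 4, pow_succ]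
          field_simp
          ring
      _ ≤ (20 * d * x) * lam ^ P := by gcongr
      _ ≤ 1 * lam ^ P := by gcongr
      _ = _ := one_mul _
  · intro V hV ψ E hψ1 hψ hE0 hE1 hnr y0
    rw [← hu] at hnr
    have hmain := hS V hV E hE0 hE1 hnr ψ hψ hψ1 y0
    rw [← hx]
    refine le_trans ?_ hmain
    classical
    rw [rs_norm, rs_norm]
    refine Finset.sum_le_sum fun y _ => ?_
    by_cases h1 : (nn (y - y0) : ℝ) ≤ lam ^ (a - 2)
    · rw [if_pos h1, if_pos (by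
        rw [hR]
        exact Nat.le_floor (by rw [← hrp2]; exact h1))]
    · rw [if_neg h1]
      split_ifs <;> positivity

end Pool.Agent.V8H95.BK
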