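import Pool.Agent.V8H95.BK.Boot
import Pool.Agent.V8H95.ND.Oq

/-!
The event at one energy inside the spectrum.
-/

set_option autoImplicit false
set_option linter.unusedSectionVars false
set_option linter.unusedVariables false

open Complex MeasureTheory
open scoped BigOperators ComplexConjugate

namespace Pool.Agent.V8H95.BK

open Pool.Agent.H4R2.AE Pool.Agent.V8H99.AD Pool.Agent.V8H95.MF Pool.Agent.V8H95.BW
open Pool.Agent.V8H95.EF Pool.Agent.V8H95.NM Pool.Agent.V8H95.NE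

section
variable {d L : ℕ} [NeZero L] {μ : Measure ℝ} [IsProbabilityMeasure μ] {lam : ℝ} {z : ℂ} {y σ : ℝ}

/-- **the approximate eigenfunctions are spread over cubes** -/
theorem eig_cube_b (h : Cb μ d L lam z y σ) (hy : z.im = y) (hd : 1 ≤ d) (E0 δ0 s : ℝ)
    (hre : z.re = E0) (hE0 : NR d E0 δ0) (hδ0 : 0 < δ0) (hx : 2 * y + 3 / 2 * lam ≤ δ0 / 4)
    (hs2 : 4 * d * s ^ 2 ≤ δ0) (hs0 : 0 < s) (hs1 : s ≤ 1) (hσ : 8 * σ ≤ s)
    (V : T d L → ℝ) (ψ : XT d L) (E : ℝ)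
    (r : ℝ) (hr0 : 0 ≤ r) (hE : ‖HC lam V ψ - ((E : ℝ) : ℂ) • ψ‖ ≤ r * y) (hψ : ‖ψ‖ = 1)
    (hc : |E - z.re| ≤ y / 2) (δ : ℝ)
    (hF : ‖Fo μ lam z V ψ‖ ^ 2 ≤ δ) (R : ℕ) (x0 : T d L) :
    ‖rs (fun x => nn (x - x0) ≤ R) ψ‖ ^ 2 ≤
      8 * (d : ℝ) ^ 2 * ((2 * R + 1) * (4 * y / s + 1 / L)) + 48 * (δ + r ^ 2) := by
  classical
  have hL := L_pos (L := L)
  have hy0 := h.y0
  have hz : 0 < z.im := by rw [hy]; exact hy0
  have hd' : (1 : ℝ) ≤ d := by exact_mod_cast hd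
  set S : Finset (T d L) := Finset.univ.filter fun k => ‖Fk μ lam z k‖ ≤ 2 * y with hS
  have hex : ∀ k : T d L, ‖Fk μ lam z k‖ ≤ 2 * y → ∃ a : Fin d × Bool,
      s ≤ (if a.2 then (1 : ℝ) else -1) * (ch k (Pi.single a.1 1)).im := by
    intro k hk
    obtain ⟨i, h7⟩ := shell_b h E0 δ0 (2 * y) s hre hE0 hδ0 hx hs2 k hk
    rcases le_abs.1 h7 with h8 | h8
    · exact ⟨(i, true), by simpa using h8⟩
    · exact ⟨(i, false), by simpa using h8⟩
  have hj0 : ∀ k : T d L, ∃ a : Fin d × Bool, k ∈ S →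
      s ≤ (if a.2 then (1 : ℝ) else -1) * (ch k (Pi.single a.1 1)).im := by
    intro k
    by_cases hk : k ∈ S
    · have hk' := hk
      rw [hS, Finset.mem_filter] at hk'
      obtain ⟨a, ha⟩ := hex k hk'.2
      exact ⟨a, fun _ => ha⟩
    · exact ⟨(⟨0, by omega⟩, true), fun h => absurd h hk⟩
  choose j hj using hj0
  set nS : ℝ := 2 * (2 * y * L / s) + 1 with hnS
  have hnS0 : 0 ≤ nS := by positivity
  have hcount : ∀ a : Fin d × Bool, ∀ k ∈ S, j k = a →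
      (((Finset.univ : Finset (ZMod L)).filter fun n =>
      k + Pi.single a.1 n ∈ S ∧ j (k + Pi.single a.1 n) = a).card : ℝ) ≤ nS := by
    intro a k hk hka
    have hk0 := hj k hk
    rw [hka] at hk0
    have hsub : ((Finset.univ : Finset (ZMod L)).filter fun n =>
        k + Pi.single a.1 n ∈ S ∧ j (k + Pi.single a.1 n) = a) ⊆
        (Finset.univ : Finset (ZMod L)).filter fun n => na n ≤ ⌊2 * y * L / s⌋₊ := by
      intro n hn
      rw [Finset.mem_filter] at hn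
      rw [Finset.mem_filter]
      refine ⟨Finset.mem_univ _, ?_⟩
      have hn0 := hj _ hn.2.1
      rw [hn.2.2] at hn0
      have hkS := hk
      have hnS' := hn.2.1
      rw [hS, Finset.mem_filter] at hkS hnS'
      have h3 := line_b h (2 * y) k a.1 n (if a.2 then (1 : ℝ) else -1)
        (by split_ifs <;> norm_num) s hs0 hs1 hσ hkS.2 hnS'.2 hk0 hn0
      have h4 : (na ((Pi.single a.1 n : T d L) a.1) : ℝ) ≤ 2 * y * L / s := by
        apply na_bound _ _ _ (by positivity)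
        unfold k1q
        apply pow_le_pow_left₀ (norm_nonneg _)
        rw [← mul_div_assoc, div_div, le_div_iff₀ (by positivity)]
        nlinarith
      rw [Pi.single_eq_same] at h4
      exact Nat.le_floor h4
    have h5 := (Finset.card_le_card hsub).trans (cnt1_le _)
    have h6 : (⌊2 * y * L / s⌋₊ : ℝ) ≤ 2 * y * L / s := Nat.floor_le (by positivity)
    have h7 : (((Finset.univ : Finset (ZMod L)).filter fun n =>
        k + Pi.single a.1 n ∈ S ∧ j (k + Pi.single a.1 n) = a).card : ℝ) ≤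
        2 * (⌊2 * y * L / s⌋₊ : ℝ) + 1 := by exact_mod_cast h5
    linarith
  have hoff := off_mass_q μ lam hz V ψ E r hr0 (by rw [hy]; exact hE) hψ (by rw [hy]; exact hc) δ hF
    S (by
    intro k hk
    rw [hS, Finset.mem_filter, not_and, not_le] at hk
    rw [hy]
    exact hk (Finset.mem_univ k))
  have hmain := cube_pieces ψ S j (fun a => a.1) nS hnS0 hcount R x0
  refine hmain.trans ?_
  have hcard : (Fintype.card (Fin d × Bool) : ℝ) = 2 * d := by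
    rw [Fintype.card_prod, Fintype.card_fin, Fintype.card_bool]
    push_cast
    ring
  have hnL : nS / L = 4 * y / s + 1 / L := by
    rw [hnS]
    field_simp
    ring
  rw [hcard, hψ, hnL, one_pow, mul_one]
  have h9 : 2 * (2 * (d : ℝ)) ^ 2 = 8 * (d : ℝ) ^ 2 := by ring
  rw [h9]
  linarith

end

/-- relations between the small parameters -/
structure Sb (d L : ℕ) (Cs A : ℝ) (g0 bq J Q N2 : ℕ) (lam E δ0 s0 x : ℝ) : Prop where
  d1 : 1 ≤ d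
  nr : NR d E δ0
  dd0 : 0 < δ0
  ss0 : 0 < s0
  ss1 : s0 ≤ 1
  ss2 : 4 * d * s0 ^ 2 ≤ δ0
  hA : 48 * d / s0 + 128 / δ0 ^ 2 ≤ A
  A1 : 1 ≤ A
  Eb : |E| ≤ 4 * d + 4
  lam0 : 0 < lam
  x0 : 0 < x
  x1 : x ≤ 1
  lx : lam ≤ x ^ 16
  xJ : x ^ J ≤ lam ^ 2
  xb : x ^ (2 ^ (bq - 1)) ≤ lam ^ Q
  hQ : 2 * N2 + 20 ≤ Q
  J1 : 1 ≤ J
  hg : bq * J ≤ g0
  hb : 1 ≤ bq
  Lhi : (L : ℝ) ^ d * lam ^ N2 ≤ 1
  Llo : 1 ≤ lam ^ 2 * L
  Cs1 : 1 ≤ Cs
  z1 : 12 * x ≤ δ0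
  z3 : 24 * x ≤ 1
  z4 : 16 * (J + 2) * A * x ≤ 1
  z6 : (4 * K0 g0 + 4 * (J + 1) * K0 g0) * x ≤ 1
  z7 : 8 * (4 * A + DB d) * x ≤ s0
  z8 : 4 * Cs * K0 g0 * A * x ≤ 1
  z9 : 4 * Cs * (J + 1) * K0 g0 * x ≤ 1

/-- the final scale -/
noncomputable def eb (lam x : ℝ) : ℝ := lam ^ 2 / x ^ 8

section
variable {d L : ℕ} {Cs A : ℝ} {g0 bq J Q N2 : ℕ} {lam E δ0 s0 x : ℝ}

theorem Sb.lx1 (h : Sb d L Cs A g0 bq J Q N2 lam E δ0 s0 x) : lam ≤ x := by
  refine h.lx.trans ?_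
  calc x ^ 16 ≤ x ^ 1 := pow_le_pow_of_le_one h.x0.le h.x1 (by norm_num)
    _ = x := pow_one x

theorem Sb.lam1 (h : Sb d L Cs A g0 bq J Q N2 lam E δ0 s0 x) : lam ≤ 1 := h.lx1.trans h.x1

theorem Sb.eb0 (h : Sb d L Cs A g0 bq J Q N2 lam E δ0 s0 x) : 0 < eb lam x := by
  have := h.lam0
  have := h.x0
  unfold eb
  positivity

theorem Sb.eb_le (h : Sb d L Cs A g0 bq J Q N2 lam E δ0 s0 x) : eb lam x ≤ x ^ 8 := by
  have hx := h.x0
  have hl := h.lam0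
  unfold eb
  rw [div_le_iff₀ (by positivity)]
  calc lam ^ 2 ≤ (x ^ 16) ^ 2 := by
        have := h.lx
        gcongr
    _ = x ^ 32 := by ring
    _ ≤ x ^ 16 := pow_le_pow_of_le_one hx.le h.x1 (by norm_num)
    _ = _ := by ring

theorem Sb.eb_ge (h : Sb d L Cs A g0 bq J Q N2 lam E δ0 s0 x) : lam ^ 2 ≤ eb lam x := by
  have hx := h.x0
  have hl := h.lam0
  unfold eb
  rw [le_div_iff₀ (by positivity)]
  have h1 : x ^ 8 ≤ 1 := pow_le_one₀ h.x0.le h.x1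
  have h2 : 0 ≤ lam ^ 2 := by positivity
  nlinarith

/-- the ratio of the scales -/
theorem Sb.rho (h : Sb d L Cs A g0 bq J Q N2 lam E δ0 s0 x) :
    ∃ ρ : ℝ, 0 < ρ ∧ ρ ≤ 1 ∧ x ≤ ρ ∧ ρ ^ J = eb lam x := by
  have hx := h.x0
  have hl := h.lam0
  have hη := h.eb0
  have hJ0 : J ≠ 0 := by have := h.J1; omega
  set ρ := (eb lam x) ^ ((J : ℝ)⁻¹) with hρ
  have hρ0 : 0 < ρ := Real.rpow_pos_of_pos hη _
  have hρJ : ρ ^ J = eb lam x := Real.rpow_inv_natCast_pow hη.le hJ0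
  have hr1 : eb lam x ≤ 1 := h.eb_le.trans (pow_le_one₀ hx.le h.x1)
  refine ⟨ρ, hρ0, Real.rpow_le_one hη.le hr1 (by positivity), ?_, hρJ⟩
  by_contra hc
  push Not at hc
  have h3 : ρ ^ J < x ^ J := pow_lt_pow_left₀ hc hρ0.le hJ0
  have h4 : lam ^ 2 ≤ ρ ^ J := by
    rw [hρJ]
    exact h.eb_ge
  have := h.xJ
  linarith

theorem Sb.W (h : Sb d L Cs A g0 bq J Q N2 lam E δ0 s0 x) :
    (L : ℝ) ^ d ≤ 1 / lam ^ N2 ∧ (L : ℝ) ^ d / (eb lam x) ^ 2 ≤ 1 / lam ^ (N2 + 4) := by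
  have hl := h.lam0
  have hη := h.eb0
  have h1 : (L : ℝ) ^ d ≤ 1 / lam ^ N2 := by
    rw [le_div_iff₀ (by positivity)]
    exact h.Lhi
  refine ⟨h1, ?_⟩
  have h2 : (lam ^ 2) ^ 2 ≤ (eb lam x) ^ 2 := by
    have := h.eb_ge
    gcongr
  calc (L : ℝ) ^ d / (eb lam x) ^ 2 ≤ (1 / lam ^ N2) / (lam ^ 2) ^ 2 := by gcongr
    _ = _ := by
        rw [pow_add, ← pow_mul]
        field_simp

theorem Sb.xbq (h : Sb d L Cs A g0 bq J Q N2 lam E δ0 s0 x) :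
    x ^ (3 * 2 ^ bq) ≤ lam ^ (6 * Q) ∧ x ^ (2 ^ bq) ≤ lam ^ (2 * Q) := by
  have hb := h.hb
  have e1 : 2 ^ bq = 2 * 2 ^ (bq - 1) := by
    rw [← pow_succ']
    congr 1
    omega
  have h1 := h.xb
  have h0 : 0 ≤ x ^ (2 ^ (bq - 1)) := by
    have := h.x0
    positivity
  constructor
  · rw [e1]
    have h2 := pow_le_pow_left₀ h0 h1 6
    rw [← pow_mul, ← pow_mul] at h2
    have e2 : 3 * (2 * 2 ^ (bq - 1)) = 2 ^ (bq - 1) * 6 := by ring
    rw [e2, mul_comm 6 Q]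
    exact h2
  · rw [e1]
    have h2 := pow_le_pow_left₀ h0 h1 2
    rw [← pow_mul, ← pow_mul] at h2
    rw [mul_comm 2 (2 ^ (bq - 1)), mul_comm 2 Q]
    exact h2

theorem Sb.B (h : Sb d L Cs A g0 bq J Q N2 lam E δ0 s0 x) (ρ : ℝ) (hρ : x ≤ ρ) :
    1 / x * A / ρ ^ 2 ≤ A / x ^ 3 ∧
      lam ^ 2 * (1 / x * A / ρ ^ 2) / eb lam x ≤ A * x ^ 5 ∧
      lam ^ 2 * A / (ρ ^ 3 * eb lam x) ≤ A * x ^ 5 := by
  have hx := h.x0
  have hl := h.lam0
  have hη := h.eb0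
  have hA0 : 0 < A := by linarith [h.A1]
  have hρ0 : 0 < ρ := lt_of_lt_of_le hx hρ
  refine ⟨?_, ?_, ?_⟩
  · calc 1 / x * A / ρ ^ 2 ≤ 1 / x * A / x ^ 2 := by gcongr
      _ = A / x ^ 3 := by field_simp
  · calc lam ^ 2 * (1 / x * A / ρ ^ 2) / eb lam x ≤ lam ^ 2 * (1 / x * A / x ^ 2) / eb lam x := by
          gcongr
      _ = A * x ^ 5 := by
          unfold eb
          field_simp
  · calc lam ^ 2 * A / (ρ ^ 3 * eb lam x) ≤ lam ^ 2 * A / (x ^ 3 * eb lam x) := by gcongr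
      _ = A * x ^ 5 := by
          unfold eb
          field_simp

end

/-- **the hypotheses of the descent hold** -/
theorem bb_ok {d L : ℕ} [NeZero L] (μ : Measure ℝ) [IsProbabilityMeasure μ]
    (hμ : μ (Set.Icc (-1) 1)ᶜ = 0) {Cs A : ℝ}
    {g0 bq J Q N2 : ℕ} {lam E δ0 s0 x : ℝ} (h : Sb d L Cs A g0 bq J Q N2 lam E δ0 s0 x) :
    ∃ ρ, x ≤ ρ ∧ ρ ^ J = eb lam x ∧ Bb d L μ Cs A g0 bq J lam E δ0 s0 ρ (1 / x)
      ((J + 1) * (L : ℝ) ^ d * K0 g0 / (1 / x) ^ (3 * 2 ^ bq)) x := by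
  obtain ⟨ρ, hρ0, hρ1, hρx, hρe⟩ := h.rho
  refine ⟨ρ, hρx, hρe, ?_⟩
  have hx := h.x0
  have hl := h.lam0
  have hη := h.eb0
  have hA1 := h.A1
  have hA0 : 0 < A := by linarith
  have hK := K0_ge g0
  have hK0 : 0 < K0 g0 := by linarith
  have hCs := h.Cs1
  have hl1 := h.lam1
  have hlx1 := h.lx1
  have hL := L_pos (L := L)
  obtain ⟨b1, b2, b3⟩ := h.B ρ hρx
  obtain ⟨w1, w2⟩ := h.W
  obtain ⟨x1, x2⟩ := h.xbq
  have hQ := h.hQ
  have hx5 : x ^ 5 ≤ x := by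
    calc x ^ 5 ≤ x ^ 1 := pow_le_pow_of_le_one hx.le h.x1 (by norm_num)
      _ = x := pow_one x
  have hlx3 : lam ≤ x ^ 3 := h.lx.trans (pow_le_pow_of_le_one hx.le h.x1 (by norm_num))
  have hAx : A * x ≤ 1 := by
    have h4 := h.z4
    have hJ : (0 : ℝ) ≤ J := Nat.cast_nonneg J
    have h5 : A * x * 1 ≤ A * x * (16 * (J + 2)) := by
      gcongr
      linarith
    linarith
  refine
    { d1 := h.d1
      supp := hμ
      lam0 := hl.le
      lam1 := hl1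
      nr := h.nr
      dd0 := h.dd0
      ll := by linarith [h.z1]
      ss0 := h.ss0
      ss1 := h.ss1
      ss2 := h.ss2
      hA := h.hA
      A1 := hA1
      Eb := h.Eb
      r0 := hρ0
      r1 := hρ1
      L1 := ?_
      hJ := h.hg
      hb := h.hb
      yL := ?_
      hδ := le_rfl
      H1 := ?_
      HT := ?_
      H2 := ?_
      H3 := ?_
      H4b := ?_
      H4c := ?_ }
  · rw [one_le_div hx]
    exact h.x1
  · rw [hρe]
    calc s0 ≤ 1 := h.ss1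
      _ ≤ lam ^ 2 * L := h.Llo
      _ ≤ eb lam x * L := by
          have := h.eb_ge
          gcongr
  · have a2 : lam * 3 ≤ 1 / 8 := by linarith [h.z3]
    have a3 : lam * (2 / ρ * ((J + 2) * (1 / x * A / ρ))) ≤ 1 / 8 := by
      calc lam * (2 / ρ * ((J + 2) * (1 / x * A / ρ))) ≤
          x ^ 16 * (2 / x * ((J + 2) * (1 / x * A / x))) := by
            have := h.lx
            gcongr
        _ = 2 * (J + 2) * A * x ^ 13 := by field_simp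
        _ ≤ 2 * (J + 2) * A * x := by
            have : x ^ 13 ≤ x := by
              calc x ^ 13 ≤ x ^ 1 := pow_le_pow_of_le_one hx.le h.x1 (by norm_num)
                _ = x := pow_one x
            gcongr
        _ ≤ 1 / 8 := by linarith [h.z4]
    rw [mul_add]
    linarith
  · rw [hρe]
    have e0 : ∀ y : ℝ, y / (1 / x) ^ (3 * 2 ^ bq) = y * x ^ (3 * 2 ^ bq) := by
      intro y
      rw [one_div, inv_pow, div_inv_eq_mul]
    rw [e0, e0]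
    have t1 : 4 * lam ^ 2 / (eb lam x) * ((L : ℝ) ^ d / (eb lam x) ^ 2 *
        (1 / x * A / ρ ^ 2 * K0 g0 * x ^ (3 * 2 ^ bq))) ≤ 4 * K0 g0 * lam := by
      calc 4 * lam ^ 2 / (eb lam x) * ((L : ℝ) ^ d / (eb lam x) ^ 2 *
          (1 / x * A / ρ ^ 2 * K0 g0 * x ^ (3 * 2 ^ bq))) ≤
          4 * lam ^ 2 / lam ^ 2 * (1 / lam ^ (N2 + 4) *
            (A / lam * K0 g0 * lam ^ (N2 + 4 + 3))) := by
            have := h.eb_ge
            have x3 : x ^ (3 * 2 ^ bq) ≤ lam ^ (N2 + 4 + 3) :=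
              x1.trans (pow_le_pow_of_le_one hl.le hl1 (by omega))
            have b1' : 1 / x * A / ρ ^ 2 ≤ A / lam := by
              refine b1.trans ?_
              gcongr
            gcongr
        _ = 4 * K0 g0 * (A * lam) * lam := by
            rw [pow_add lam (N2 + 4) 3]
            field_simp
        _ ≤ 4 * K0 g0 * 1 * lam := by
            have : A * lam ≤ 1 := by
              refine le_trans ?_ hAx
              gcongr
            gcongr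
        _ = _ := by ring
    have t2 : 4 * (L : ℝ) ^ d / (eb lam x) ^ 2 *
        ((J + 1) * (L : ℝ) ^ d * K0 g0 * x ^ (3 * 2 ^ bq)) ≤ 4 * (J + 1) * K0 g0 * lam := by
      have y2 : x ^ (3 * 2 ^ bq) ≤ lam ^ (N2 + (N2 + 5)) :=
        x1.trans (pow_le_pow_of_le_one hl.le hl1 (by omega))
      have e1 : 4 * (L : ℝ) ^ d / (eb lam x) ^ 2 = 4 * ((L : ℝ) ^ d / (eb lam x) ^ 2) := by ring
      rw [e1]
      calc 4 * ((L : ℝ) ^ d / (eb lam x) ^ 2) *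
          ((J + 1) * (L : ℝ) ^ d * K0 g0 * x ^ (3 * 2 ^ bq)) ≤
          4 * (1 / lam ^ (N2 + 4)) *
            ((J + 1) * (1 / lam ^ N2) * K0 g0 * lam ^ (N2 + (N2 + 5))) := by
            gcongr
        _ = _ := by
            rw [pow_add lam N2 (N2 + 5), show N2 + 5 = (N2 + 4) + 1 by ring,
              pow_add lam (N2 + 4) 1]
            field_simp
    have hlx : lam ≤ x * x := by
      refine h.lx.trans ?_
      calc x ^ 16 ≤ x ^ 2 := pow_le_pow_of_le_one hx.le h.x1 (by norm_num)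
        _ = x * x := by ring
    have z6 := h.z6
    calc _ ≤ 4 * K0 g0 * lam + 4 * (J + 1) * K0 g0 * lam := add_le_add t1 t2
      _ = (4 * K0 g0 + 4 * (J + 1) * K0 g0) * lam := by ring
      _ ≤ (4 * K0 g0 + 4 * (J + 1) * K0 g0) * (x * x) := by gcongr
      _ = ((4 * K0 g0 + 4 * (J + 1) * K0 g0) * x) * x := by ring
      _ ≤ 1 * x := by gcongr
      _ = x := one_mul x
  · rw [hρe]
    have z7 := h.z7
    calc 8 * (4 * lam ^ 2 * (1 / x * A / ρ ^ 2) / eb lam x + DB d * x) =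
        8 * (4 * (lam ^ 2 * (1 / x * A / ρ ^ 2) / eb lam x) + DB d * x) := by ring
      _ ≤ 8 * (4 * (A * x) + DB d * x) := by
          have : A * x ^ 5 ≤ A * x := by gcongr
          have := b2.trans this
          gcongr
      _ = 8 * (4 * A + DB d) * x := by ring
      _ ≤ _ := z7
  · rw [hρe]
    have z8 := h.z8
    calc Cs * (2 * K0 g0) * (lam ^ 2 * A / (ρ ^ 3 * eb lam x)) ≤
        Cs * (2 * K0 g0) * (A * x) := by
          have : A * x ^ 5 ≤ A * x := by gcongr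
          have := b3.trans this
          gcongr
      _ = 1 / 2 * (4 * Cs * K0 g0 * A * x) := by ring
      _ ≤ 1 / 2 * 1 := by gcongr
      _ = 1 / 2 := by norm_num
  · rw [hρe]
    have x3 : x ^ (2 ^ bq) ≤ lam ^ (N2 + 4) :=
      x2.trans (pow_le_pow_of_le_one hl.le hl1 (by omega))
    refine w2.trans ?_
    rw [one_div_pow]
    have h1 : 1 ≤ A ^ 2 := one_le_pow₀ hA1
    calc 1 / lam ^ (N2 + 4) ≤ 1 / x ^ (2 ^ bq) := by gcongr
      _ = 1 * (1 / x ^ (2 ^ bq)) := (one_mul _).symm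
      _ ≤ A ^ 2 * (1 / x ^ (2 ^ bq)) := by gcongr
  · have hxb : x ^ (2 ^ (bq - 1)) ≤ lam ^ (N2 + 1) :=
      h.xb.trans (pow_le_pow_of_le_one hl.le hl1 (by omega))
    have z9 : 4 * Cs * (J + 1) * K0 g0 * lam ≤ 1 := by
      refine le_trans ?_ h.z9
      gcongr
    rw [one_div_pow]
    have h5 : 1 / lam ^ (N2 + 1) ≤ 1 / x ^ (2 ^ (bq - 1)) := by gcongr
    calc Cs * ((J + 1) * (L : ℝ) ^ d * K0 g0) ≤ Cs * ((J + 1) * (1 / lam ^ N2) * K0 g0) := by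
          gcongr
      _ = 1 / 4 * (4 * Cs * (J + 1) * K0 g0 * lam) * (1 / lam ^ (N2 + 1)) := by
          rw [pow_succ]
          field_simp
      _ ≤ 1 / 4 * 1 * (1 / x ^ (2 ^ (bq - 1))) := by gcongr
      _ = _ := by ring

/-- **one energy** -/
theorem one_e_b {d L : ℕ} [NeZero L] (μ : Measure ℝ) [IsProbabilityMeasure μ]
    (hμ : μ (Set.Icc (-1) 1)ᶜ = 0) {Cs A : ℝ} {g0 bq J Q N2 : ℕ} {lam E δ0 s0 x : ℝ}
    (h : Sb d L Cs A g0 bq J Q N2 lam E δ0 s0 x)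
    (hRC : ND.RCb d Cs g0) (N : ℕ) (hN : 1 ≤ N)
    (z10 : (4 * A + 1 + 32 * (N : ℝ) ^ 2 * A) * x ≤ 1) (z11 : 100 * x ≤ δ0) (z12 : 100 * x ≤ 1) :
    ∃ S : Set (T d L → ℝ), MeasurableSet S ∧ (Measure.pi fun _ : T d L => μ).real Sᶜ ≤
      ((L : ℝ) ^ d * (x ^ 4) ^ N + N * (32 * (N : ℝ) ^ 2 * ((L : ℝ) ^ d) ^ 2 * (2 ^ N) ^ 2 *
        ((J + 1) * (L : ℝ) ^ d * K0 g0 / (1 / x) ^ (3 * 2 ^ bq)))) / x ^ N ∧
      ∀ V ∈ S, ∀ (ψ : XT d L) (E' r : ℝ), 0 ≤ r →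
        ‖HC lam V ψ - ((E' : ℝ) : ℂ) • ψ‖ ≤ r * eb lam x → ‖ψ‖ = 1 →
        |E' - E| ≤ eb lam x / 2 → ∀ (R : ℕ) (x0 : T d L),
        ‖rs (fun y => nn (y - x0) ≤ R) ψ‖ ^ 2 ≤
          8 * (d : ℝ) ^ 2 * ((2 * R + 1) * (4 * eb lam x / s0 + 1 / L)) +
            48 * (x + r ^ 2) := by
  set P : Measure (T d L → ℝ) := Measure.pi fun _ : T d L => μ with hP
  have hx := h.x0
  have hx1 := h.x1
  have hl := h.lam0
  have hA := h.A1
  have hA0 : 0 < A := by linarith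
  have hη := h.eb0
  obtain ⟨ρ, hρx, hρe, hB⟩ := bb_ok μ hμ h
  have hρ0 := hB.r0
  have hρ1 := hB.r1
  obtain ⟨hvar, O, hOm, hOP, hO⟩ := descent_b hB h.Cs1 hRC h.J1
  have hcx := next_cb hB J le_rfl hvar
  set z := zb E ρ J with hzd
  have hzi : z.im = ρ ^ J := zb_im _ _ _
  have hze : z.im = eb lam x := hzi.trans hρe
  have hzr : z.re = E := zb_re _ _ _
  have hz0 : 0 < z.im := by rw [hze]; exact hη
  obtain ⟨s, hs⟩ : ∃ s, s = 4 * lam ^ 2 * (1 / x * A / ρ ^ 2) / ρ ^ J := ⟨_, rfl⟩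
  rw [← hs] at hvar hcx
  obtain ⟨b1, hb, b3⟩ := h.B ρ hρx
  have hs1 : s ≤ 4 * A * x ^ 5 := by
    rw [hs, hρe]
    calc 4 * lam ^ 2 * (1 / x * A / ρ ^ 2) / eb lam x =
        4 * (lam ^ 2 * (1 / x * A / ρ ^ 2) / eb lam x) := by ring
      _ ≤ 4 * (A * x ^ 5) := by gcongr
      _ = _ := by ring
  have hs0 : 0 < s := by
    rw [hs]
    positivity
  obtain ⟨K, hK⟩ : ∃ K, K = 16 * lam ^ 2 * (1 / x * A / ρ) / z.im := ⟨_, rfl⟩
  have hK0 : 0 ≤ K := by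
    rw [hK]
    positivity
  have hK1 : K ≤ 16 * A * x ^ 5 := by
    rw [hK, hze]
    have h1 : 1 / x * A / ρ ≤ 1 / x * A / ρ ^ 2 := by
      have : ρ ^ 2 ≤ ρ := by nlinarith
      gcongr
    calc 16 * lam ^ 2 * (1 / x * A / ρ) / eb lam x ≤
        16 * lam ^ 2 * (1 / x * A / ρ ^ 2) / eb lam x := by gcongr
      _ = 16 * (lam ^ 2 * (1 / x * A / ρ ^ 2) / eb lam x) := by ring
      _ ≤ 16 * (A * x ^ 5) := by gcongr
      _ = _ := by ring
  have hxe : x * z.im ^ 2 ≤ x ^ 5 := by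
    rw [hze]
    have h2 := h.eb_le
    calc x * eb lam x ^ 2 ≤ x * (x ^ 8) ^ 2 := by gcongr
      _ = x ^ 17 := by ring
      _ ≤ x ^ 5 := pow_le_pow_of_le_one hx.le h.x1 (by norm_num)
  have hS := conc μ (Fo μ lam z) (Fo_cont μ lam hz0) (Fo_sa μ lam hz0) (Fo_norm μ lam hz0) hμ O hOm
    (s + x * z.im ^ 2) K (x ^ 4) (by positivity) hK0
    (Fo_var μ lam hz0 s x hs0.le hx.le hvar)
    (fun V hV c hc u => by
      obtain ⟨o1, o2, o3⟩ := hO V hV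
      rw [hK]
      exact Fo_sf μ lam hl.le hz0 V o1 o2 _ o3 c (abs_le.2 hc) u) N hN (by
      calc s + x * z.im ^ 2 + 2 * (N : ℝ) ^ 2 * K ≤
          4 * A * x ^ 5 + x ^ 5 + 2 * (N : ℝ) ^ 2 * (16 * A * x ^ 5) := by gcongr
        _ = ((4 * A + 1 + 32 * (N : ℝ) ^ 2 * A) * x) * x ^ 4 := by ring
        _ ≤ 1 * x ^ 4 := by gcongr
        _ = x ^ 4 := one_mul _) (pow_le_one₀ hx.le hx1) (√x) (Real.sqrt_pos.2 hx)
  obtain ⟨S, hSm, hSP, hS⟩ := hS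
  rw [Real.sq_sqrt hx.le] at hSP
  refine ⟨S, hSm, ?_, ?_⟩
  · refine hSP.trans ?_
    have := hOP
    gcongr
  · intro V hV ψ E' r hr0 hE hψ hc R x0
    have hF := hS V hV ψ hψ
    rw [Real.sq_sqrt hx.le] at hF
    have h1 := eig_cube_b hcx hzi h.d1 E δ0 s0 hzr h.nr h.dd0 (by
        rw [hρe]
        have h1 := h.eb_le
        have h2 : x ^ 8 ≤ x := by
          calc x ^ 8 ≤ x ^ 1 := pow_le_pow_of_le_one hx.le h.x1 (by norm_num)
            _ = x := pow_one x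
        have h3 := h.lx1
        linarith) h.ss2 h.ss0 h.ss1 (by
        rw [hs]
        exact hB.H2) V ψ E' r hr0 (by rw [hρe]; exact hE) hψ (by
        rw [hzr, hρe]
        exact hc) x hF R x0
    rw [hρe] at h1
    exact h1

end Pool.Agent.V8H95.BK
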