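import Pool.Agent.V8H95.NM.Cnt

/-!
The renormalised symbol at energies inside the spectrum.
-/

set_option autoImplicit false
set_option linter.unusedSectionVars false
set_option linter.unusedVariables false

open Complex MeasureTheory
open scoped BigOperators ComplexConjugate

namespace Pool.Agent.V8H95.BK

open Pool.Agent.H4R2.AE Pool.Agent.V8H99.AD Pool.Agent.V8H95.MF Pool.Agent.V8H95.BW
open Pool.Agent.V8H95.EF Pool.Agent.V8H95.NM

variable {d L : ℕ} [NeZero L]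

/-- almost all potentials are bounded by one -/
theorem ae_V (μ : Measure ℝ) [IsProbabilityMeasure μ] (hμ : μ (Set.Icc (-1) 1)ᶜ = 0) :
    ∀ᵐ V ∂(Measure.pi fun _ : T d L => μ), ∀ x, |V x| ≤ 1 := by
  rw [ae_all_iff]
  intro x
  have h1 : ∀ᵐ v ∂μ, |v| ≤ 1 := by
    rw [ae_iff]
    have e : {a : ℝ | ¬ |a| ≤ 1} = (Set.Icc (-1) 1)ᶜ := by
      ext a
      simp only [Set.mem_ofPred_eq, Set.mem_compl_iff, Set.mem_Icc, abs_le]
    rw [e]
    exact hμ
  exact (Measure.quasiMeasurePreserving_eval (fun _ : T d L => μ) x).ae h1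

/-- the assumptions at one energy -/
structure Cb (μ : Measure ℝ) (d L : ℕ) [NeZero L] (lam : ℝ) (z : ℂ) (y σ : ℝ) : Prop where
  supp : μ (Set.Icc (-1) 1)ᶜ = 0
  lam0 : 0 ≤ lam
  y0 : 0 < y
  im : |z.im| = y
  s0 : 0 ≤ σ
  s1 : σ ≤ 1 / 2
  hs : ∀ k : T d L, sk μ lam z k ≤ σ * Dk μ lam z k
  pos : ∀ k : T d L, 0 < Dk μ lam z k

/-- the kinetic energy of a plane wave -/
theorem Bf_pw (k x : T d L) : Bf (fun y => (pw k) y) x = ((kq k : ℝ) : ℂ) * (pw k) x := by
  unfold Bf kq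
  rw [Complex.ofReal_sum, Finset.sum_mul]
  refine Finset.sum_congr rfl fun i _ => ?_
  obtain ⟨h1, h2⟩ := ch_re_im k i
  have e1 : (pw k) (x + Pi.single i 1) = (pw k) x * ch k (Pi.single i 1) := by
    rw [pw_apply, pw_apply, ch_add]
  have e2 : (pw k) (x - Pi.single i 1) = (pw k) x * conj (ch k (Pi.single i 1)) := by
    rw [pw_apply, pw_apply, ch_sub]
  have e3 : ch k (Pi.single i 1) + conj (ch k (Pi.single i 1)) =
      ((2 * (ch k (Pi.single i 1)).re : ℝ) : ℂ) := Complex.add_conj _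
  show 2 * (pw k) x - (pw k) (x + Pi.single i 1) - (pw k) (x - Pi.single i 1) =
    ((k1q k i : ℝ) : ℂ) * (pw k) x
  rw [e1, e2, h2]
  push_cast
  push_cast at e3
  linear_combination (-(pw k) x) * e3

/-- the potential part -/
theorem HC_pw (lam : ℝ) (hlam : 0 ≤ lam) (V : T d L → ℝ) (hV : ∀ x, |V x| ≤ 1) (k : T d L) :
    ‖HC lam V (pw k) - ((kq k : ℝ) : ℂ) • pw k‖ ≤ lam * ‖pw k‖ := by
  have h1 : ‖HC lam V (pw k) - ((kq k : ℝ) : ℂ) • pw k‖ ^ 2 ≤ (lam * ‖pw k‖) ^ 2 := by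
    rw [mul_pow, EuclideanSpace.norm_sq_eq, EuclideanSpace.norm_sq_eq, Finset.mul_sum]
    refine Finset.sum_le_sum fun x _ => ?_
    have e : (HC lam V (pw k) - ((kq k : ℝ) : ℂ) • pw k) x = ((lam * V x : ℝ) : ℂ) * (pw k) x := by
      rw [PiLp.sub_apply, PiLp.smul_apply, HC_apply, Bf_pw, smul_eq_mul]
      ring
    rw [e, norm_mul, Complex.norm_real, Real.norm_eq_abs, abs_mul, abs_of_nonneg hlam, mul_pow,
      mul_pow]
    have h2 : |V x| ^ 2 ≤ 1 := pow_le_one₀ (abs_nonneg _) (hV x)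
    have h3 : 0 ≤ lam ^ 2 * ‖(pw k) x‖ ^ 2 := by positivity
    nlinarith
  exact (abs_le.1 (abs_le_of_sq_le_sq h1 (by positivity))).2

section
variable {μ : Measure ℝ} [IsProbabilityMeasure μ] {lam : ℝ} {z : ℂ} {y σ : ℝ}

theorem Cb.ne (h : Cb μ d L lam z y σ) : z.im ≠ 0 := by
  intro h0
  have h1 := h.im
  rw [h0, abs_zero] at h1
  have := h.y0
  linarith

theorem Cb.conj (h : Cb μ d L lam z y σ) : Cb μ d L lam (conj z) y σ :=
  { h with
    im := by rw [Complex.conj_im, abs_neg]; exact h.im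
    hs := fun k => by rw [sk_conj μ lam h.ne, Dk_conj μ lam h.ne]; exact h.hs k
    pos := fun k => by rw [Dk_conj μ lam h.ne]; exact h.pos k }

theorem norm_int_b (h : Cb μ d L lam z y σ) (k : T d L) :
    ‖pw k‖ * ∫ V, ‖GT lam V z (pw k)‖ ∂(Measure.pi fun _ : T d L => μ) ≤
      (L : ℝ) ^ d * √(Dk μ lam z k) := by
  set P : Measure (T d L → ℝ) := Measure.pi fun _ : T d L => μ with hP
  have h1 := sq_int_le P (fun V => ‖GT lam V z (pw k)‖) (GTf_cont lam h.ne (pw k)).measurable.norm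
    (‖pw k‖ / |z.im|) (fun V => by rw [abs_norm]; exact GT_norm' lam h.ne V (pw k))
  rw [D_eq μ lam h.ne] at h1
  have h2 : ∫ V, ‖GT lam V z (pw k)‖ ∂P ≤ √((L : ℝ) ^ d * Dk μ lam z k) := Real.le_sqrt_of_sq_le h1
  have h3 : ‖pw k‖ = √((L : ℝ) ^ d) := by
    rw [← pw_norm k, Real.sqrt_sq (norm_nonneg _)]
  have h4 := L_pos' (d := d) (L := L)
  calc ‖pw k‖ * ∫ V, ‖GT lam V z (pw k)‖ ∂P ≤ √((L : ℝ) ^ d) * √((L : ℝ) ^ d * Dk μ lam z k) := by
        rw [h3]
        gcongr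
    _ = (L : ℝ) ^ d * √(Dk μ lam z k) := by
        rw [Real.sqrt_mul h4.le, ← mul_assoc, Real.mul_self_sqrt h4.le]

theorem mean_test_b (h : Cb μ d L lam z y σ) (k : T d L) :
    ‖(((kq k : ℝ) : ℂ) - z) * mk μ lam z k - 1‖ ≤ lam * √(Dk μ lam z k) := by
  set P : Measure (T d L → ℝ) := Measure.pi fun _ : T d L => μ with hP
  have hL := L_pos' (d := d) (L := L)
  have hne := h.ne
  have hi1 : Integrable (fun V : T d L → ℝ =>
      (((kq k : ℝ) : ℂ) - z) * inner ℂ (pw k) (GT lam V z (pw k))) P :=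
    (inner_int μ lam hne (pw k) (pw k)).const_mul _
  have hI : ∫ V, ((((kq k : ℝ) : ℂ) - z) * inner ℂ (pw k) (GT lam V z (pw k)) - (L : ℂ) ^ d) ∂P =
      (L : ℂ) ^ d * ((((kq k : ℝ) : ℂ) - z) * mk μ lam z k - 1) := by
    rw [integral_sub hi1 (integrable_const _), integral_const_mul, inner_mean μ lam hne]
    simp
    ring
  have hpt : ∀ᵐ V ∂P,
      ‖(((kq k : ℝ) : ℂ) - z) * inner ℂ (pw k) (GT lam V z (pw k)) - (L : ℂ) ^ d‖ ≤
      lam * (‖pw k‖ * ‖GT lam V z (pw k)‖) := by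
    filter_upwards [ae_V (d := d) (L := L) μ h.supp] with V hV
    have h1 := rg_left (HC_sa lam V) hne (pw k)
    have h2 : (inner ℂ (pw k) (pw k) : ℂ) = inner ℂ (HC lam V (pw k)) (GT lam V z (pw k)) -
        z * inner ℂ (pw k) (GT lam V z (pw k)) := by
      have h3 : (inner ℂ (pw k) (HC lam V (RG (HC lam V) z (pw k)) - z • RG (HC lam V) z (pw k)) : ℂ) =
          inner ℂ (pw k) (pw k) := by rw [h1]
      rw [← h3, inner_sub_right, inner_smul_right, ← HC_symm]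
      rfl
    have e : (((kq k : ℝ) : ℂ) - z) * inner ℂ (pw k) (GT lam V z (pw k)) - (L : ℂ) ^ d =
        -inner ℂ (HC lam V (pw k) - ((kq k : ℝ) : ℂ) • pw k) (GT lam V z (pw k)) := by
      rw [← pw_inner k, h2, inner_sub_left, inner_smul_left, Complex.conj_ofReal]
      ring
    rw [e, norm_neg]
    refine (norm_inner_le_norm _ _).trans ?_
    have := HC_pw lam h.lam0 V hV k
    calc ‖HC lam V (pw k) - ((kq k : ℝ) : ℂ) • pw k‖ * ‖GT lam V z (pw k)‖ ≤
        (lam * ‖pw k‖) * ‖GT lam V z (pw k)‖ := by gcongr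
      _ = _ := by ring
  have i1 : Integrable (fun V : T d L → ℝ => ‖GT lam V z (pw k)‖) P := (GTi μ lam hne (pw k)).norm
  have i2 : Integrable (fun V : T d L → ℝ => lam * (‖pw k‖ * ‖GT lam V z (pw k)‖)) P :=
    (i1.const_mul _).const_mul _
  have h1 := norm_integral_le_of_norm_le i2 hpt
  rw [hI, integral_const_mul, integral_const_mul] at h1
  have h2 := norm_int_b h k
  have h3 : ‖(L : ℂ) ^ d * ((((kq k : ℝ) : ℂ) - z) * mk μ lam z k - 1)‖ ≤
      lam * ((L : ℝ) ^ d * √(Dk μ lam z k)) := by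
    refine h1.trans ?_
    have := h.lam0
    gcongr
  rw [norm_mul, norm_pow, Complex.norm_natCast] at h3
  have h5 : (L : ℝ) ^ d * ‖(((kq k : ℝ) : ℂ) - z) * mk μ lam z k - 1‖ ≤
      (L : ℝ) ^ d * (lam * √(Dk μ lam z k)) := by
    refine h3.trans (le_of_eq (by ring))
  exact le_of_mul_le_mul_left h5 hL

theorem D_two_b (h : Cb μ d L lam z y σ) (k : T d L) :
    Dk μ lam z k ≤ 2 * ‖mk μ lam z k‖ ^ 2 := by
  have h1 := h.hs k
  have h2 : sk μ lam z k = Dk μ lam z k - ‖mk μ lam z k‖ ^ 2 := rfl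
  have h3 : σ * Dk μ lam z k ≤ 1 / 2 * Dk μ lam z k := by
    have := h.s1
    have := (h.pos k).le
    gcongr
  linarith

theorem m_pos_b (h : Cb μ d L lam z y σ) (k : T d L) : 0 < ‖mk μ lam z k‖ := by
  have h1 := D_two_b h k
  have h2 := h.pos k
  by_contra h3
  have h4 : ‖mk μ lam z k‖ = 0 := le_antisymm (not_lt.1 h3) (norm_nonneg _)
  rw [h4] at h1
  norm_num at h1
  linarith

theorem m_ne_b (h : Cb μ d L lam z y σ) (k : T d L) : mk μ lam z k ≠ 0 :=
  norm_pos_iff.1 (m_pos_b h k)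

theorem F_close_b (h : Cb μ d L lam z y σ) (k : T d L) :
    ‖Fk μ lam z k - (z - ((kq k : ℝ) : ℂ))‖ ≤ 3 / 2 * lam := by
  have h1 := mean_test_b h k
  set M := mk μ lam z k with hM
  have hM0 : M ≠ 0 := m_ne_b h k
  have hMp : 0 < ‖M‖ := m_pos_b h k
  have e1 : Fk μ lam z k - (z - ((kq k : ℝ) : ℂ)) = ((((kq k : ℝ) : ℂ) - z) * M - 1) / M := by
    unfold Fk
    rw [← hM]
    field_simp
    ring
  have h2 : √(Dk μ lam z k) ≤ 3 / 2 * ‖M‖ := by
    apply Real.sqrt_le_iff.2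
    refine ⟨by positivity, ?_⟩
    have := D_two_b h k
    rw [← hM] at this
    nlinarith [sq_nonneg ‖M‖]
  rw [e1, norm_div, div_le_iff₀ hMp]
  refine h1.trans ?_
  have := h.lam0
  calc lam * √(Dk μ lam z k) ≤ lam * (3 / 2 * ‖M‖) := by gcongr
    _ = _ := by ring

theorem F_lower_b (h : Cb μ d L lam z y σ) (k : T d L) : y ≤ ‖Fk μ lam z k‖ := by
  have hne := h.ne
  have hMp := m_pos_b h k
  have h1 : |(Fk μ lam z k).im| = y * Dk μ lam z k / ‖mk μ lam z k‖ ^ 2 := by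
    unfold Fk
    rw [Complex.neg_im, Complex.inv_im, im_mk μ lam hne, Complex.normSq_eq_norm_sq, abs_neg,
      abs_div, abs_neg, abs_mul, h.im, abs_of_pos (h.pos k), abs_of_pos (by positivity :
        (0 : ℝ) < ‖mk μ lam z k‖ ^ 2)]
  refine le_trans ?_ (Complex.abs_im_le_norm _)
  rw [h1, le_div_iff₀ (by positivity)]
  have h2 := mk_norm_sq μ lam hne k
  have := h.y0
  gcongr

theorem m_up_b (h : Cb μ d L lam z y σ) (k : T d L) :
    |(mk μ lam z k).im| ≤ 2 * y / ‖Fk μ lam z k‖ ^ 2 := by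
  have hMp := m_pos_b h k
  rw [im_mk μ lam h.ne, abs_mul, h.im, abs_of_pos (h.pos k), F_norm, one_div, inv_pow,
    div_inv_eq_mul]
  have h2 := D_two_b h k
  have := h.y0
  nlinarith

/-- the centred integrand is bilinear in the fluctuations -/
theorem Phi_eq (lam : ℝ) (z : ℂ) (k : T d L) (i : Fin d) (n : ZMod L) (V : T d L → ℝ) :
    Phi μ lam z k i n V = NN i (ch (Pi.single i n : T d L) (Pi.single i 1) - 1)
      (GT lam V (conj z) (pw k) - conj (mk μ lam z k) • pw k)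
      (Tw (Pi.single i n) (GT lam V z (pw (k + Pi.single i n))) -
        mk μ lam z (k + Pi.single i n) • pw k) := by
  have h1 := NN_expand k i n (conj (mk μ lam z k)) (mk μ lam z (k + Pi.single i n))
    (GT lam V (conj z) (pw k) - conj (mk μ lam z k) • pw k)
    (Tw (Pi.single i n) (GT lam V z (pw (k + Pi.single i n))) -
        mk μ lam z (k + Pi.single i n) • pw k)
  rw [add_sub_cancel, add_sub_cancel, Complex.conj_conj] at h1
  unfold Phi
  rw [h1]
  ring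

theorem NN_le (i : Fin d) (c : ℂ) (a b : XT d L) : ‖NN i c a b‖ ≤ 2 * ‖c‖ * (‖a‖ * ‖b‖) := by
  unfold NN
  refine (norm_add_le _ _).trans ?_
  rw [norm_mul, norm_mul, Complex.norm_conj]
  have h1 : ‖(inner ℂ a (Sh i b) : ℂ)‖ ≤ ‖a‖ * ‖b‖ := by
    refine (norm_inner_le_norm _ _).trans ?_
    rw [Sh_norm]
  have h2 : ‖(inner ℂ (Sh i a) b : ℂ)‖ ≤ ‖a‖ * ‖b‖ := by
    refine (norm_inner_le_norm _ _).trans ?_
    rw [Sh_norm]
  have h3 := norm_nonneg c
  nlinarith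

theorem phi_cont_b (h : Cb μ d L lam z y σ) (k : T d L) (i : Fin d) (n : ZMod L) :
    Continuous (Phi μ lam z k i n) := by
  have h1 := GTf_cont (d := d) (L := L) lam h.conj.ne (pw k)
  have h2 := (Tw (Pi.single i n : T d L)).continuous.comp
    (GTf_cont (d := d) (L := L) lam h.ne (pw (k + Pi.single i n)))
  unfold Phi NN
  refine Continuous.add (Continuous.add ?_ ?_) ?_
  · exact continuous_const.mul (h1.inner ((Sh i).continuous.comp h2))
  · exact continuous_const.mul (((Sh i).continuous.comp h1).inner h2)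
  · refine continuous_const.mul (Continuous.add (Continuous.add continuous_const ?_) ?_)
    · exact continuous_const.mul (continuous_const.inner (h2.sub continuous_const))
    · exact continuous_const.mul ((h1.sub continuous_const).inner continuous_const)

theorem phi_mean_b (h : Cb μ d L lam z y σ) (k : T d L) (i : Fin d) (n : ZMod L) :
    ∫ V, Phi μ lam z k i n V ∂(Measure.pi fun _ : T d L => μ) =
      (L : ℂ) ^ d * (mk μ lam z (k + Pi.single i n) - mk μ lam z k +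
        mk μ lam z k * mk μ lam z (k + Pi.single i n) *
          ((kq (k + Pi.single i n) - kq k : ℝ) : ℂ)) := by
  set P : Measure (T d L → ℝ) := Measure.pi fun _ : T d L => μ with hP
  have hne := h.ne
  have hne' := h.conj.ne
  set q : T d L := Pi.single i n with hq
  set p : T d L := k + q with hpd
  set α := mk μ lam z k with hα
  set β := mk μ lam z p with hβ
  have e0 : ∀ V : T d L → ℝ, Phi μ lam z k i n V =
      ((inner ℂ (pw p) (GT lam V z (pw p)) : ℂ) - inner ℂ (pw k) (GT lam V z (pw k))) +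
      ((kq p - kq k : ℝ) : ℂ) * (α * β * (L : ℂ) ^ d +
        α * (inner ℂ (pw p) (GT lam V z (pw p)) - β * (L : ℂ) ^ d) +
        β * (inner ℂ (pw k) (GT lam V z (pw k)) - α * (L : ℂ) ^ d)) := by
    intro V
    have h1 := res_id lam hne V k i n
    rw [← hq, ← hpd] at h1
    unfold Phi
    rw [← hq, ← hpd, ← hα, ← hβ, ← h1]
    have h2 : (inner ℂ (pw k) (Tw q (GT lam V z (pw p)) - β • pw k) : ℂ) =
        inner ℂ (pw p) (GT lam V z (pw p)) - β * (L : ℂ) ^ d := by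
      rw [inner_sub_right, inner_smul_right, pw_inner, inner_Tw]
    have h3 : (inner ℂ (GT lam V (conj z) (pw k) - conj α • pw k) (pw k) : ℂ) =
        inner ℂ (pw k) (GT lam V z (pw k)) - α * (L : ℂ) ^ d := by
      have h4 : (inner ℂ (GT lam V (conj z) (pw k)) (pw k) : ℂ) =
          inner ℂ (pw k) (GT lam V z (pw k)) := rg_adj (HC_sa lam V) hne (pw k) (pw k)
      rw [inner_sub_left, inner_smul_left, pw_inner, h4, Complex.conj_conj]
    rw [h2, h3]
  simp only [e0]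
  have i1 := inner_int μ lam hne (pw p) (pw p)
  have i2 := inner_int μ lam hne (pw k) (pw k)
  have E1 := inner_mean μ lam hne p
  have E2 := inner_mean μ lam hne k
  have e5 : ∀ V : T d L → ℝ,
      ((inner ℂ (pw p) (GT lam V z (pw p)) : ℂ) - inner ℂ (pw k) (GT lam V z (pw k))) +
      ((kq p - kq k : ℝ) : ℂ) * (α * β * (L : ℂ) ^ d +
        α * (inner ℂ (pw p) (GT lam V z (pw p)) - β * (L : ℂ) ^ d) +
        β * (inner ℂ (pw k) (GT lam V z (pw k)) - α * (L : ℂ) ^ d)) =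
      ((1 + ((kq p - kq k : ℝ) : ℂ) * α) * inner ℂ (pw p) (GT lam V z (pw p)) +
       (-1 + ((kq p - kq k : ℝ) : ℂ) * β) * inner ℂ (pw k) (GT lam V z (pw k))) -
       ((kq p - kq k : ℝ) : ℂ) * (α * β * (L : ℂ) ^ d) := fun V => by ring
  simp only [e5]
  have i3 : Integrable (fun V : T d L → ℝ => (1 + ((kq p - kq k : ℝ) : ℂ) * α) *
      inner ℂ (pw p) (GT lam V z (pw p))) P := i1.const_mul _
  have i4 : Integrable (fun V : T d L → ℝ => (-1 + ((kq p - kq k : ℝ) : ℂ) * β) *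
      inner ℂ (pw k) (GT lam V z (pw k))) P := i2.const_mul _
  have i5 : Integrable (fun V : T d L → ℝ => (1 + ((kq p - kq k : ℝ) : ℂ) * α) *
      inner ℂ (pw p) (GT lam V z (pw p)) + (-1 + ((kq p - kq k : ℝ) : ℂ) * β) *
      inner ℂ (pw k) (GT lam V z (pw k))) P := i3.add i4
  rw [integral_sub i5 (integrable_const _), integral_add i3 i4, integral_const_mul,
    integral_const_mul, E1, E2, ← hα, ← hβ]
  simp
  ring

/-- **comparison of two momenta** -/
theorem dif_b (h : Cb μ d L lam z y σ) (k : T d L) (i : Fin d) (n : ZMod L) :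
    ‖Fk μ lam z (k + Pi.single i n) - Fk μ lam z k +
        ((kq (k + Pi.single i n) - kq k : ℝ) : ℂ)‖ ≤
      4 * σ * ‖ch (Pi.single i n : T d L) (Pi.single i 1) - 1‖ := by
  set P : Measure (T d L → ℝ) := Measure.pi fun _ : T d L => μ with hP
  have hne := h.ne
  have hne' := h.conj.ne
  have hL := L_pos' (d := d) (L := L)
  set q : T d L := Pi.single i n with hq
  set p : T d L := k + q with hpd
  set c : ℝ := ‖ch q (Pi.single i 1) - 1‖ with hc
  have hc0 : 0 ≤ c := norm_nonneg _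
  set α := mk μ lam z k with hα
  set β := mk μ lam z p with hβ
  have hD1 := h.pos k
  have hD2 := h.pos p
  set S1 := √((L : ℝ) ^ d * Dk μ lam z k) with hS1d
  set S2 := √((L : ℝ) ^ d * Dk μ lam z p) with hS2d
  have hS1 : S1 ^ 2 = (L : ℝ) ^ d * Dk μ lam z k := Real.sq_sqrt (by positivity)
  have hS2 : S2 ^ 2 = (L : ℝ) ^ d * Dk μ lam z p := Real.sq_sqrt (by positivity)
  have hS1p : 0 < S1 := Real.sqrt_pos.2 (by positivity)
  have hS2p : 0 < S2 := Real.sqrt_pos.2 (by positivity)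
  set A2 : ℝ := S1 * S2 * c with hA2
  have hA2n : 0 ≤ A2 := by positivity
  have hpt : ∀ V : T d L → ℝ, ‖Phi μ lam z k i n V‖ ≤
      (A2 / S1 ^ 2 * ‖GT lam V (conj z) (pw k) - conj α • pw k‖ ^ 2 +
        A2 / S2 ^ 2 * ‖GT lam V z (pw p) - β • pw p‖ ^ 2) := by
    intro V
    rw [Phi_eq]
    refine (NN_le _ _ _ _).trans ?_
    rw [← hq, ← hpd, ← hc, ← hα, ← hβ]
    have e : Tw q (GT lam V z (pw p)) - β • pw k = Tw q (GT lam V z (pw p) - β • pw p) := by
      rw [map_sub, map_smul, hpd, Tw_pw]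
    rw [e, Tw_norm]
    set a := ‖GT lam V (conj z) (pw k) - conj α • pw k‖
    set b := ‖GT lam V z (pw p) - β • pw p‖
    have h1 : 2 * (a * b) ≤ S1 * S2 * (a ^ 2 / S1 ^ 2 + b ^ 2 / S2 ^ 2) := by
      have h2 : S1 * S2 * (a ^ 2 / S1 ^ 2 + b ^ 2 / S2 ^ 2) - 2 * (a * b) =
          S1 * S2 * (a / S1 - b / S2) ^ 2 := by
        field_simp
        ring
      have h3 : 0 ≤ S1 * S2 * (a / S1 - b / S2) ^ 2 := by positivity
      linarith
    calc 2 * c * (a * b) = c * (2 * (a * b)) := by ring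
      _ ≤ c * (S1 * S2 * (a ^ 2 / S1 ^ 2 + b ^ 2 / S2 ^ 2)) := by gcongr
      _ = _ := by rw [hA2]; ring
  have sq_int : ∀ (z' : ℂ) (hz' : z'.im ≠ 0) (k' : T d L) (a : ℂ),
      Integrable (fun V : T d L → ℝ => ‖GT lam V z' (pw k') - a • pw k'‖ ^ 2) P := by
    intro z' hz' k' a
    refine int_of P _ (((GTf_cont lam hz' (pw k')).sub continuous_const).norm.pow 2).measurable
      ((‖pw k'‖ / |z'.im| + ‖a • pw k'‖) ^ 2) fun V => ?_
    rw [abs_pow, abs_norm]
    exact pow_le_pow_left₀ (norm_nonneg _) ((norm_sub_le _ _).trans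
      (add_le_add (GT_norm' lam hz' V _) le_rfl)) 2
  have i3 : Integrable (fun V : T d L → ℝ => A2 / S1 ^ 2 *
      ‖GT lam V (conj z) (pw k) - conj α • pw k‖ ^ 2) P := (sq_int _ hne' k _).const_mul _
  have i4 : Integrable (fun V : T d L → ℝ => A2 / S2 ^ 2 *
      ‖GT lam V z (pw p) - β • pw p‖ ^ 2) P := (sq_int _ hne p _).const_mul _
  have h1 := norm_integral_le_of_norm_le (i3.add i4) (Filter.Eventually.of_forall hpt)
  have h2 : ∫ V, (A2 / S1 ^ 2 * ‖GT lam V (conj z) (pw k) - conj α • pw k‖ ^ 2 +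
        A2 / S2 ^ 2 * ‖GT lam V z (pw p) - β • pw p‖ ^ 2) ∂P =
      A2 / S1 ^ 2 * ((L : ℝ) ^ d * sk μ lam (conj z) k) +
        A2 / S2 ^ 2 * ((L : ℝ) ^ d * sk μ lam z p) := by
    have v3 : ∫ V, A2 / S1 ^ 2 * ‖GT lam V (conj z) (pw k) - conj α • pw k‖ ^ 2 ∂P =
        A2 / S1 ^ 2 * ((L : ℝ) ^ d * sk μ lam (conj z) k) := by
      rw [integral_const_mul, hα, ← mk_conj μ lam hne, sk_eq μ lam hne']
    have v4 : ∫ V, A2 / S2 ^ 2 * ‖GT lam V z (pw p) - β • pw p‖ ^ 2 ∂P =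
        A2 / S2 ^ 2 * ((L : ℝ) ^ d * sk μ lam z p) := by
      rw [integral_const_mul, hβ, sk_eq μ lam hne]
    rw [integral_add i3 i4, v3, v4]
  have h3 : ‖(L : ℂ) ^ d * (β - α + α * β * ((kq p - kq k : ℝ) : ℂ))‖ ≤ A2 * σ + A2 * σ := by
    rw [← phi_mean_b h k i n]
    refine h1.trans (le_trans (le_of_eq h2) ?_)
    have w3 : A2 / S1 ^ 2 * ((L : ℝ) ^ d * sk μ lam (conj z) k) ≤ A2 * σ := by
      rw [sk_conj μ lam hne, div_mul_eq_mul_div, div_le_iff₀ (by positivity), mul_assoc A2, hS1]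
      have := h.hs k
      calc A2 * ((L : ℝ) ^ d * sk μ lam z k) ≤ A2 * ((L : ℝ) ^ d * (σ * Dk μ lam z k)) := by
            gcongr
        _ = _ := by ring
    have w4 : A2 / S2 ^ 2 * ((L : ℝ) ^ d * sk μ lam z p) ≤ A2 * σ := by
      rw [div_mul_eq_mul_div, div_le_iff₀ (by positivity), mul_assoc A2, hS2]
      have := h.hs p
      calc A2 * ((L : ℝ) ^ d * sk μ lam z p) ≤ A2 * ((L : ℝ) ^ d * (σ * Dk μ lam z p)) := by
            gcongr
        _ = _ := by ring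
    exact add_le_add w3 w4
  rw [norm_mul, norm_pow, Complex.norm_natCast] at h3
  -- division
  have hMk := m_pos_b h k
  have hMp := m_pos_b h p
  rw [← hα] at hMk
  rw [← hβ] at hMp
  have hα0 : α ≠ 0 := norm_pos_iff.1 hMk
  have hβ0 : β ≠ 0 := norm_pos_iff.1 hMp
  have e1 : Fk μ lam z p - Fk μ lam z k + ((kq p - kq k : ℝ) : ℂ) =
      (β - α + α * β * ((kq p - kq k : ℝ) : ℂ)) / (α * β) := by
    unfold Fk
    rw [← hα, ← hβ]
    field_simp
    ring
  have hSS : S1 * S2 ≤ (L : ℝ) ^ d * (2 * (‖α‖ * ‖β‖)) := by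
    have h5 := D_two_b h k
    have h6 := D_two_b h p
    rw [← hα] at h5
    rw [← hβ] at h6
    have h7 : (S1 * S2) ^ 2 ≤ ((L : ℝ) ^ d * (2 * (‖α‖ * ‖β‖))) ^ 2 := by
      rw [mul_pow, hS1, hS2]
      calc (L : ℝ) ^ d * Dk μ lam z k * ((L : ℝ) ^ d * Dk μ lam z p) ≤
          (L : ℝ) ^ d * (2 * ‖α‖ ^ 2) * ((L : ℝ) ^ d * (2 * ‖β‖ ^ 2)) := by gcongr
        _ = _ := by ring
    exact (abs_le.1 (abs_le_of_sq_le_sq h7 (by positivity))).2
  have hσ := h.s0
  rw [e1, norm_div, norm_mul, div_le_iff₀ (by positivity)]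
  have h4 : (L : ℝ) ^ d * ‖β - α + α * β * ((kq p - kq k : ℝ) : ℂ)‖ ≤
      (L : ℝ) ^ d * (4 * σ * c * (‖α‖ * ‖β‖)) := by
    refine h3.trans ?_
    calc A2 * σ + A2 * σ = S1 * S2 * (2 * c * σ) := by rw [hA2]; ring
      _ ≤ (L : ℝ) ^ d * (2 * (‖α‖ * ‖β‖)) * (2 * c * σ) := by gcongr
      _ = _ := by ring
  exact le_of_mul_le_mul_left h4 hL

end

end Pool.Agent.V8H95.BK
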