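import Pool.Agent.V8H95.BK.Fin
import Pool.Agent.V8H95.ND.Zd

/-!
Solutions in boxes of `ℤ^d`, all energies away from the critical ones.
-/

set_option autoImplicit false
set_option linter.unusedSectionVars false
set_option linter.unusedVariables false

open Complex MeasureTheory
open scoped BigOperators ComplexConjugate

namespace Pool.Agent.V8H95.BK

open Pool.Agent.H4R2.AE Pool.Agent.V8H99.AD Pool.Agent.V8H95.MF Pool.Agent.V8H95.BW
open Pool.Agent.V8H95.EF Pool.Agent.V8H95.NE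

section

variable {d : ℕ}

/-- from the torus to boxes of `ℤ^d`, for one energy -/
theorem box_massE {L : ℕ} [NeZero L] {lam : ℝ} {ω : (Fin d → ℤ) → ℝ} (hω : ∀ x, |ω x| ≤ 1)
    (W R : ℕ) (hL : 4 * W + 2 < L) (hR : 2 * R ≤ W + 1) (E τ M t : ℝ) (ht : 0 < t)
    (hτ : 2 * d / (W + 1) ≤ τ * √t)
    (hprop : ∀ (φ : XT d L), ‖φ‖ = 1 →
      ‖HC lam (fun y : T d L => ω (rep y)) φ - ((E : ℝ) : ℂ) • φ‖ ≤ τ →
        ∀ y0 : T d L, ‖rs (fun y => nn (y - y0) ≤ R) φ‖ ^ 2 ≤ M)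
    (htM : t ≤ M) (ψ : (Fin d → ℤ) → ℂ) (x₀ : Fin d → ℤ) (hx₀ : nz x₀ ≤ W)
    (hψ : ∀ x, nz (x - x₀) ≤ W → HF lam ω ψ x = (E : ℂ) * ψ x) :
    bm ψ x₀ R ≤ 4 * M * bm ψ x₀ (W + 1) := by
  classical
  obtain ⟨H, hH⟩ := Exist.exists_anderson d lam ω 1 zero_le_one hω
  obtain ⟨f, hf, hf1, hf2⟩ := cut hH ψ E x₀ W hψ
  set m := bm ψ x₀ (W + 1) with hm
  have hm0 : 0 ≤ m := bm_nonneg _ _ _
  have hfs : SuppIn f (2 * W) := by
    intro x hx i
    have h1 : nz (x - x₀) ≤ W := by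
      by_contra hc
      push Not at hc
      apply hx
      rw [hf, ct_zero W _ hc]
      simp
    have h2 := nz_le.1 h1 i
    have h3 := nz_le.1 hx₀ i
    rw [Pi.sub_apply] at h2
    push_cast
    rw [abs_le]
    omega
  have hτn : ‖tau L f‖ = ‖f‖ := tau_norm_eq hfs (by omega)
  have hτr : ‖HC lam (fun y : T d L => ω (rep y)) (tau L f) - ((E : ℝ) : ℂ) • tau L f‖ ≤
      2 * d / (W + 1) * √m := by
    rw [← tau_H hH hfs (by omega), ← tau_smul]
    have e : tau L (H f) - tau L (((E : ℝ) : ℂ) • f) = tau L (H f - ((E : ℝ) : ℂ) • f) := by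
      have := map_sub (tauL d L) (H f) (((E : ℝ) : ℂ) • f)
      exact this.symm
    rw [e]
    exact (tau_norm_le _).trans hf2
  -- the mass of `ψ` in the small box
  have hrep : ∀ x ∈ bx x₀ R, rep (fun i => (x i : ZMod L) : T d L) = x := by
    intro x hx
    rw [mem_bx, nz_le] at hx
    funext i
    show ((x i : ℤ) : ZMod L).valMinAbs = x i
    rw [ZMod.valMinAbs_spec]
    refine ⟨rfl, ?_⟩
    have h1 := hx i
    have h2 := nz_le.1 hx₀ i
    rw [Pi.sub_apply] at h1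
    constructor <;> omega
  have hmass : bm ψ x₀ R ≤ 4 * ‖rs (fun y => nn (y - fun i => (x₀ i : ZMod L)) ≤ R) (tau L f)‖ ^ 2 := by
    rw [rs_norm]
    unfold bm
    have h1 : ∑ x ∈ bx x₀ R, ‖ψ x‖ ^ 2 ≤ ∑ x ∈ bx x₀ R, 4 * ‖f x‖ ^ 2 := by
      refine Finset.sum_le_sum fun x hx => ?_
      rw [mem_bx] at hx
      rw [hf, norm_mul, mul_pow, Complex.norm_real, Real.norm_eq_abs, abs_of_nonneg (ct_nonneg _ _)]
      have h2 := ct_half W (x - x₀) (by omega)
      have h3 : (1 / 2) ^ 2 ≤ ct W (x - x₀) ^ 2 := by gcongr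
      have h4 : 0 ≤ ‖ψ x‖ ^ 2 := by positivity
      nlinarith
    refine h1.trans ?_
    rw [← Finset.mul_sum]
    apply mul_le_mul_of_nonneg_left _ (by norm_num)
    have h2 : ∑ x ∈ bx x₀ R, ‖f x‖ ^ 2 =
        ∑ y ∈ (bx x₀ R).image (fun x => (fun i => (x i : ZMod L) : T d L)), ‖(tau L f) y‖ ^ 2 := by
      rw [Finset.sum_image]
      · refine Finset.sum_congr rfl fun x hx => ?_
        rw [tau_apply, hrep x hx]
      · intro x hx x' hx' h
        have h3 := hrep x hx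
        have h4 := hrep x' hx'
        have h5 : (fun i => (x i : ZMod L) : T d L) = fun i => (x' i : ZMod L) := h
        rw [h5, h4] at h3
        exact h3.symm
    rw [h2]
    have h3 : ∀ y ∈ (bx x₀ R).image (fun x => (fun i => (x i : ZMod L) : T d L)),
        nn (y - fun i => (x₀ i : ZMod L)) ≤ R := by
      intro y hy
      rw [Finset.mem_image] at hy
      obtain ⟨x, hx, rfl⟩ := hy
      refine nn_le fun i => ?_
      rw [mem_bx, nz_le] at hx
      refine (na_le_cast _ (x i - x₀ i) ?_).trans (hx i)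
      rw [Int.cast_sub]
      rfl
    refine le_trans (le_of_eq (Finset.sum_congr rfl fun y hy => ?_))
      (Finset.sum_le_sum_of_subset_of_nonneg (Finset.subset_univ _) fun y _ _ => ?_)
    · rw [if_pos (h3 y hy)]
    · split_ifs <;> positivity
  have hrsle : ∀ y0 : T d L, ‖rs (fun y => nn (y - y0) ≤ R) (tau L f)‖ ^ 2 ≤ ‖f‖ ^ 2 := by
    intro y0
    rw [← hτn, rs_norm, EuclideanSpace.norm_sq_eq]
    refine Finset.sum_le_sum fun y _ => ?_
    split_ifs
    · exact le_rfl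
    · positivity
  rcases le_or_gt (‖f‖ ^ 2) (t * m) with hsmall | hbig
  · calc bm ψ x₀ R ≤ 4 * ‖f‖ ^ 2 :=
          hmass.trans (mul_le_mul_of_nonneg_left (hrsle _) (by norm_num))
      _ ≤ 4 * (t * m) := by gcongr
      _ ≤ 4 * (M * m) := by gcongr
      _ = _ := by ring
  · have hfpos : 0 < ‖f‖ := by
      have h1 : 0 < ‖f‖ ^ 2 := lt_of_le_of_lt (by positivity) hbig
      by_contra hc
      have h2 : ‖f‖ = 0 := le_antisymm (not_lt.1 hc) (norm_nonneg _)
      rw [h2] at h1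
      norm_num at h1
    have htn0 : 0 < ‖tau L f‖ := by rw [hτn]; exact hfpos
    obtain ⟨φ, hφ⟩ : ∃ φ : XT d L, φ = ((‖tau L f‖⁻¹ : ℝ) : ℂ) • tau L f := ⟨_, rfl⟩
    have hφ1 : ‖φ‖ = 1 := by
      rw [hφ, norm_smul, Complex.norm_real, Real.norm_eq_abs, abs_of_pos (by positivity),
        inv_mul_cancel₀ htn0.ne']
    have hsq : √(t * m) ≤ ‖f‖ := by
      rw [Real.sqrt_le_left hfpos.le]
      exact hbig.le
    have hτ0 : 0 ≤ τ := by
      have h1 : 0 < √t := Real.sqrt_pos.2 ht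
      have h2 : 0 ≤ τ * √t := le_trans (by positivity) hτ
      by_contra hc
      push Not at hc
      nlinarith
    have hφr : ‖HC lam (fun y : T d L => ω (rep y)) φ - ((E : ℝ) : ℂ) • φ‖ ≤ τ := by
      have e : HC lam (fun y : T d L => ω (rep y)) φ - ((E : ℝ) : ℂ) • φ =
          ((‖tau L f‖⁻¹ : ℝ) : ℂ) • (HC lam (fun y : T d L => ω (rep y)) (tau L f) -
            ((E : ℝ) : ℂ) • tau L f) := by
        rw [hφ, map_smul, smul_sub, smul_comm]
      rw [e, norm_smul, Complex.norm_real, Real.norm_eq_abs, abs_of_pos (by positivity), hτn,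
        inv_mul_le_iff₀ hfpos]
      calc ‖HC lam (fun y : T d L => ω (rep y)) (tau L f) - ((E : ℝ) : ℂ) • tau L f‖ ≤
          2 * d / (W + 1) * √m := hτr
        _ ≤ (τ * √t) * √m := by gcongr
        _ = √(t * m) * τ := by rw [Real.sqrt_mul ht.le]; ring
        _ ≤ ‖f‖ * τ := by gcongr
    have h1 := hprop φ hφ1 hφr (fun i => (x₀ i : ZMod L))
    have h2 : ‖rs (fun y => nn (y - fun i => (x₀ i : ZMod L)) ≤ R) (tau L f)‖ ^ 2 =
        ‖f‖ ^ 2 * ‖rs (fun y => nn (y - fun i => (x₀ i : ZMod L)) ≤ R) φ‖ ^ 2 := by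
      rw [rs_norm, rs_norm, Finset.mul_sum]
      refine Finset.sum_congr rfl fun y _ => ?_
      rw [mul_ite, mul_zero]
      congr 1
      rw [hφ, PiLp.smul_apply, norm_smul, Complex.norm_real, Real.norm_eq_abs,
        abs_of_pos (by positivity), hτn, mul_pow]
      field_simp
    rw [h2] at hmass
    calc bm ψ x₀ R ≤ 4 * (‖f‖ ^ 2 * ‖rs (fun y => nn (y - fun i => (x₀ i : ZMod L)) ≤ R) φ‖ ^ 2) :=
          hmass
      _ ≤ 4 * (m * M) := by
          have h3 : 0 ≤ ‖rs (fun y => nn (y - fun i => (x₀ i : ZMod L)) ≤ R) φ‖ ^ 2 := by positivity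
          gcongr
      _ = _ := by ring

end

theorem local_b (d : ℕ) (hd : 3 ≤ d) (N P : ℕ) (a δ : ℝ) (ha : 0 < a) (ha1 : a ≤ 1) (hδ : 0 < δ) :
    ∃ lam0 : ℝ, 0 < lam0 ∧
    ∀ (μ : Measure ℝ) [IsProbabilityMeasure μ], μ (Set.Icc (-1) 1)ᶜ = 0 →
    ∀ lam : ℝ, 0 < lam → lam ≤ lam0 → ∀ W : ℕ,
    1 / lam ^ (d + 6) ≤ (W : ℝ) → (W : ℝ) ≤ 1 / lam ^ N →
    ∃ G : Set ((Fin d → ℤ) → ℝ), MeasurableSet G ∧
      1 - lam ^ P ≤ (Measure.infinitePi fun _ : Fin d → ℤ => μ).real G ∧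
      ∀ ω ∈ G, ∀ (x₀ : Fin d → ℤ), nz x₀ ≤ W → ∀ (ψ : (Fin d → ℤ) → ℂ) (E : ℝ), 0 ≤ E →
        E ≤ 4 * d → NR d E δ →
        (∀ x, nz (x - x₀) ≤ W → HF lam ω ψ x = (E : ℂ) * ψ x) →
        bm ψ x₀ ⌊lam ^ (a - 2)⌋₊ ≤ lam ^ (a / 64) * bm ψ x₀ (W + 1) := by
  obtain ⟨lam1, hlam1, H⟩ := every_b d hd (N + 1) P a δ ha ha1 hδ
  have ha64 : 0 < a / 64 := by positivity
  have hdr : (3 : ℝ) ≤ d := by exact_mod_cast hd
  have hd0 : (0 : ℝ) < d := by linarith
  refine ⟨min (min lam1 (1 / 7)) ((1 / (200 + 2 * (d : ℝ))) ^ (1 / (a / 64))),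
    by positivity, ?_⟩
  intro μ _ hμ lam hlam hlam0 W hW1 hW2
  have hl1 : lam ≤ lam1 := hlam0.trans ((min_le_left _ _).trans (min_le_left _ _))
  have hl7 : lam ≤ 1 / 7 := hlam0.trans ((min_le_left _ _).trans (min_le_right _ _))
  have hl2 : lam ≤ (1 / (200 + 2 * (d : ℝ))) ^ (1 / (a / 64)) := hlam0.trans (min_le_right _ _)
  have hl : lam ≤ 1 := by linarith
  obtain ⟨y, hy⟩ : ∃ y : ℝ, y = lam ^ (a / 64) := ⟨_, rfl⟩
  have hy0 : 0 < y := by rw [hy]; positivity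
  have hyd : (200 + 2 * (d : ℝ)) * y ≤ 1 := by
    have h1 : lam ^ (a / 64) ≤ ((1 / (200 + 2 * (d : ℝ)) : ℝ) ^ (1 / (a / 64))) ^ (a / 64) :=
      Real.rpow_le_rpow hlam.le hl2 ha64.le
    rw [← Real.rpow_mul (by positivity), one_div_mul_cancel ha64.ne', Real.rpow_one, ← hy,
      le_div_iff₀ (by positivity)] at h1
    linarith
  have hdy : 0 < d * y := by positivity
  have hy2 : 200 * y ≤ 1 := by linarith
  have hy3 : 2 * d * y ≤ 1 := by linarith
  have hyx : lam ^ (a / 32) = y ^ 2 := by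
    rw [hy, ← Real.rpow_natCast, ← Real.rpow_mul hlam.le]
    congr 1
    push_cast
    ring
  have hly : lam ≤ y ^ 2 := by
    rw [← hyx]
    calc lam = lam ^ (1 : ℝ) := (Real.rpow_one lam).symm
      _ ≤ lam ^ (a / 32) := Real.rpow_le_rpow_of_exponent_ge hlam hl (by linarith)
  have hsq : √(y ^ 2) = y := Real.sqrt_sq hy0.le
  have hW0 : (1 : ℝ) ≤ W := by
    refine le_trans ?_ hW1
    rw [le_div_iff₀ (by positivity), one_mul]
    exact pow_le_one₀ hlam.le hl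
  have hmono : ∀ n m : ℕ, n ≤ m → 1 / lam ^ n ≤ 1 / lam ^ m := fun n m hnm => by
    apply one_div_le_one_div_of_le (by positivity)
    exact pow_le_pow_of_le_one hlam.le hl hnm
  obtain ⟨L, hL⟩ : ∃ L : ℕ, L = 4 * W + 3 := ⟨_, rfl⟩
  have : NeZero L := ⟨by omega⟩
  have hLr : (L : ℝ) = 4 * W + 3 := by rw [hL]; push_cast; ring
  obtain ⟨G, hGm, hGP, hG⟩ := H μ hμ lam hlam hl1 L (by
      have := hmono 3 (d + 6) (by omega)
      rw [hLr]
      linarith) (by
      rw [hLr]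
      calc 4 * (W : ℝ) + 3 ≤ 7 * W := by linarith
        _ ≤ 7 * (1 / lam ^ N) := by gcongr
        _ ≤ (1 / lam) * (1 / lam ^ N) := by
            have : 7 ≤ 1 / lam := by
              rw [le_div_iff₀ hlam]
              linarith
            gcongr
        _ = 1 / lam ^ (N + 1) := by
            rw [pow_succ]
            field_simp)
  obtain ⟨G', hG'm, hG'P, hG'⟩ := lift_event μ hμ G hGm _ hGP
  refine ⟨G', hG'm, ?_, ?_⟩
  · have h1 := probReal_add_probReal_compl (μ := Measure.infinitePi fun _ : Fin d → ℤ => μ) hG'm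
    linarith
  intro ω hω x₀ hx₀ ψ E hE0 hE4 hEN hψ
  obtain ⟨hωG, hω1⟩ := hG' ω hω
  obtain ⟨R, hR⟩ : ∃ R : ℕ, R = ⌊lam ^ (a - 2)⌋₊ := ⟨_, rfl⟩
  have hra : lam ^ (a - 2) ≤ 1 / lam ^ 2 := by
    rw [Real.rpow_sub hlam, Real.rpow_ofNat]
    have : lam ^ a ≤ 1 := Real.rpow_le_one hlam.le hl ha.le
    gcongr
  have hRW : 2 * R ≤ W + 1 := by
    have h1 : (R : ℝ) ≤ lam ^ (a - 2) := by
      rw [hR]
      exact Nat.floor_le (by positivity)
    have h2 : 2 * (1 / lam ^ 2) ≤ 1 / lam ^ 6 := by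
      have h3 : 2 ≤ 1 / lam ^ 4 := by
        rw [le_div_iff₀ (by positivity)]
        have h4 : lam ^ 4 ≤ lam ^ 1 := pow_le_pow_of_le_one hlam.le hl (by norm_num)
        rw [pow_one] at h4
        linarith
      calc 2 * (1 / lam ^ 2) ≤ 1 / lam ^ 4 * (1 / lam ^ 2) := by gcongr
        _ = 1 / lam ^ 6 := by
            field_simp
    have h3 := hmono 6 (d + 6) (by omega)
    have h5 : (2 : ℝ) * R ≤ W := by linarith
    have h6 : 2 * R ≤ W := by exact_mod_cast h5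
    omega
  rw [← hR, ← hy]
  have key := box_massE (L := L) (lam := lam) hω1 W R (by omega) hRW E (lam ^ (d + 5)) (50 * y ^ 2)
    (y ^ 2) (by positivity) (by
      rw [hsq]
      have h1 : 1 / lam ^ (d + 6) ≤ (W : ℝ) + 1 := by linarith
      have h2 : 2 * d * lam ≤ y := by
        calc 2 * d * lam ≤ 2 * d * y ^ 2 := by gcongr
          _ = (2 * d * y) * y := by ring
          _ ≤ 1 * y := by gcongr
          _ = y := one_mul y
      calc 2 * (d : ℝ) / ((W : ℝ) + 1) ≤ 2 * (d : ℝ) / (1 / lam ^ (d + 6)) := by gcongr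
        _ = lam ^ (d + 5) * (2 * d * lam) := by
            rw [pow_succ lam (d + 5)]
            field_simp
        _ ≤ lam ^ (d + 5) * y := by gcongr) (by
      intro φ hφ1 hφr y0
      have h1 := hG _ hωG φ E hφ1 hφr hE0 hE4 hEN y0
      rw [hyx] at h1
      refine le_trans (le_of_eq ?_) h1
      classical
      rw [rs_norm, rs_norm]
      refine Finset.sum_congr rfl fun v _ => ?_
      by_cases h2 : nn (v - y0) ≤ R
      · rw [if_pos h2, if_pos]
        rw [hR] at h2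
        exact (Nat.le_floor_iff (by positivity)).1 h2
      · rw [if_neg h2, if_neg]
        intro h3
        apply h2
        rw [hR]
        exact Nat.le_floor h3) (by nlinarith) ψ x₀ hx₀ hψ
  refine key.trans ?_
  have h1 := bm_nonneg ψ x₀ (W + 1)
  apply mul_le_mul_of_nonneg_right _ h1
  nlinarith

end Pool.Agent.V8H95.BK
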